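import Pool.Agent.H65.LEAF.Low
import Pool.Agent.H35.ZCL.Reg
import Pool.Agent.H25.BFL.PRDb

/-!
# Entropies on the pieces of an event

`glue_low`: a lower bound for the conditional entropy on all large pieces of an event gives a lower
bound on the event.
-/

set_option autoImplicit false

namespace Pool.TT5

open Finset Real
open Pool.Agent.H49.Ent Pool.Agent.H32.Dense Pool.STK Pool.KA Pool.KSAT Pool.K2S
open Pool.BFL (Pb)

variable {Ω S T V : Type} [Fintype Ω]

theorem sum_fib [Fintype V] (Q : Ω → ℝ) (c : Ω → V) (f : V → ℝ) :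
    ∑ ω, Q ω * f (c ω) = ∑ v, f v * law Q c v := by
  classical
  unfold law
  simp_rw [Finset.mul_sum]
  rw [Finset.sum_comm]
  refine Finset.sum_congr rfl fun ω _ => ?_
  have h1 : ∀ v, f v * (if c ω = v then Q ω else 0) = if c ω = v then Q ω * f (c ω) else 0 := by
    intro v
    by_cases h : c ω = v
    · rw [if_pos h, if_pos h, h]
      ring
    · rw [if_neg h, if_neg h, mul_zero]
  rw [Finset.sum_congr rfl fun v _ => h1 v, Finset.sum_ite_eq univ (c ω), if_pos (mem_univ _)]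

theorem cond_ev5 (p : Ω → ℝ) (E : Ω → Prop) (ω : Ω) :
    (open Classical in cond p E True ω = if E ω then p ω / Pe p E else 0) := by
  classical
  unfold Pool.Agent.H49.Ent.cond
  by_cases h : E ω
  · simp only [h, if_true]
    try rfl
  · simp [h]

theorem cond_and5 {Ω : Type} [Fintype Ω] (p : Ω → ℝ) {A E : Ω → Prop} (hA : Pe p A ≠ 0) :
    cond (cond p A True) E True = cond p (fun ω => A ω ∧ E ω) True := by
  classical
  funext ω
  rw [cond_ev5, cond_ev5, cond_ev5, Pe_cond E]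
  by_cases h1 : A ω
  · by_cases h2 : E ω
    · rw [if_pos h2, if_pos h1, if_pos (⟨h1, h2⟩ : A ω ∧ E ω), div_div_div_cancel_right₀ hA]
    · rw [if_neg h2, if_neg (fun h : A ω ∧ E ω => h2 h.2)]
  · rw [if_neg h1, if_neg (fun h : A ω ∧ E ω => h1 h.1), zero_div, ite_self]

/-- **Lower bounds on the pieces of an event.** -/
theorem glue_low [Fintype V] {q : Ω → ℝ} (hq : IsLaw q) {E : Ω → Prop} {ϖ ϖ' L B ζ : ℝ}
    (hϖ : 0 < ϖ) (hE : ϖ ≤ Pe q E) (X : Ω → S) (W : Ω → T) (c : Ω → V) (hLB : L ≤ B)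
    (hB : 0 ≤ B) (hϖ' : 0 ≤ ϖ') (hζ : Fintype.card V * ϖ' ≤ ζ * ϖ)
    (h : ∀ v, ϖ' ≤ Pe q (fun ω => E ω ∧ c ω = v) → 0 < Pe q (fun ω => E ω ∧ c ω = v) →
      L ≤ CH (cond q (fun ω => E ω ∧ c ω = v) True) X W) :
    L - ζ * B ≤ CH (cond q E True) X W := by
  classical
  have hE0 : 0 < Pe q E := hϖ.trans_le hE
  have hQ : IsLaw (cond q E True) := isLaw_cond hq hE0
  have hζ0 : 0 ≤ ζ := by
    have h1 : 0 ≤ (Fintype.card V : ℝ) * ϖ' := by positivity
    by_contra hcon
    have := mul_neg_of_neg_of_pos (not_le.1 hcon) hϖ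
    linarith
  rcases lt_or_ge L 0 with hL | hL
  · have h1 : 0 ≤ ζ * B := mul_nonneg hζ0 hB
    have h2 := CH_nonneg hQ.nonneg X W
    linarith
  obtain ⟨Q, hQe⟩ : ∃ Q, Q = cond q E True := ⟨_, rfl⟩
  rw [← hQe] at hQ ⊢
  have h1 : CH Q X (fun ω => (W ω, c ω)) ≤ CH Q X W :=
    CH_mono_cond hQ.nonneg fun _ _ _ _ e => (Prod.ext_iff.mp e).1
  rw [← Pool.ZCL.Ex_CH hQ.nonneg X W c] at h1
  have hlw : ∀ v, law Q c v = Pe q (fun ω => E ω ∧ c ω = v) / Pe q E := by
    intro v
    have h2 := Pe_cond (p := q) (A := E) (fun ω => c ω = v)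
    rw [← h2, hQe, Pe_eq]
    unfold law
    exact Finset.sum_congr rfl fun ω _ => by
      by_cases h3 : c ω = v <;> simp [h3]
  obtain ⟨big, hbig⟩ : ∃ f : V → ℝ, f = fun v =>
      if ϖ' ≤ Pe q (fun ω => E ω ∧ c ω = v) then 1 else 0 := ⟨_, rfl⟩
  have h3 : Ex Q (fun ω => big (c ω) * L) ≤ Ex Q (fun ω => CH (cond Q c (c ω)) X W) := by
    refine Ex_mono hQ.nonneg fun ω hω => ?_
    have h4 : 0 < law Q c (c ω) := law_pos hQ.nonneg c hω
    have h5 : 0 < Pe q (fun ω' => E ω' ∧ c ω' = c ω) := by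
      rw [hlw] at h4
      by_contra hcon
      exact absurd h4 (not_lt.2 (div_nonpos_of_nonpos_of_nonneg (not_lt.1 hcon) hE0.le))
    have h6 : cond Q c (c ω) = cond q (fun ω' => E ω' ∧ c ω' = c ω) True := by
      have e1 : cond Q c (c ω) = cond Q (fun ω' => c ω' = c ω) True := by
        funext x
        unfold Pool.Agent.H49.Ent.cond
        have e2 : law Q c (c ω) = law Q (fun ω' => c ω' = c ω) True := by
          unfold law
          exact Finset.sum_congr rfl fun x _ => by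
            by_cases h3 : c x = c ω <;> simp [h3]
        rw [e2]
        by_cases h3 : c x = c ω <;> simp [h3]
      rw [e1, hQe, cond_and5 q hE0.ne']
    rw [hbig]
    simp only
    by_cases h7 : ϖ' ≤ Pe q (fun ω' => E ω' ∧ c ω' = c ω)
    · rw [if_pos h7, one_mul, h6]
      exact h _ h7 h5
    · rw [if_neg h7, zero_mul]
      exact CH_nonneg (fun x => cond_nonneg hQ.nonneg c (c ω) x) X W
  have h4 : Ex Q (fun ω => big (c ω) * L) = L * ∑ v, big v * law Q c v := by
    rw [← sum_fib Q c big, Finset.mul_sum]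
    unfold Ex
    exact Finset.sum_congr rfl fun ω _ => by ring
  have h5 : 1 - ζ ≤ ∑ v, big v * law Q c v := by
    have h6 : ∑ v, law Q c v = 1 := by
      have := sum_fib Q c (fun _ => 1)
      simp only [mul_one, one_mul] at this
      rw [← this]
      exact hQ.sum_one
    have h7 : ∑ v, (1 - big v) * law Q c v ≤ ∑ _v : V, ϖ' / ϖ := by
      refine Finset.sum_le_sum fun v _ => ?_
      rw [hbig]
      simp only
      by_cases h8 : ϖ' ≤ Pe q (fun ω => E ω ∧ c ω = v)
      · rw [if_pos h8, sub_self, zero_mul]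
        positivity
      · rw [if_neg h8, sub_zero, one_mul, hlw]
        exact div_le_div₀ hϖ' (not_le.1 h8).le hϖ hE
    rw [Finset.sum_const, Finset.card_univ, nsmul_eq_mul] at h7
    have h8 : (Fintype.card V : ℝ) * (ϖ' / ϖ) ≤ ζ := by
      rw [← mul_div_assoc, div_le_iff₀ hϖ]
      exact hζ
    have h9 : ∑ v, (1 - big v) * law Q c v = 1 - ∑ v, big v * law Q c v := by
      have h10 : ∑ v, (1 - big v) * law Q c v = ∑ v, law Q c v - ∑ v, big v * law Q c v := by
        rw [← Finset.sum_sub_distrib]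
        exact Finset.sum_congr rfl fun v _ => by ring
      rw [h10, h6]
    linarith
  have h6 := mul_le_mul_of_nonneg_left h5 hL
  have h7 : ζ * L ≤ ζ * B := mul_le_mul_of_nonneg_left hLB hζ0
  linarith

end Pool.TT5
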