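import Pool.Agent.H32.Dense.EntX

/-!
# Integers which are near for equal conditions

`CH_pint`: an integer which is known up to `D` given the condition has at most `log (2 D + 1)` bits;
`CH_pfam`: a finite family of such integers. `pow_log`: the number of the digits.
-/

set_option autoImplicit false

namespace Pool.TT5

open Finset Real
open Pool.Agent.H49.Ent Pool.Agent.H32.Dense

section ent

variable {Ω 𝓦 : Type} [Fintype Ω] {p : Ω → ℝ}

/-- **Integers which are near for equal conditions** are few. -/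
theorem CH_pint (h0 : ∀ ω, 0 ≤ p ω) (h1 : ∑ ω, p ω = 1) (X : Ω → ℤ) (W : Ω → 𝓦) {D : ℝ}
    (hD : 0 ≤ D)
    (h : ∀ ω ω', 0 < p ω → 0 < p ω' → W ω = W ω' → |(X ω : ℝ) - X ω'| ≤ D) :
    CH p X W ≤ Real.log (2 * D + 1) := by
  classical
  obtain ⟨κ, hκ⟩ : ∃ κ : 𝓦 → ℝ, ∀ ω, 0 < p ω → |(X ω : ℝ) - κ (W ω)| ≤ D := by
    refine ⟨fun w => if hw : ∃ ω, 0 < p ω ∧ W ω = w then (X hw.choose : ℝ) else 0,
      fun ω hω => ?_⟩
    have hw : ∃ ω', 0 < p ω' ∧ W ω' = W ω := ⟨ω, hω, rfl⟩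
    simp only [dif_pos hw]
    exact h ω _ hω hw.choose_spec.1 hw.choose_spec.2.symm
  have s3 := CH_le_card h0 h1 X W (fun w => Finset.Icc ⌈κ w - D⌉ ⌊κ w + D⌋) (by
    intro ω hω
    have h1 := abs_le.1 (hκ ω hω)
    rw [Finset.mem_Icc]
    constructor
    · rw [Int.ceil_le]
      linarith [h1.1]
    · rw [Int.le_floor]
      linarith [h1.2])
  refine s3.trans ?_
  have h2 : Ex p (fun ω => Real.log ((Finset.Icc ⌈κ (W ω) - D⌉ ⌊κ (W ω) + D⌋).card)) ≤
      Ex p (fun _ => Real.log (2 * D + 1)) := by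
    refine Ex_mono h0 fun ω hω => ?_
    have h1 := abs_le.1 (hκ ω hω)
    have h4 : (1 : ℝ) ≤ ((Finset.Icc ⌈κ (W ω) - D⌉ ⌊κ (W ω) + D⌋).card : ℝ) := by
      have : 0 < (Finset.Icc ⌈κ (W ω) - D⌉ ⌊κ (W ω) + D⌋).card := by
        refine Finset.card_pos.2 ⟨X ω, ?_⟩
        rw [Finset.mem_Icc]
        constructor
        · rw [Int.ceil_le]
          linarith [h1.1]
        · rw [Int.le_floor]
          linarith [h1.2]
      exact_mod_cast this
    refine Real.log_le_log (by linarith) ?_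
    have h5 := Int.floor_le (κ (W ω) + D)
    have h6 := Int.le_ceil (κ (W ω) - D)
    rw [Int.card_Icc]
    have h7 : ((⌊κ (W ω) + D⌋ + 1 - ⌈κ (W ω) - D⌉ : ℤ) : ℝ) ≤ 2 * D + 1 := by
      push_cast
      linarith
    rcases le_total 0 (⌊κ (W ω) + D⌋ + 1 - ⌈κ (W ω) - D⌉) with h8 | h8
    · have h9 : (((⌊κ (W ω) + D⌋ + 1 - ⌈κ (W ω) - D⌉).toNat : ℤ) : ℝ) =
          ((⌊κ (W ω) + D⌋ + 1 - ⌈κ (W ω) - D⌉ : ℤ) : ℝ) := by
        rw [Int.toNat_of_nonneg h8]
      rw [← h9] at h7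
      exact_mod_cast h7
    · rw [Int.toNat_of_nonpos h8]
      push_cast
      linarith
  rw [Ex_const h1] at h2
  exact h2

/-- Subadditivity for a finite family. -/
theorem CH_psum {ι S T : Type} [Fintype ι] (hp0 : ∀ ω, 0 ≤ p ω) (X : Ω → ι → S) (W : Ω → T) :
    CH p X W ≤ ∑ i, CH p (fun ω => X ω i) W := by
  classical
  have key : ∀ s : Finset ι, CH p (fun ω i => if i ∈ s then some (X ω i) else none) W ≤
      ∑ i ∈ s, CH p (fun ω => X ω i) W := by
    intro s
    induction s using Finset.induction_on with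
    | empty =>
      rw [Finset.sum_empty]
      refine le_of_eq (CH_eq_zero hp0 ?_)
      intro ω ω' _ _ _
      funext i
      simp
    | insert j s hj ih =>
      rw [Finset.sum_insert hj]
      have h1 : CH p (fun ω i => if i ∈ insert j s then some (X ω i) else none) W ≤
          CH p (fun ω => (X ω j, fun i => if i ∈ s then some (X ω i) else none)) W := by
        refine CH_mono_left hp0 ?_
        intro ω ω' _ _ h
        simp only [Prod.mk.injEq] at h
        funext i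
        by_cases hi : i = j
        · subst hi
          simp only [Finset.mem_insert_self, if_true]
          rw [h.1.1]
        · have h2 := congrFun h.1.2 i
          simp only [Finset.mem_insert, hi, false_or]
          exact h2
      have h3 := CH_subadd hp0 (fun ω => X ω j) (fun ω i => if i ∈ s then some (X ω i) else none) W
      linarith
  refine le_trans (CH_mono_left hp0 ?_) (key univ)
  intro ω ω' _ _ h
  simp only [Prod.mk.injEq] at h
  funext i
  have h2 := congrFun h.1 i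
  simp only [Finset.mem_univ, if_true, Option.some.injEq] at h2
  exact h2

/-- **Families of integers which are near for equal conditions.** -/
theorem CH_pfam {ι : Type} [Fintype ι] (h0 : ∀ ω, 0 ≤ p ω) (h1 : ∑ ω, p ω = 1) (X : Ω → ι → ℤ)
    (W : Ω → 𝓦) {D : ℝ} (hD : 0 ≤ D) (h : ∀ ω ω', 0 < p ω → 0 < p ω' → W ω = W ω' → ∀ i,
      |(X ω i : ℝ) - X ω' i| ≤ D) :
    CH p X W ≤ Fintype.card ι * Real.log (2 * D + 1) := by
  refine (CH_psum h0 X W).trans ?_
  have h2 : ∀ i ∈ (univ : Finset ι), CH p (fun ω => X ω i) W ≤ Real.log (2 * D + 1) :=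
    fun i _ => CH_pint h0 h1 (fun ω => X ω i) W hD fun ω ω' a b e => h ω ω' a b e i
  refine (Finset.sum_le_sum h2).trans (le_of_eq ?_)
  rw [Finset.sum_const, Finset.card_univ, nsmul_eq_mul]

end ent

theorem fl_dif (x y : ℝ) : |((⌊x⌋ : ℤ) : ℝ) - (⌊y⌋ : ℤ)| ≤ |x - y| + 1 := by
  have h1 := Int.floor_le x
  have h2 := Int.lt_floor_add_one x
  have h3 := Int.floor_le y
  have h4 := Int.lt_floor_add_one y
  have h5 := neg_abs_le (x - y)
  have h6 := le_abs_self (x - y)
  rw [abs_le]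
  constructor <;> linarith

theorem fl_sca {σ x y δ : ℝ} (hσ : 0 ≤ σ) (h : |x - y| ≤ δ) :
    |((⌊σ * x⌋ : ℤ) : ℝ) - (⌊σ * y⌋ : ℤ)| ≤ σ * δ + 1 := by
  have h1 := fl_dif (σ * x) (σ * y)
  rw [← mul_sub, abs_mul, abs_of_nonneg hσ] at h1
  have h2 := mul_le_mul_of_nonneg_left h hσ
  linarith

theorem fl_inv {σ x y : ℝ} (hσ : 0 < σ) (h : ⌊σ * x⌋ = ⌊σ * y⌋) : |x - y| ≤ 1 / σ := by
  have h1 := (Int.abs_sub_lt_one_of_floor_eq_floor h).le
  rw [← mul_sub, abs_mul, abs_of_pos hσ] at h1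
  rw [le_div_iff₀ hσ]
  linarith

end Pool.TT5
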