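import Pool.Agent.H5.TT.Glu

/-!
# Pieces of an event, with a bad part

`glue2`: a lower bound for the conditional entropy on the good pieces of an event, the others have
a small share. `few_part`: a variable with few bits given `R` is a function of `R` on few pieces, up to
a small share.
-/

set_option autoImplicit false

namespace Pool.TT5

open Finset Real
open Pool.Agent.H49.Ent Pool.Agent.H32.Dense Pool.STK Pool.KA Pool.KSAT Pool.K2S

variable {Ω S T V Λ σ : Type} [Fintype Ω]

theorem cond_val (Q : Ω → ℝ) (c : Ω → V) (v : V) :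
    cond Q c v = cond Q (fun ω' => c ω' = v) True := by
  funext x
  have e2 : law Q c v = law Q (fun ω' => c ω' = v) True := by
    unfold law
    exact Finset.sum_congr rfl fun x _ => by
      by_cases h3 : c x = v <;> simp [h3]
  unfold Pool.Agent.H49.Ent.cond
  rw [e2]
  by_cases h3 : c x = v <;> simp [h3]

theorem cond_piece {q : Ω → ℝ} {E : Ω → Prop} (hE0 : 0 < Pe q E) (c : Ω → V) (v : V) :
    cond (cond q E True) c v = cond q (fun ω => E ω ∧ c ω = v) True := by
  rw [cond_val, cond_and5 q hE0.ne']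

/-- **Lower bounds on the good pieces of an event.** -/
theorem glue2 {q : Ω → ℝ} (hq : IsLaw q) {E : Ω → Prop} {L B ζ : ℝ} (hE0 : 0 < Pe q E)
    (X : Ω → S) (W : Ω → T) (c : Ω → V) (G : V → Prop) (hLB : L ≤ B) (hB : 0 ≤ B) (hζ0 : 0 ≤ ζ)
    (hζ : Pe q (fun ω => E ω ∧ ¬ G (c ω)) ≤ ζ * Pe q E)
    (h : ∀ v, G v → 0 < Pe q (fun ω => E ω ∧ c ω = v) →
      L ≤ CH (cond q (fun ω => E ω ∧ c ω = v) True) X W) :
    L - ζ * B ≤ CH (cond q E True) X W := by
  classical
  have hQ : IsLaw (cond q E True) := isLaw_cond hq hE0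
  rcases lt_or_ge L 0 with hL | hL
  · have h1 : 0 ≤ ζ * B := mul_nonneg hζ0 hB
    have h2 := CH_nonneg hQ.nonneg X W
    linarith
  obtain ⟨Q, hQe⟩ : ∃ Q, Q = cond q E True := ⟨_, rfl⟩
  have hpc : ∀ v, cond Q c v = cond q (fun ω' => E ω' ∧ c ω' = v) True := fun v => by
    rw [hQe, cond_piece hE0]
  have hPQ : ∀ A : Ω → Prop, Pe Q A = Pe q (fun ω => E ω ∧ A ω) / Pe q E := fun A => by
    rw [hQe, Pe_cond]
  rw [← hQe] at hQ ⊢
  have h1 : CH Q X (fun ω => (W ω, c ω)) ≤ CH Q X W :=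
    CH_mono_cond hQ.nonneg fun _ _ _ _ e => (Prod.ext_iff.mp e).1
  rw [← Pool.ZCL.Ex_CH hQ.nonneg X W c] at h1
  have h3 : Ex Q (fun ω => if G (c ω) then L else 0) ≤ Ex Q (fun ω => CH (cond Q c (c ω)) X W) := by
    refine Ex_mono hQ.nonneg fun ω hω => ?_
    have h4 : 0 < law Q c (c ω) := law_pos hQ.nonneg c hω
    have h5 : 0 < Pe q (fun ω' => E ω' ∧ c ω' = c ω) := by
      have h6 : law Q c (c ω) = Pe Q (fun ω' => c ω' = c ω) := by
        rw [Pe_eq]
        unfold law
        exact Finset.sum_congr rfl fun x _ => by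
          by_cases h3 : c x = c ω <;> simp [h3]
      rw [h6, hPQ] at h4
      by_contra hcon
      exact absurd h4 (not_lt.2 (div_nonpos_of_nonpos_of_nonneg (not_lt.1 hcon) hE0.le))
    by_cases h7 : G (c ω)
    · rw [if_pos h7, hpc]
      exact h _ h7 h5
    · rw [if_neg h7]
      exact CH_nonneg (fun x => cond_nonneg hQ.nonneg c (c ω) x) X W
  have h4 : Ex Q (fun ω => if G (c ω) then L else 0) = L * Pe Q (fun ω => G (c ω)) := by
    rw [Pe_eq, Finset.mul_sum]
    unfold Ex
    exact Finset.sum_congr rfl fun ω _ => by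
      by_cases h7 : G (c ω)
      · simp only [if_pos h7]
        ring
      · simp only [if_neg h7]
        ring
  have h5 : 1 - ζ ≤ Pe Q (fun ω => G (c ω)) := by
    have h6 : Pe Q (fun ω => G (c ω)) + Pe Q (fun ω => ¬ G (c ω)) = 1 := by
      rw [Pe_eq, Pe_eq, ← Finset.sum_add_distrib, ← hQ.sum_one]
      exact Finset.sum_congr rfl fun ω _ => by
        by_cases h7 : G (c ω) <;> simp [h7]
    have h7 : Pe Q (fun ω => ¬ G (c ω)) ≤ ζ := by
      rw [hPQ, div_le_iff₀ hE0]
      exact hζ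
    linarith
  have h6 := mul_le_mul_of_nonneg_left h5 hL
  have h7 : ζ * L ≤ ζ * B := mul_le_mul_of_nonneg_left hLB hζ0
  linarith

/-- **A variable with few bits** is a function on few pieces, up to a small share. -/
theorem few_part {Q : Ω → ℝ} (hQ : IsLaw Q) (L : Ω → Λ) (R : Ω → σ) {cL ζ : ℝ} (hc : 0 < cL)
    (h : CH Q L R ≤ cL) (hζ : 0 < ζ) {N : ℕ} (hN : Real.exp (cL / ζ) ≤ N) :
    ∃ idx : Ω → Option (Fin N), Pe Q (fun ω => idx ω = none) ≤ ζ ∧
      ∀ ω ω', R ω = R ω' → idx ω = idx ω' → idx ω ≠ none → L ω = L ω' := by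
  classical
  obtain ⟨PL, hPL⟩ : ∃ f : Ω → ℝ, f = fun ω => law Q (fun ω => (L ω, R ω)) (L ω, R ω) /
      law Q R (R ω) := ⟨_, rfl⟩
  obtain ⟨t, ht⟩ : ∃ t : ℝ, t = cL / ζ := ⟨_, rfl⟩
  have ht0 : 0 < t := by
    rw [ht]
    positivity
  have hle : ∀ ω, law Q (fun ω => (L ω, R ω)) (L ω, R ω) ≤ law Q R (R ω) := fun ω => by
    unfold law
    refine Finset.sum_le_sum fun x _ => ?_
    by_cases h1 : R x = R ω
    · by_cases h2 : L x = L ω
      · rw [if_pos (Prod.ext h2 h1), if_pos h1]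
      · rw [if_neg (fun h3 => h2 (Prod.ext_iff.1 h3).1), if_pos h1]
        exact hQ.nonneg x
    · rw [if_neg (fun h3 => h1 (Prod.ext_iff.1 h3).2), if_neg h1]
  have hf0 : ∀ ω, 0 < Q ω → 0 ≤ -Real.log (PL ω) := fun ω hω => by
    have h1 : PL ω ≤ 1 := by
      rw [hPL]
      exact div_le_one_of_le₀ (hle ω) (law_nonneg hQ.nonneg _ _)
    have h2 : 0 ≤ PL ω := by
      rw [hPL]
      exact div_nonneg (law_nonneg hQ.nonneg _ _) (law_nonneg hQ.nonneg _ _)
    have := Real.log_nonpos h2 h1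
    linarith
  have hE : Ex Q (fun ω => -Real.log (PL ω)) ≤ cL := by
    rw [CH_eq_neg_sum hQ.nonneg] at h
    rw [hPL]
    exact h
  -- the values with a large weight
  obtain ⟨S, hS⟩ : ∃ S : σ → Finset Λ, S = fun r => (univ.filter fun ω => 0 < Q ω ∧ R ω = r ∧
      -Real.log (PL ω) ≤ t).image L := ⟨_, rfl⟩
  have hcard : ∀ r, (S r).card ≤ N := by
    intro r
    rcases Finset.eq_empty_or_nonempty (S r) with h0 | ⟨ℓ, hℓ⟩
    · rw [h0, Finset.card_empty]
      exact Nat.zero_le N
    rw [hS, Finset.mem_image] at hℓ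
    obtain ⟨ω₀, hω₀, -⟩ := hℓ
    rw [Finset.mem_filter] at hω₀
    obtain ⟨-, hω₀, hr₀, -⟩ := hω₀
    have hR0 : 0 < law Q R r := by
      rw [← hr₀]
      exact law_pos hQ.nonneg R hω₀
    have h1 : ∀ ℓ ∈ S r, Real.exp (-t) * law Q R r ≤ law Q (fun ω => (L ω, R ω)) (ℓ, r) := by
      intro ℓ hℓ
      rw [hS, Finset.mem_image] at hℓ
      obtain ⟨ω, hω, rfl⟩ := hℓ
      rw [Finset.mem_filter] at hω
      obtain ⟨-, hω, hr, hl⟩ := hω
      have h2 : 0 < law Q (fun ω => (L ω, R ω)) (L ω, R ω) := law_pos hQ.nonneg _ hω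
      have h3 : 0 < law Q R (R ω) := law_pos hQ.nonneg _ hω
      have h4 : Real.exp (-t) ≤ PL ω := by
        have h5 : 0 < PL ω := by
          rw [hPL]
          exact div_pos h2 h3
        rw [← Real.exp_log h5]
        exact Real.exp_le_exp.2 (by linarith)
      rw [hPL] at h4
      simp only at h4
      rw [le_div_iff₀ h3, hr] at h4
      exact h4
    have h2 : ∑ ℓ ∈ S r, law Q (fun ω => (L ω, R ω)) (ℓ, r) ≤ law Q R r := by
      unfold law
      rw [Finset.sum_comm]
      refine Finset.sum_le_sum fun x _ => ?_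
      by_cases h1 : R x = r
      · rw [if_pos h1]
        have h3 : ∀ (ℓ : Λ) (ins : Decidable ((L x, R x) = (ℓ, r))),
            @ite ℝ ((L x, R x) = (ℓ, r)) ins (Q x) 0 ≤ if ℓ = L x then Q x else 0 := by
          intro ℓ _
          by_cases h4 : ℓ = L x
          · rw [if_pos h4, if_pos (Prod.ext h4.symm h1)]
          · rw [if_neg h4, if_neg (fun h5 => h4 (Prod.ext_iff.1 h5).1.symm)]
        refine (Finset.sum_le_sum fun ℓ _ => h3 ℓ _).trans ?_
        rw [Finset.sum_ite_eq']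
        split_ifs
        · exact le_rfl
        · exact hQ.nonneg x
      · rw [if_neg h1]
        refine le_of_eq (Finset.sum_eq_zero fun ℓ _ => ?_)
        rw [if_neg (fun h5 => h1 (Prod.ext_iff.1 h5).2)]
    have h3 := (Finset.sum_le_sum h1).trans h2
    rw [Finset.sum_const, nsmul_eq_mul] at h3
    have h4 : ((S r).card : ℝ) * Real.exp (-t) ≤ 1 := by
      have h5 : ((S r).card : ℝ) * Real.exp (-t) * law Q R r ≤ 1 * law Q R r := by linarith
      exact le_of_mul_le_mul_right h5 hR0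
    have h5 : ((S r).card : ℝ) ≤ Real.exp t := by
      have h6 := mul_le_mul_of_nonneg_right h4 (Real.exp_pos t).le
      rw [mul_assoc, ← Real.exp_add, neg_add_cancel, Real.exp_zero, mul_one, one_mul] at h6
      exact h6
    rw [ht] at h5
    exact_mod_cast h5.trans hN
  obtain ⟨g, hg⟩ : ∃ g : σ → Λ → Option (Fin N), g = fun r ℓ =>
      if h : ℓ ∈ S r then some (Fin.castLE (hcard r) ((S r).equivFin ⟨ℓ, h⟩)) else none := ⟨_, rfl⟩
  have hgi : ∀ r ℓ ℓ', g r ℓ = g r ℓ' → g r ℓ ≠ none → ℓ = ℓ' := by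
    intro r ℓ ℓ' e hn
    rw [hg] at e hn
    simp only at e hn
    by_cases h1 : ℓ ∈ S r
    · by_cases h2 : ℓ' ∈ S r
      · rw [dif_pos h1, dif_pos h2, Option.some_inj] at e
        have e2 := (Fin.castLE_injective (hcard r)) e
        have e3 := (S r).equivFin.injective e2
        exact congrArg Subtype.val e3
      · rw [dif_pos h1, dif_neg h2] at e
        exact absurd e (Option.some_ne_none _)
    · rw [dif_neg h1] at hn
      exact absurd rfl hn
  refine ⟨fun ω => g (R ω) (L ω), ?_, ?_⟩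
  · -- Markov
    have h1 : t * Pe Q (fun ω => g (R ω) (L ω) = none) ≤ cL := by
      refine le_trans ?_ hE
      rw [Pe_eq, Finset.mul_sum]
      unfold Ex
      refine Finset.sum_le_sum fun ω _ => ?_
      rcases (hQ.nonneg ω).eq_or_lt with h0 | h0
      · rw [← h0]
        simp
      by_cases h2 : g (R ω) (L ω) = none
      · rw [if_pos h2, mul_comm]
        refine mul_le_mul_of_nonneg_left ?_ h0.le
        by_contra hcon
        rw [not_le] at hcon
        have h3 : L ω ∈ S (R ω) := by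
          rw [hS]
          exact Finset.mem_image_of_mem L (Finset.mem_filter.2
            ⟨Finset.mem_univ _, h0, rfl, hcon.le⟩)
        rw [hg] at h2
        simp only [dif_pos h3] at h2
        exact absurd h2 (Option.some_ne_none _)
      · rw [if_neg h2, mul_zero]
        exact mul_nonneg h0.le (hf0 ω h0)
    have h2 : cL = t * ζ := by
      rw [ht]
      field_simp
    rw [h2] at h1
    exact le_of_mul_le_mul_left h1 ht0
  · intro ω ω' e1 e2 e3
    change g (R ω) (L ω) = g (R ω') (L ω') at e2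
    rw [← e1] at e2
    exact hgi _ _ _ e2 e3

end Pool.TT5
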