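import Pool.Agent.H5.TT.AbsA
import Pool.Agent.H5.TT.Glu2

/-!
# The digits of the group modulo a direction, from the total form

`tdg`: the digits of all the coordinates modulo a direction with a pivot `k` in the base, the last one
in units of the direction. `TotN`: these are full on all large events, the direction is a function of
`cT`. `QB`: the digits of the group modulo the vector `v`, as a function of the digits of the group.
`tot_all`: these are full given the digits of the other coordinates, on all large events, if `v` is a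
function of a variable `R` with few bits given `cT`.
-/

set_option autoImplicit false

namespace Pool.TT5

open Finset Real
open Pool.Agent.H49.Ent Pool.Agent.H32.Dense Pool.STK Pool.KA Pool.KSAT Pool.K2S

/-- The digits modulo the direction `κ` with the pivot `k`. -/
noncomputable def tdg (n k r : ℕ) (κ : ℕ → ℝ) (y : ℕ → ℝ) (l : Fin (n + 1)) : ℤ :=
  if 1 ≤ (l : ℕ) ∧ (l : ℕ) ≠ k then
    if (l : ℕ) = n then ⌊(2 : ℝ) ^ r * ((y n - κ n * y k) / max 1 |κ n|)⌋
    else ⌊(2 : ℝ) ^ r * (y l - κ l * y k)⌋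
  else 0

/-- The directions of the total form. -/
def DrN (n k : ℕ) (P : ℕ → Prop) (κ : ℕ → ℝ) : Prop :=
  κ k = 1 ∧ (∀ l, 1 ≤ l → l < n → |κ l| ≤ 1) ∧ ∀ l, 1 ≤ l → l < n → ¬ P l → κ l = 0

section

variable {Ω σ τ ρ : Type} [Fintype Ω]

/-- **The total form.** -/
def TotN (q : Ω → ℝ) (E0 : Ω → Prop) (n r : ℕ) (P : ℕ → Prop) (cT : Ω → σ) (W : Ω → τ)
    (y : Ω → ℕ → ℝ) (a ϖ : ℝ) : Prop :=
  ∀ k, 1 ≤ k → k < n → P k → ∀ κ : σ → ℕ → ℝ, (∀ v, DrN n k P (κ v)) → ∀ E : Ω → Prop,
    (∀ ω, E ω → E0 ω) → ϖ ≤ Pe q E →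
    a ≤ CH (cond q E True) (fun ω => tdg n k r (κ (cT ω)) (y ω)) W

/-- Fullness of the base on large events in `E0`. -/
def FulE (q : Ω → ℝ) (E0 : Ω → Prop) (n r : ℕ) (W : Ω → τ) (y : Ω → ℕ → ℝ) (a ϖ : ℝ) : Prop :=
  ∀ E : Ω → Prop, (∀ ω, E ω → E0 ω) → ϖ ≤ Pe q E → a ≤ CH (cond q E True) (rdg n r y) W

theorem cond_up {q : Ω → ℝ} (hq : IsLaw q) {E : Ω → Prop} (hE0 : 0 < Pe q E) {S T : Type}
    (X : Ω → S) (W : Ω → T) : CH (cond q E True) X W ≤ CH q X W / Pe q E := by
  classical
  rw [le_div_iff₀ hE0]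
  have h1 : CH q X (fun ω => (W ω, E ω)) ≤ CH q X W :=
    CH_mono_cond hq.nonneg fun _ _ _ _ e => (Prod.ext_iff.mp e).1
  rw [← Pool.ZCL.Ex_CH hq.nonneg X W E] at h1
  refine le_trans ?_ h1
  rw [mul_comm, Pe_eq, Finset.sum_mul]
  unfold Ex
  refine Finset.sum_le_sum fun ω _ => ?_
  by_cases h : E ω
  · simp only [h, if_true, le_refl]
  · rw [if_neg h, zero_mul]
    exact mul_nonneg (hq.nonneg ω) (CH_nonneg (fun x => cond_nonneg hq.nonneg E (E ω) x) X W)

end

/-! ### The digits modulo a vector -/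

section QB

variable {c : ℕ} (n : ℕ) (gs : Fin c → ℕ)

open Classical in
/-- The digits of the group modulo the vector `v`. -/
noncomputable def QB (v : Fin c → ℝ) (x : Fin c → ℤ) (u : Fin c) : ℤ :=
  if h : ∃ p, v p ≠ 0 ∧ ∀ u, |v u| ≤ |v p| then
    if u = h.choose then 0 else ⌊(x u : ℝ) - v u / v h.choose * x h.choose⌋
  else if gs u = n then 0 else x u

variable {n gs}

/-- The pivot. -/
theorem QB_piv {v : Fin c → ℝ} {u₀ : Fin c} (h0 : v u₀ ≠ 0) : ∃ p : Fin c, v p ≠ 0 ∧
    (∀ u, |v u| ≤ |v p|) ∧ ∀ (x : Fin c → ℤ) (u : Fin c),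
      QB n gs v x u = if u = p then 0 else ⌊(x u : ℝ) - v u / v p * x p⌋ := by
  classical
  have hex : ∃ p, v p ≠ 0 ∧ ∀ u, |v u| ≤ |v p| := by
    obtain ⟨p, hp, hm⟩ := Finset.exists_max_image (Finset.univ : Finset (Fin c)) (fun u => |v u|)
      ⟨u₀, Finset.mem_univ _⟩
    refine ⟨p, ?_, fun u => hm u (Finset.mem_univ _)⟩
    intro h1
    have := hm u₀ (Finset.mem_univ _)
    rw [h1, abs_zero] at this
    exact h0 (abs_nonpos_iff.1 this)
  refine ⟨hex.choose, hex.choose_spec.1, hex.choose_spec.2, fun x u => ?_⟩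
  unfold QB
  rw [dif_pos hex]

/-- Two vectors of digits which are equal modulo `v`. -/
theorem QB_eq {v : Fin c → ℝ} {u₀ : Fin c} (h0 : v u₀ ≠ 0) : ∃ p : Fin c, v p ≠ 0 ∧
    (∀ u, |v u| ≤ |v p|) ∧ ∀ x x' : Fin c → ℤ, QB n gs v x = QB n gs v x' → ∀ u,
      |((x u : ℝ) - v u / v p * x p) - ((x' u : ℝ) - v u / v p * x' p)| ≤ 1 := by
  obtain ⟨p, h1, h2, h3⟩ := QB_piv (n := n) (gs := gs) h0
  refine ⟨p, h1, h2, fun x x' e u => ?_⟩
  have e1 := congrFun e u
  rw [h3, h3] at e1
  by_cases hu : u = p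
  · rw [hu, div_self h1]
    simp
  · rw [if_neg hu, if_neg hu] at e1
    exact (Int.abs_sub_lt_one_of_floor_eq_floor e1).le

/-- The bound. -/
theorem QB_le {v : Fin c → ℝ} {x : Fin c → ℤ} {B : ℝ} (hB : ∀ u, |(x u : ℝ)| ≤ B) (u : Fin c) :
    |(QB n gs v x u : ℝ)| ≤ 2 * B + 1 := by
  have hB0 : 0 ≤ B := (abs_nonneg _).trans (hB u)
  by_cases hex : ∃ p, v p ≠ 0 ∧ ∀ u, |v u| ≤ |v p|
  · obtain ⟨p₀, hp₀, -⟩ := hex
    obtain ⟨p, h1, h2, h3⟩ := QB_piv (n := n) (gs := gs) hp₀
    rw [h3]
    split_ifs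
    · simp only [Int.cast_zero, abs_zero]
      linarith
    · have h4 : |v u / v p| ≤ 1 := by
        rw [abs_div, div_le_one (abs_pos.2 h1)]
        exact h2 u
      have h5 : |(x u : ℝ) - v u / v p * x p| ≤ 2 * B := by
        refine (abs_sub _ _).trans ?_
        rw [abs_mul]
        have := mul_le_mul h4 (hB p) (abs_nonneg _) zero_le_one
        linarith [hB u]
      have h6 := fl_dif ((x u : ℝ) - v u / v p * x p) 0
      rw [Int.floor_zero, Int.cast_zero, sub_zero, sub_zero] at h6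
      linarith
  · unfold QB
    rw [dif_neg hex]
    split_ifs
    · simp only [Int.cast_zero, abs_zero]
      linarith
    · linarith [hB u]

/-- No direction in the base. -/
theorem QB_none {k : ℕ} {P : ℕ → Prop} {ys : Fin k → ℕ} (hen : EnA n P gs ys) {v : Fin c → ℝ}
    (h0 : ∀ u, gs u < n → v u = 0) (x : Fin c → ℤ) (u : Fin c) (hu : gs u < n) :
    QB n gs v x u = x u := by
  by_cases hex : ∃ p, v p ≠ 0 ∧ ∀ u, |v u| ≤ |v p|
  · obtain ⟨p₀, hp₀, -⟩ := hex
    obtain ⟨p, h1, h2, h3⟩ := QB_piv (n := n) (gs := gs) hp₀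
    have hup : u ≠ p := by
      intro h
      rw [← h] at h1
      exact h1 (h0 u hu)
    rw [h3, if_neg hup, h0 u hu, zero_div, zero_mul, sub_zero, Int.floor_intCast]
  · unfold QB
    rw [dif_neg hex, if_neg (by omega)]

end QB

section

variable {Ω σ τ ρ : Type} [Fintype Ω]

/-- The total digits from the digits modulo the vector. -/
theorem tdg_few {Q : Ω → ℝ} (hQ : IsLaw Q) {n c k r : ℕ} {P : ℕ → Prop} {gs : Fin c → ℕ}
    {ys : Fin k → ℕ} (hen : EnA n P gs ys) {S T : Type} {W : Ω → T} {vv : Ω → Fin c → ℝ}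
    (hv : ∀ ω ω', 0 < Q ω → 0 < Q ω' → W ω = W ω' → vv ω = vv ω') {κ : Ω → ℕ → ℝ}
    (hκ : ∀ ω ω', 0 < Q ω → 0 < Q ω' → W ω = W ω' → κ ω = κ ω') {p₀ : Fin c}
    {y : Ω → ℕ → ℝ}
    (h : ∀ ω, 0 < Q ω → vv ω p₀ ≠ 0 ∧ (∀ u, gs u < n → |vv ω u| ≤ |vv ω p₀|) ∧
      (∀ u, κ ω (gs u) = vv ω u / vv ω p₀) ∧ ∀ a, κ ω (ys a) = 0) :
    CH Q (fun ω => tdg n (gs p₀) r (κ ω) (y ω))
      (fun ω => ((QB n gs (vv ω) (gdA r gs y ω), gdA r ys y ω), W ω)) ≤
      (n + 1) * Real.log 23 := by
  have b1 := CH_pfam hQ.nonneg hQ.sum_one (fun ω => tdg n (gs p₀) r (κ ω) (y ω))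
    (fun ω => ((QB n gs (vv ω) (gdA r gs y ω), gdA r ys y ω), W ω)) (D := 11) (by norm_num) (by
      intro ω ω' hω hω' e l
      simp only [Prod.mk.injEq] at e
      obtain ⟨⟨e1, e2⟩, e3⟩ := e
      have hvv := hv ω ω' hω hω' e3
      have hκκ := hκ ω ω' hω hω' e3
      rw [← hvv] at e1
      rw [← hκκ]
      obtain ⟨k1, k2, k3, k4⟩ := h ω hω
      have p0 : (0 : ℝ) < 2 ^ r := by positivity
      unfold tdg
      by_cases hl : 1 ≤ (l : ℕ) ∧ (l : ℕ) ≠ gs p₀
      · rw [if_pos hl, if_pos hl]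
        have hln : (l : ℕ) ≤ n := by
          have := l.isLt
          omega
        by_cases hP : P l
        · -- in the group
          obtain ⟨p, hp0, hpm, hpe⟩ := QB_eq (n := n) (gs := gs) k1
          have hd := hpe _ _ e1
          have key : ∀ u : Fin c, |(2 : ℝ) ^ r * ((y ω (gs u) - vv ω u / vv ω p * y ω (gs p)) -
              (y ω' (gs u) - vv ω u / vv ω p * y ω' (gs p)))| ≤ 5 := by
            intro u
            obtain ⟨ν, hν⟩ : ∃ ν : ℝ, ν = vv ω u / vv ω p := ⟨_, rfl⟩
            have hν1 : |ν| ≤ 1 := by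
              rw [hν, abs_div, div_le_one (abs_pos.2 hp0)]
              exact hpm u
            have h1 := hd u
            rw [← hν] at h1 ⊢
            unfold gdA at h1
            have rnd : ∀ o : Ω, |(2 : ℝ) ^ r * (y o (gs u) - ν * y o (gs p)) -
                (((⌊(2 : ℝ) ^ r * y o (gs u)⌋ : ℤ) : ℝ) - ν *
                  ((⌊(2 : ℝ) ^ r * y o (gs p)⌋ : ℤ) : ℝ))| ≤ 2 := by
              intro o
              have f1 := Int.floor_le ((2 : ℝ) ^ r * y o (gs u))
              have f2 := Int.lt_floor_add_one ((2 : ℝ) ^ r * y o (gs u))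
              have f3 := Int.floor_le ((2 : ℝ) ^ r * y o (gs p))
              have f4 := Int.lt_floor_add_one ((2 : ℝ) ^ r * y o (gs p))
              have f5 : (2 : ℝ) ^ r * (y o (gs u) - ν * y o (gs p)) -
                (((⌊(2 : ℝ) ^ r * y o (gs u)⌋ : ℤ) : ℝ) - ν *
                  ((⌊(2 : ℝ) ^ r * y o (gs p)⌋ : ℤ) : ℝ)) =
                ((2 : ℝ) ^ r * y o (gs u) - ((⌊(2 : ℝ) ^ r * y o (gs u)⌋ : ℤ) : ℝ)) -
                ν * ((2 : ℝ) ^ r * y o (gs p) - ((⌊(2 : ℝ) ^ r * y o (gs p)⌋ : ℤ) : ℝ)) := by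
                ring
              rw [f5]
              refine (abs_sub _ _).trans ?_
              rw [abs_mul]
              have f6 : |(2 : ℝ) ^ r * y o (gs u) - ((⌊(2 : ℝ) ^ r * y o (gs u)⌋ : ℤ) : ℝ)| ≤
                  1 := by
                rw [abs_le]
                constructor <;> linarith
              have f7 : |(2 : ℝ) ^ r * y o (gs p) - ((⌊(2 : ℝ) ^ r * y o (gs p)⌋ : ℤ) : ℝ)| ≤
                  1 := by
                rw [abs_le]
                constructor <;> linarith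
              have f8 := mul_le_mul hν1 f7 (abs_nonneg _) zero_le_one
              linarith
            have r1 := rnd ω
            have r2 := rnd ω'
            rw [abs_le] at h1 r1 r2 ⊢
            rw [mul_sub]
            constructor <;> linarith [h1.1, h1.2, r1.1, r1.2, r2.1, r2.2]
          obtain ⟨u, hu⟩ := hen.go l hl.1 hln hP
          have ku := key u
          have kp := key p₀
          obtain ⟨κl, hκl⟩ : ∃ κl : ℝ, κl = κ ω l := ⟨_, rfl⟩
          have hκu : κl = vv ω u / vv ω p₀ := by rw [hκl, ← hu, k3]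
          obtain ⟨D, hD⟩ : ∃ D : ℝ, D = (2 : ℝ) ^ r * ((y ω (gs u) - vv ω u / vv ω p * y ω (gs p)) -
              (y ω' (gs u) - vv ω u / vv ω p * y ω' (gs p))) := ⟨_, rfl⟩
          obtain ⟨D0, hD0⟩ : ∃ D0 : ℝ, D0 = (2 : ℝ) ^ r * ((y ω (gs p₀) - vv ω p₀ / vv ω p *
              y ω (gs p)) - (y ω' (gs p₀) - vv ω p₀ / vv ω p * y ω' (gs p))) := ⟨_, rfl⟩
          rw [← hD] at ku
          rw [← hD0] at kp
          have e5 : (2 : ℝ) ^ r * ((y ω l - κl * y ω (gs p₀)) - (y ω' l - κl * y ω' (gs p₀))) =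
              D - κl * D0 := by
            rw [hD, hD0, hκu, ← hu]
            field_simp
            ring
          have e6 : |D - κl * D0| ≤ 5 + |κl| * 5 := by
            refine (abs_sub _ _).trans ?_
            rw [abs_mul]
            have := mul_le_mul_of_nonneg_left kp (abs_nonneg κl)
            linarith
          by_cases hn : (l : ℕ) = n
          · rw [if_pos hn, if_pos hn]
            rw [hn] at e5 hκl
            rw [← hκl]
            obtain ⟨m, hm⟩ : ∃ m : ℝ, m = max 1 |κl| := ⟨_, rfl⟩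
            have hm1 : 1 ≤ m := by
              rw [hm]
              exact le_max_left _ _
            have hm2 : |κl| ≤ m := by
              rw [hm]
              exact le_max_right _ _
            have hm0 : 0 < m := by linarith
            rw [← hm]
            refine (fl_dif _ _).trans ?_
            have e7 : (2 : ℝ) ^ r * ((y ω n - κl * y ω (gs p₀)) / m) -
                (2 : ℝ) ^ r * ((y ω' n - κl * y ω' (gs p₀)) / m) = (D - κl * D0) / m := by
              rw [← e5]
              field_simp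
              try ring
            rw [e7, abs_div, abs_of_pos hm0]
            have e8 : |D - κl * D0| / m ≤ 10 := by
              rw [div_le_iff₀ hm0]
              linarith
            linarith
          · rw [if_neg hn, if_neg hn, ← hκl]
            have hκ1 : |κl| ≤ 1 := by
              rw [hκu, abs_div, div_le_one (abs_pos.2 k1)]
              exact k2 u (by omega)
            refine (fl_dif _ _).trans ?_
            rw [← mul_sub, e5]
            linarith
        · -- another coordinate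
          have hlt : (l : ℕ) < n := by
            rcases Nat.lt_or_ge (l : ℕ) n with h9 | h9
            · exact h9
            · exfalso
              apply hP
              have : (l : ℕ) = n := by omega
              rw [this]
              exact hen.Pn
          obtain ⟨a, ha⟩ := hen.yo l hl.1 hlt hP
          have e4 := congrFun e2 a
          unfold gdA at e4
          rw [ha] at e4
          have e5 := k4 a
          rw [ha] at e5
          rw [if_neg (by omega : ¬ (l : ℕ) = n), if_neg (by omega : ¬ (l : ℕ) = n), e5, zero_mul,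
            zero_mul, sub_zero, sub_zero, e4, sub_self, abs_zero]
          norm_num
      · rw [if_neg hl, if_neg hl, sub_self, abs_zero]
        norm_num)
  rw [Fintype.card_fin] at b1
  have e9 : (2 : ℝ) * 11 + 1 = 23 := by norm_num
  rw [e9] at b1
  push_cast at b1
  exact b1

end

end Pool.TT5
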