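import Pool.Agent.H5.TT.Vaf
import Pool.Agent.H30.TC.CorS
import Pool.Agent.H48.TC.Chg

/-!
# The hypotheses of a call

`sid_of`: `Sid` at a column of places with affine frames.
-/

set_option autoImplicit false

namespace Pool.TT5

open Finset Real MvPolynomial Matrix
open Pool.Agent.H49.Ent Pool.Agent.H32.Dense Pool.STK Pool.STAT Pool.POT
open Pool.BFL (Pb)
open Pool.SLO (tup)
open Pool.TC
open Pool.TCO (rho)
open Pool.TC12 (YH hh yl Cy Shd)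
open Pool.AF37 (ChtAff)
open Pool.P4 (bb ze tq err)

/-- **The hypotheses of a call.** -/
theorem sid_of (hA : ChtAff) (n d K K' B c k0 k1 : ℕ) (C₁ C h x ϖ γ io io' δ : ℝ) (A : ℕ)
    (hn : 1 ≤ n) (hB : 1 ≤ B) (hC₁ : 1 ≤ C₁) (hC : 1 ≤ C) (hAA : 1 ≤ A) (hh : 0 < h) (hx : 0 < x)
    (hϖ : 0 < ϖ) (hγ : 0 < γ) (hio : 0 < io) (hio' : 0 < io') (hδ : 0 < δ) :
    ∃ (κ₀ e₀ : ℝ) (U₀ z₀ : ℕ), 0 < κ₀ ∧ 0 < e₀ ∧ ∀ N₁ : ℝ, 0 ≤ N₁ → ∃ X0 : ℕ,
    ∀ (D : NDat2) (Kn J a₀ w₀ z M w i₀ j r r2 r' r'' y a U d' Np : ℕ) (th : ℝ)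
      (lam gam : ℕ → ℝ) (κ ϖN δ₂ s : ℝ) (q : D.Ω → ℝ) (E : D.Ω → Prop)
      (P₀ : D.Γ × D.Γ → ℕ → PN) (i : ℕ → ℕ) (P : ℕ → D.Γ × D.Γ → ℕ → PN) (S : ℕ → Slo D)
      (ys : Fin (k0 + k1) → ℕ) (gs : Fin c → ℕ) (Tl : ℕ → Prop),
      z₀ ≤ z → U₀ ≤ U → X0 ≤ B * U * z → 0 < κ → κ ≤ κ₀ → 0 < ϖN → 2 * ϖN ≤ ϖ →
      (∀ m ≤ Np, Hyp D n d K K' J a₀ w₀ z M w (i m) j r r2 r' r'' y a (B * U * z) th lam gam κ C₁ C
        q E (P m) (S m) ys gs) →
      D.Strt → D.Slp n J z M q →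
      (∀ m ≤ Np, YH D n d' K J a₀ w₀ z M i₀ (i m) j r lam gam κ C₁ C q E P₀ ∧
        Shd D n i₀ (i m) j r q E P₀ (P m)) →
      (∀ m ≤ Np, ∀ x l, (P m x l).totalDegree ≤ 1) →
      D.NF n z M B gam h C₁ ϖN q → 1 ≤ Kn → D.NFt Tl n J w₀ z M Kn C₁ κ q →
      (∀ l, 1 ≤ l → l < n → (th ≤ gam l ↔ Tl l)) → (∀ m ≤ Np, i m + 2 * (B * U) ≤ M) →
      j + 2 * (B * U) ≤ M → (U : ℝ) ≤ gam n * (M - j) → Pb q (fun ω => ¬ E ω) ≤ e₀ →
      (∀ (Λ : Type) (L : D.Ω → Λ), (∀ ω ω', 0 < q ω → 0 < q ω' →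
          D.wn J w ω = D.wn J w ω' → L ω = L ω') →
        Pb (tup q L 1) (fun v => |(((tq J w (B * U * z) (D.T (v 0)) : ℤ) -
          tq J w (B * U * z) (D.T (v 1)) : ℤ) : ℝ)| ≤ s * 2 ^ (B * U * z)) ≤ δ₂) →
      (∀ m m', m < m' → m' ≤ Np → i m ≤ i m' ∧ ∀ ω u k, (S m').S ω u k =
        rho (D.g (i m) j) (D.g (i m') j) u / rho (D.g (i m) j) (D.g (i m') j) k *
          (S m).S ω u k) →
      Sid D n d J w z j r M (B * U * z) Np th gam C q E i P S ys gs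
        (fun m => visQ D n (i m) j (yl D i₀ (i m) j r P₀ q E) J w (B * U * z) ys gs)
        (fun _ => id) A N₁ γ δ δ₂ io io' (h / (2 * B)) x ϖ s := by
  have hAR : (1 : ℝ) ≤ A := by exact_mod_cast hAA
  obtain ⟨κ₁, U₁, z₁, hκ₁, HV⟩ := visF_aff hA n d K K' B c k0 k1 C₁ C h x ϖ γ io (A * δ) hn hB hC₁
    hC hh hx hϖ hγ hio (by positivity)
  obtain ⟨Ae, hAe, HE⟩ := ent_cnd h0_stmt Pool.TC.h2 Pool.TC97.yf_stmt Pool.TC97.lf_stmt tf_stmt
    n d K K' c k0 k1 C₁ C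
  obtain ⟨U₂, hU₂⟩ := pw_ge (g := γ) (a := 4 * C₁) (A := 2) hγ (by linarith) (by norm_num)
  obtain ⟨U₃, hU₃⟩ := exists_nat_ge (4 * Ae / io')
  refine ⟨min κ₁ 1, io' / (2 * (Ae + 1)), U₁ + U₂ + U₃, z₁ + 1, lt_min hκ₁ one_pos,
    by positivity, fun N₁ hN₁ => ?_⟩
  obtain ⟨X0, HV⟩ := HV N₁ hN₁
  refine ⟨X0, ?_⟩
  intro D Kn J a₀ w₀ z M w i₀ j r r2 r' r'' y a U d' Np th lam gam κ ϖN δ₂ s q E P₀ i P S ys gs Tl
    hz hU hX hκ hκκ hϖN hϖϖ hH hSt hSl hYS hdeg hNF hKn hNFt hTl hi hj hUg hE htm hS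
  have hz1 : 1 ≤ z := by omega
  have hzR : (1 : ℝ) ≤ z := by exact_mod_cast hz1
  have hκ1 : κ ≤ κ₁ := hκκ.trans (min_le_left _ _)
  have hκ2 : κ ≤ 1 := hκκ.trans (min_le_right _ _)
  have hUX : U * z ≤ B * U * z := by
    calc U * z = 1 * (U * z) := (one_mul _).symm
      _ ≤ B * (U * z) := Nat.mul_le_mul_right _ hB
      _ = B * U * z := (mul_assoc _ _ _).symm
  have hUXR : (U : ℝ) * z ≤ ((B * U * z : ℕ) : ℝ) := by exact_mod_cast hUX
  have hX0 : (0 : ℝ) ≤ ((B * U * z : ℕ) : ℝ) := Nat.cast_nonneg _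
  refine ⟨?_, htm, ?_, fun m _ _ _ _ _ e => e, ?_⟩
  · -- the entropies
    intro m hm G hG
    have e1 := HE D J a₀ w₀ z M w (i m) j r r2 r' r'' y a (B * U * z) th lam gam κ q E (P m) (S m)
      ys gs (hH m hm) G hG
    have hb := (hH m hm).b0
    have e2 : err Ae κ z (B * U * z) (Pb q (fun ω => ¬ E ω)) ≤ io' * (B * U * z : ℕ) := by
      unfold err
      have f1 : Ae * ((1 + κ) * z) ≤ io' / 2 * (B * U * z : ℕ) := by
        have g1 : 4 * Ae / io' ≤ U := hU₃.trans (by exact_mod_cast (by omega : U₃ ≤ U))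
        rw [div_le_iff₀ hio'] at g1
        have g2 : Ae * ((1 + κ) * z) ≤ Ae * (2 * z) :=
          mul_le_mul_of_nonneg_left (mul_le_mul_of_nonneg_right (by linarith) (by linarith)) hAe
        have g3 : Ae * (2 * z) ≤ io' / 2 * (U * z) := by
          have := mul_le_mul_of_nonneg_right g1 (by linarith : (0 : ℝ) ≤ z)
          nlinarith
        have g4 : io' / 2 * ((U : ℝ) * z) ≤ io' / 2 * (B * U * z : ℕ) :=
          mul_le_mul_of_nonneg_left hUXR (by positivity)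
        linarith
      have f2 : Ae * (((B * U * z : ℕ) : ℝ) * Pb q (fun ω => ¬ E ω)) ≤
          io' / 2 * (B * U * z : ℕ) := by
        have g1 : Ae * Pb q (fun ω => ¬ E ω) ≤ io' / 2 := by
          have g2 := mul_le_mul_of_nonneg_left hE (by linarith : (0 : ℝ) ≤ Ae + 1)
          have g3 : (Ae + 1) * (io' / (2 * (Ae + 1))) = io' / 2 := by
            field_simp
          rw [g3] at g2
          linarith
        have g2 := mul_le_mul_of_nonneg_right g1 hX0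
        linarith
      have f3 : Ae * ((1 + κ) * z + ((B * U * z : ℕ) : ℝ) * Pb q (fun ω => ¬ E ω)) =
          Ae * ((1 + κ) * z) + Ae * (((B * U * z : ℕ) : ℝ) * Pb q (fun ω => ¬ E ω)) := by ring
      rw [f3]
      linarith
    exact
      { law := e1.law
        h0 := e1.h0.trans (by linarith)
        h2 := e1.h2.trans (by linarith)
        lf := e1.lf.trans (by linarith)
        yf := e1.yf.trans (by linarith)
        tf := e1.tf.trans (by linarith) }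
  · -- the change
    intro m m' hmm hm'
    obtain ⟨ii, hSS⟩ := hS m m' hmm hm'
    have H1 := hH m (by omega)
    have H2 := hH m' hm'
    have f1 := hU₂ z U (B * U * z) hz1 (by omega) hUX
    have f0 : exp (2 * C₁ * z) ≤ exp (4 * C₁ * z) := by
      refine Real.exp_le_exp.2 ?_
      have : 0 ≤ C₁ * (z : ℝ) := by positivity
      linarith
    have f2 : 1 ≤ exp (4 * C₁ * z) := Real.one_le_exp (by positivity)
    have f3 : exp (2 * C₁ * z) ≤ 2 ^ (γ * ((B * U * z : ℕ) : ℝ)) := by linarith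
    refine ⟨Mc D z (i m) (i m') j gs, fun b => 1 / scl D z (i m) (i m') j (ys b), Mc_det _ _ _ _ _ _,
      fun u v => (Mc_bd H1 H2 ii u v).trans f3, fun u v => (Mc_ibd H1 H2 ii u v).trans f3,
      fun b => (pc_bd H1 H2 ii b).trans f3, ?_⟩
    intro ω _ _ b u
    refine (chg_mul H1 H2 ii hSS ω u b).trans ?_
    refine div_le_div_of_nonneg_right ?_ (by positivity)
    linarith
  · -- the visible side
    intro m hm
    obtain ⟨HY, hSh⟩ := hYS m hm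
    exact HV D Kn J a₀ w₀ z M w i₀ (i m) j r r2 r' r'' y a U d' th lam gam κ ϖN q E P₀ (P m) (S m) ys
      gs Tl (by omega) (by omega) hX hκ hκ1 hϖN hϖϖ (hH m hm) hSt hSl HY hSh (hdeg m hm) hNF hKn
      hNFt hTl (hi m hm) hj hUg

end Pool.TT5
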