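import Pool.Agent.H5.TT.Pcs

/-!
# All digits modulo a direction, at the level of a law

`y l`, `1 ≤ l ≤ n`: real numbers in `[-1, 1]`, `δ`: a direction which is a function of the condition
`W`. `NtA`: the pivot `k < n`, the component of the target is at most `t` digits larger. `NtB`: the
pivot `p ≤ n`, the components outside of `P` are `s` digits smaller. `abs_piv`: the digits modulo the
direction are full, from the rows of the target modulo the direction and the fullness of the base.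
-/

set_option autoImplicit false

namespace Pool.TT5

open Finset Real
open Pool.Agent.H49.Ent Pool.Agent.H32.Dense Pool.STK Pool.KA Pool.KSAT Pool.K2S

/-- The pivot `k` in the base. -/
def NtA (n k t : ℕ) (v : ℕ → ℝ) : Prop :=
  v k ≠ 0 ∧ (∀ l, 1 ≤ l → l < n → |v l| ≤ |v k|) ∧ |v n| ≤ |v k| * 2 ^ t

/-- The pivot `p`; the components outside of `P` are `s` digits smaller. -/
def NtB (n p : ℕ) (P : ℕ → Prop) (s : ℕ) (v : ℕ → ℝ) : Prop :=
  v p ≠ 0 ∧ (∀ l, 1 ≤ l → l ≤ n → |v l| ≤ |v p|) ∧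
    ∀ l, 1 ≤ l → l < n → ¬ P l → |v l| * 2 ^ s ≤ |v p|

section

variable {Ω τ : Type} [Fintype Ω]

/-- The row of the target modulo the direction `δ` with the pivot `k`, `r` digits. -/
noncomputable def rwd (n k r : ℕ) (W : Ω → τ) (δ : τ → ℕ → ℝ) (y : Ω → ℕ → ℝ) (ω : Ω) : ℤ :=
  ⌊(2 : ℝ) ^ r * (y ω n - δ (W ω) n / δ (W ω) k * y ω k)⌋

/-- All digits modulo the direction with the pivot `p`. -/
noncomputable def hmd (n p r : ℕ) (W : Ω → τ) (δ : τ → ℕ → ℝ) (y : Ω → ℕ → ℝ) (ω : Ω)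
    (l : Fin (n + 1)) : ℤ :=
  if 1 ≤ (l : ℕ) ∧ (l : ℕ) ≠ p then
    ⌊(2 : ℝ) ^ r * (y ω l - δ (W ω) l / δ (W ω) p * y ω p)⌋ else 0

/-- Fullness of the base on large events. -/
def FulB (q : Ω → ℝ) (n r : ℕ) (W : Ω → τ) (y : Ω → ℕ → ℝ) (a ϖ : ℝ) : Prop :=
  ∀ E : Ω → Prop, ϖ ≤ Pe q E → a ≤ CH (cond q E True) (rdg n r y) W

/-- The rows of the target modulo the direction. -/
def RwN (q : Ω → ℝ) (n U z : ℕ) (P : ℕ → Prop) (W : Ω → τ) (δ : τ → ℕ → ℝ) (y : Ω → ℕ → ℝ)
    (x C ϖ : ℝ) : Prop :=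
  ∀ k, 1 ≤ k → k < n → P k → ∀ t ≤ U, ∀ E : Ω → Prop, ϖ ≤ Pe q E →
    (∀ ω, E ω → NtA n k (t * z) (δ (W ω))) →
    (1 - x) * (((U - t : ℕ) : ℝ) * z) * Real.log 2 - C * z ≤
      CH (cond q E True) (rwd n k ((U - t) * z) W δ y)
        (fun ω => (rwd n k 0 W δ y ω,
          (rbg n k (U * z) W (fun w l => δ w l / δ w k) y ω, W ω)))

/-- **All digits modulo the direction are full.** -/
theorem abs_piv (n : ℕ) (x C Cb : ℝ) (hn : 1 ≤ n) (hx : 0 < x) (hC : 0 ≤ C) (hCb : 0 ≤ Cb) (M : ℕ)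
    (ϖ : ℝ) (hϖ : 0 < ϖ) : ∃ (ϖ' : ℝ) (z₀ : ℕ), 0 < ϖ' ∧
    ∀ (Ω τ : Type) [Fintype Ω] (q : Ω → ℝ), IsLaw q → ∀ (z U : ℕ), z₀ ≤ z → U ≤ M →
      ∀ (P : ℕ → Prop) (W : Ω → τ) (y : Ω → ℕ → ℝ) (δ : τ → ℕ → ℝ),
      (∀ ω, 0 < q ω → ∀ l, 1 ≤ l → l ≤ n → |y ω l| ≤ 1) →
      FulB q n (U * z) W y (((n : ℝ) - 1) * (U * z) * Real.log 2 - Cb * z) ϖ' →
      RwN q n U z P W δ y (x / 2) C ϖ' →
      ∀ p, 1 ≤ p → p ≤ n → (p < n → P p) → ∀ E : Ω → Prop, ϖ ≤ Pe q E →
      (∀ ω, E ω → NtB n p P (U * z) (δ (W ω))) →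
      ((n : ℝ) - 1 - x) * (U * z) * Real.log 2 - (C + Cb + 2) * z ≤
        CH (cond q E True) (hmd n p (U * z) W δ y) W := by
  classical
  have hnR : (1 : ℝ) ≤ n := by exact_mod_cast hn
  have hn0 : (0 : ℝ) < n := by linarith
  obtain ⟨ζ, hζ⟩ : ∃ ζ : ℝ, ζ = x / (2 * n) := ⟨_, rfl⟩
  have hζ0 : 0 < ζ := by
    rw [hζ]
    positivity
  obtain ⟨ϖ', hϖ'⟩ : ∃ ϖ' : ℝ, ϖ' = min ϖ (ζ * ϖ / (n * M + 1)) := ⟨_, rfl⟩
  have hϖ'0 : 0 < ϖ' := by
    rw [hϖ']
    exact lt_min hϖ (by positivity)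
  have hϖ'1 : ϖ' ≤ ϖ := by
    rw [hϖ']
    exact min_le_left _ _
  have hϖ'2 : ((n * M + 1 : ℕ) : ℝ) * ϖ' ≤ ζ * ϖ := by
    have h1 : ϖ' ≤ ζ * ϖ / (n * M + 1) := by
      rw [hϖ']
      exact min_le_right _ _
    rw [le_div_iff₀ (by positivity)] at h1
    push_cast
    linarith
  obtain ⟨c₀, hc₀⟩ : ∃ c₀ : ℝ, c₀ = 2 * (n * Real.log 7 + Real.log 5) + 3 * Real.log 9 +
      n * Real.log 9 + Real.log 7 := ⟨_, rfl⟩
  have l5 : 0 ≤ Real.log 5 := Real.log_nonneg (by norm_num)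
  have l7 : 0 ≤ Real.log 7 := Real.log_nonneg (by norm_num)
  have l9 : 0 ≤ Real.log 9 := Real.log_nonneg (by norm_num)
  have hl0 : 0 < Real.log 2 := Real.log_pos (by norm_num)
  have hl1 : Real.log 2 ≤ 1 := by linarith [Real.log_two_lt_d9]
  have hc₀0 : 0 ≤ c₀ := by
    rw [hc₀]
    positivity
  obtain ⟨z₂, hz₂⟩ := exists_nat_ge c₀
  refine ⟨ϖ', z₂, hϖ'0, ?_⟩
  intro Ω τ _ q hq z U hz hUM P W y δ hy hF hN p hp1 hpn hPp E hE' hnt
  have hzr2 : (z₂ : ℝ) ≤ z := by exact_mod_cast hz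
  have hzc : c₀ ≤ z := hz₂.trans hzr2
  have hz0 : (0 : ℝ) ≤ z := Nat.cast_nonneg z
  have hU0 : (0 : ℝ) ≤ U := Nat.cast_nonneg U
  have hUz : (0 : ℝ) ≤ U * z := by positivity
  have hUzl : 0 ≤ x * ((U * z) * Real.log 2) := by positivity
  have hCz : 0 ≤ C * z := by positivity
  have hCbz : 0 ≤ Cb * z := by positivity
  have hnl7 : 0 ≤ (n : ℝ) * Real.log 7 := by positivity
  have hnl9 : 0 ≤ (n : ℝ) * Real.log 9 := by positivity
  rcases Nat.eq_or_lt_of_le hpn with hp | hp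
  · -- the pivot is the target
    subst hp
    obtain ⟨L, hL⟩ : ∃ L : ℝ, L = ((p : ℝ) - 1 - x / 2) * (U * z) * Real.log 2 -
        (C + Cb + 2) * z := ⟨_, rfl⟩
    have key : ∀ ω, E ω → ∀ l, 1 ≤ l → l < p → |δ (W ω) l / δ (W ω) p| ≤ 1 := by
      intro ω hEω l h1 h2
      obtain ⟨k1, k2, k3⟩ := hnt ω hEω
      rw [abs_div, div_le_one (abs_pos.2 k1)]
      exact k2 l h1 h2.le
    have h1 := core_n (n := p) (U := U) (z := z) hq (P := P) (E := E)
      (ϖ := ϖ) (ϖ' := ϖ') hϖ hϖ'0.le hE' W y hy (fun w l => δ w l / δ w p)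
      (fun ω hω hEω l h1 h2 => key ω hEω l h1 h2)
      (fun ω hω hEω l h1 h2 h3 => by
        obtain ⟨k1, k2, k3⟩ := hnt ω hEω
        have h4 := k3 l h1 h2 h3
        rw [abs_div, div_le_div_iff₀ (abs_pos.2 k1) (by positivity)]
        linarith)
      (X := hmd p p (U * z) W δ y)
      (fun ω hω hEω l h1 h2 => by
        unfold hmd
        rw [if_pos ⟨h1, by simp only; omega⟩])
      (a := ((p : ℝ) - 1) * (U * z) * Real.log 2 - Cb * z) (L := L)
      (B := p * (U * z) * Real.log 2) (ζ := ζ)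
      (b := fun t => (1 - x / 2) * (((U - t : ℕ) : ℝ) * z) * Real.log 2 - C * z)
      (fun E' h1 _ => hF E' h1)
      (fun k hk1 hkn hkP t ht1 htU E' h1 h2 h3 h4 => by
        have h5 := hN k hk1 hkn hkP t htU E' h1 (by
          intro ω hω
          obtain ⟨k1, k2, k3⟩ := hnt ω (h3 ω hω)
          obtain ⟨m1, m2, m3, m4⟩ := h4 ω hω
          have hδp : 0 < |δ (W ω) p| := abs_pos.2 k1
          have f1 : ∀ l, |δ (W ω) l / δ (W ω) p| * |δ (W ω) p| = |δ (W ω) l| := by
            intro l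
            rw [abs_div]
            field_simp
          refine ⟨?_, fun l g1 g2 => ?_, ?_⟩
          · intro h6
            apply m1
            simp only [h6, zero_div]
          · rw [← f1 l, ← f1 k]
            exact mul_le_mul_of_nonneg_right (m4 l g1 g2) hδp.le
          · rw [← f1 k]
            rw [div_le_iff₀ (by positivity)] at m2
            nlinarith)
        refine h5.trans ?_
        have hq0 : ∀ ω, 0 ≤ cond q E' True ω := (isLaw_cond hq h2).nonneg
        have hpE : ∀ ω, 0 < cond q E' True ω → E' ω := fun ω hω =>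
          of_eq_true ((cond_pos_iff hq.nonneg E' True ω).1 hω).2
        have e0 : ∀ ω, E' ω → ∀ l, δ (W ω) l / δ (W ω) k =
            (δ (W ω) l / δ (W ω) p) / (δ (W ω) k / δ (W ω) p) := by
          intro ω hω l
          obtain ⟨k1, k2, k3⟩ := hnt ω (h3 ω hω)
          obtain ⟨m1, m2, m3, m4⟩ := h4 ω hω
          have g7 : δ (W ω) k ≠ 0 := by
            intro h6
            apply m1
            simp only [h6, zero_div]
          field_simp
        have e1 : ∀ (r : ℕ) (ω : Ω), E' ω → rwd p k r W δ y ω = ⌊(2 : ℝ) ^ r *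
            (y ω p - 1 / (δ (W ω) k / δ (W ω) p) * y ω k)⌋ := by
          intro r ω hω
          unfold rwd
          rw [e0 ω hω p]
          obtain ⟨k1, k2, k3⟩ := hnt ω (h3 ω hω)
          rw [div_self k1]
        refine le_trans (CH_mono_cond hq0 (W := fun ω => (⌊(2 : ℝ) ^ 0 * (y ω p -
          1 / (δ (W ω) k / δ (W ω) p) * y ω k)⌋, (rbg p k (U * z) W
            (fun w l => (δ w l / δ w p) / (δ w k / δ w p)) y ω, W ω))) ?_) ?_
        · intro ω ω' hω hω' h
          simp only [Prod.mk.injEq] at h ⊢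
          obtain ⟨g1, g2, g3⟩ := h
          refine ⟨?_, ?_, g3⟩
          · rw [← e1 0 ω (hpE ω hω), ← e1 0 ω' (hpE ω' hω'), g1]
          · have g5 : ∀ ω, E' ω → rbg p k (U * z) W
                (fun w l => δ w l / δ w k) y ω = rbg p k (U * z) W
                (fun w l => (δ w l / δ w p) / (δ w k / δ w p)) y ω := by
              intro ω hω
              funext l
              unfold rbg
              simp only [e0 ω hω (l : ℕ)]
            rw [← g5 ω (hpE ω hω), ← g5 ω' (hpE ω' hω'), g2]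
        · refine CH_mono_left hq0 ?_
          intro ω ω' hω hω' h
          simp only [Prod.mk.injEq] at h
          have e2 : (U - t) * z = U * z - t * z := Nat.sub_mul U t z
          rw [e1 _ ω (hpE ω hω), e1 _ ω' (hpE ω' hω'), e2]
          exact h.1)
      (by
        rw [hL]
        have h9 : (p : ℝ) * Real.log 9 ≤ c₀ := by
          rw [hc₀]
          linarith
        nlinarith)
      (fun t ht1 htU => by
        rw [hL]
        have e1 : (((t - 1) * z : ℕ) : ℝ) = ((t : ℝ) - 1) * z := by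
          rw [Nat.cast_mul, Nat.cast_sub ht1, Nat.cast_one]
        have e2 : ((U - t : ℕ) : ℝ) = (U : ℝ) - t := Nat.cast_sub htU
        rw [e1, e2]
        push_cast
        have h9 : 2 * ((p : ℝ) * Real.log 7 + Real.log 5) + 3 * Real.log 9 ≤ c₀ := by
          rw [hc₀]
          linarith
        have h10 : 0 ≤ x / 2 * (t * z) * Real.log 2 := by positivity
        have h11 : z * Real.log 2 ≤ z := by nlinarith
        linarith)
      (by
        rw [hL]
        have : 0 ≤ (C + Cb + 2) * z := by positivity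
        nlinarith) (by positivity)
      (by
        refine le_trans (mul_le_mul_of_nonneg_right ?_ hϖ'0.le) hϖ'2
        exact_mod_cast Nat.succ_le_succ (Nat.mul_le_mul_left p hUM))
    refine le_trans (le_of_eq ?_) h1
    rw [hL, hζ]
    field_simp
    ring
  · -- the pivot is in the base
    have h1 := hN p hp1 hp (hPp hp) 0 (Nat.zero_le U) E (hϖ'1.trans hE') (by
      intro ω hω
      obtain ⟨k1, k2, k3⟩ := hnt ω hω
      refine ⟨k1, fun l h1 h2 => k2 l h1 h2.le, ?_⟩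
      rw [zero_mul, pow_zero, mul_one]
      exact k2 n hn le_rfl)
    have hE0 : 0 < Pe q E := hϖ.trans_le hE'
    have hlaw := isLaw_cond hq hE0
    have hpE : ∀ ω, 0 < cond q E True ω → 0 < q ω ∧ E ω := fun ω hω =>
      ⟨((cond_pos_iff hq.nonneg E True ω).1 hω).1,
        of_eq_true ((cond_pos_iff hq.nonneg E True ω).1 hω).2⟩
    have h2 := rotA hlaw.nonneg hlaw.sum_one (n := n) (k := p) (r := U * z) (W := W)
      (y := y) (ν := fun w l => δ w l / δ w p) (Z := rwd n p ((U - 0) * z) W δ y)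
      (Z0 := rwd n p 0 W δ y) hp1 hp
      (fun ω hω => hy ω (hpE ω hω).1 p hp1 hp.le)
      (fun ω hω l h1 h2 => by
        obtain ⟨k1, k2, k3⟩ := hnt ω (hpE ω hω).2
        rw [abs_div, div_le_one (abs_pos.2 k1)]
        exact k2 l h1 h2.le)
      (hF E (hϖ'1.trans hE')) h1
    have h3 : CH (cond q E True) (fun ω => (rwd n p ((U - 0) * z) W δ y ω,
        rbg n p (U * z) W (fun w l => δ w l / δ w p) y ω)) W ≤
        CH (cond q E True) (hmd n p (U * z) W δ y) W := by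
      refine CH_mono_left hlaw.nonneg ?_
      intro ω ω' hω hω' h
      simp only [Prod.mk.injEq] at h ⊢
      have g1 := h.1
      constructor
      · have g2 := congrFun g1 ⟨n, by omega⟩
        unfold hmd at g2
        rw [if_pos ⟨hn, by simp only; omega⟩, if_pos ⟨hn, by simp only; omega⟩] at g2
        exact g2
      · funext l
        have g2 := congrFun g1 ⟨(l : ℕ), by omega⟩
        unfold hmd at g2
        unfold rbg
        by_cases hl : 1 ≤ (l : ℕ) ∧ (l : ℕ) ≠ p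
        · rw [if_pos hl, if_pos hl] at g2
          rw [if_pos hl, if_pos hl]
          exact g2
        · rw [if_neg hl, if_neg hl]
    refine le_trans ?_ (h2.trans h3)
    rw [Nat.sub_zero]
    push_cast
    have h9 : (n : ℝ) * Real.log 7 + Real.log 5 + Real.log 7 ≤ c₀ := by
      rw [hc₀]
      linarith
    have h11 : z * Real.log 2 ≤ z := by nlinarith
    linarith

end

end Pool.TT5
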