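import Pool.Agent.H5.TT.Abs
import Pool.Agent.H7.MIC.Ind

/-!
# The digits of the group modulo a direction are full given the slow coordinates

`gs`: the coordinates in `P` (the group, with the target), `ys`: the others. `QA`: the digits of the
group modulo the direction `v`, as a function of the digits of the group; the pivot is a function of
`v`; if there is no natural pivot, the digits of the base. `abs_all`: these are full given the digits
of the other coordinates and the condition, on all large events.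
-/

set_option autoImplicit false

namespace Pool.TT5

open Finset Real
open Pool.Agent.H49.Ent Pool.Agent.H32.Dense Pool.STK Pool.KA Pool.KSAT Pool.K2S
open Pool.MIC7 (log_icc)

/-- The enumerations of the group and of the other coordinates. -/
structure EnA {c k : ℕ} (n : ℕ) (P : ℕ → Prop) (gs : Fin c → ℕ) (ys : Fin k → ℕ) : Prop where
  Pn : P n
  gi : Function.Injective gs
  g1 : ∀ u, 1 ≤ gs u ∧ gs u ≤ n ∧ P (gs u)
  go : ∀ l, 1 ≤ l → l ≤ n → P l → ∃ u, gs u = l
  yi : Function.Injective ys
  y1 : ∀ a, 1 ≤ ys a ∧ ys a < n ∧ ¬ P (ys a)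
  yo : ∀ l, 1 ≤ l → l < n → ¬ P l → ∃ a, ys a = l

theorem EnA.card {c k n : ℕ} {P : ℕ → Prop} {gs : Fin c → ℕ} {ys : Fin k → ℕ}
    (h : EnA n P gs ys) : c + k = n := by
  classical
  have e : Function.Bijective (fun v : Fin c ⊕ Fin k => (Sum.elim
      (fun u => (⟨gs u - 1, by have := h.g1 u; omega⟩ : Fin n))
      (fun a => (⟨ys a - 1, by have := h.y1 a; omega⟩ : Fin n)) v)) := by
    constructor
    · rintro (u | a) (u' | a') he
      · simp only [Sum.elim_inl, Fin.mk.injEq] at he
        have h1 := h.g1 u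
        have h2 := h.g1 u'
        rw [h.gi (by omega : gs u = gs u')]
      · simp only [Sum.elim_inl, Sum.elim_inr, Fin.mk.injEq] at he
        have h1 := h.g1 u
        have h2 := h.y1 a'
        have h3 : gs u = ys a' := by omega
        rw [h3] at h1
        exact absurd h1.2.2 h2.2.2
      · simp only [Sum.elim_inl, Sum.elim_inr, Fin.mk.injEq] at he
        have h1 := h.g1 u'
        have h2 := h.y1 a
        have h3 : gs u' = ys a := by omega
        rw [h3] at h1
        exact absurd h1.2.2 h2.2.2
      · simp only [Sum.elim_inr, Fin.mk.injEq] at he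
        have h1 := h.y1 a
        have h2 := h.y1 a'
        rw [h.yi (by omega : ys a = ys a')]
    · intro l
      by_cases hl : P ((l : ℕ) + 1)
      · obtain ⟨u, hu⟩ := h.go ((l : ℕ) + 1) (by omega) (by have := l.isLt; omega) hl
        refine ⟨Sum.inl u, ?_⟩
        simp only [Sum.elim_inl]
        apply Fin.ext
        simp only [hu]
        omega
      · have hln : (l : ℕ) + 1 < n := by
          rcases Nat.lt_or_ge ((l : ℕ) + 1) n with h1 | h1
          · exact h1
          · exfalso
            apply hl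
            have : (l : ℕ) + 1 = n := by
              have := l.isLt
              omega
            rw [this]
            exact h.Pn
        obtain ⟨a, ha⟩ := h.yo ((l : ℕ) + 1) (by omega) hln hl
        refine ⟨Sum.inr a, ?_⟩
        simp only [Sum.elim_inr]
        apply Fin.ext
        simp only [ha]
        omega
  have h1 := Fintype.card_of_bijective e
  rw [Fintype.card_sum, Fintype.card_fin, Fintype.card_fin, Fintype.card_fin] at h1
  exact h1

open Classical in
/-- The pivot of a direction in the group. -/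
noncomputable def pvA {c : ℕ} (n : ℕ) (P : ℕ → Prop) (gs : Fin c → ℕ) (s : ℕ) (v : ℕ → ℝ) :
    Option (Fin c) :=
  if h : ∃ u, NtB n (gs u) P s v then some h.choose else none

theorem pvA_some {c n : ℕ} {P : ℕ → Prop} {gs : Fin c → ℕ} {s : ℕ} {v : ℕ → ℝ} {u : Fin c}
    (h : pvA n P gs s v = some u) : NtB n (gs u) P s v := by
  unfold pvA at h
  split_ifs at h with h1
  rw [Option.some_inj] at h
  rw [← h]
  exact h1.choose_spec

/-- The digits of the group modulo the direction `v`; if there is no pivot, those of the base. -/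
noncomputable def QA {c : ℕ} (n : ℕ) (P : ℕ → Prop) (gs : Fin c → ℕ) (s : ℕ) (v : ℕ → ℝ)
    (x : Fin c → ℤ) (u : Fin c) : ℤ :=
  match pvA n P gs s v with
  | none => if gs u = n then 0 else x u
  | some p => if u = p then 0 else ⌊(x u : ℝ) - v (gs u) / v (gs p) * x p⌋

section

variable {Ω τ : Type} [Fintype Ω]

/-- The digits of the coordinates `gs`. -/
noncomputable def gdA {c : ℕ} (X : ℕ) (gs : Fin c → ℕ) (y : Ω → ℕ → ℝ) (ω : Ω) (u : Fin c) : ℤ :=
  ⌊(2 : ℝ) ^ X * y ω (gs u)⌋

theorem fl_icc {X : ℕ} {y : ℝ} (h : |y| ≤ 1) :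
    ⌊(2 : ℝ) ^ X * y⌋ ∈ Finset.Icc (-((2 : ℤ) ^ X)) (2 ^ X) := by
  have p0 : (0 : ℝ) < 2 ^ X := by positivity
  obtain ⟨h1, h2⟩ := abs_le.1 h
  rw [Finset.mem_Icc]
  constructor
  · rw [Int.le_floor]
    push_cast
    nlinarith
  · have h3 : (⌊(2 : ℝ) ^ X * y⌋ : ℝ) ≤ (((2 : ℤ) ^ X : ℤ) : ℝ) := by
      refine (Int.floor_le _).trans ?_
      push_cast
      nlinarith
    exact_mod_cast h3

/-- The other coordinates are counted. -/
theorem gdA_le {c : ℕ} (X : ℕ) (gs : Fin c → ℕ) {y : Ω → ℕ → ℝ} {Q : Ω → ℝ} (hQ : IsLaw Q)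
    (hy : ∀ ω, 0 < Q ω → ∀ u, |y ω (gs u)| ≤ 1) (W : Ω → τ) :
    CH Q (gdA X gs y) W ≤ c * ((X + 2) * Real.log 2) := by
  classical
  refine (CH_psum hQ.nonneg (gdA X gs y) W).trans ?_
  have h1 : ∀ l ∈ (univ : Finset (Fin c)),
      CH Q (fun ω => gdA X gs y ω l) W ≤ (X + 2) * Real.log 2 := by
    intro l _
    have h2 := CH_le_card hQ.nonneg hQ.sum_one (fun ω => gdA X gs y ω l) W
      (fun _ => Finset.Icc (-((2 : ℤ) ^ X)) (2 ^ X)) (fun ω hω => by
        unfold gdA
        exact fl_icc (hy ω hω l))
    rw [Ex_const hQ.sum_one] at h2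
    exact h2.trans (log_icc X)
  refine (Finset.sum_le_sum h1).trans (le_of_eq ?_)
  rw [Finset.sum_const, Finset.card_univ, Fintype.card_fin, nsmul_eq_mul]

/-- From the pair to the condition. -/
theorem to_cnd {S T V : Type} {Q : Ω → ℝ} (hQ : IsLaw Q) (A : Ω → S) (B : Ω → T) (R : Ω → V)
    (W : Ω → τ) {a e b : ℝ} (ha : a ≤ CH Q A W) (he : CH Q A (fun ω => ((B ω, R ω), W ω)) ≤ e)
    (hb : CH Q R W ≤ b) : a - e - b ≤ CH Q B (fun ω => (R ω, W ω)) := by
  have h1 := CH_le_add hQ.nonneg A (fun ω => (B ω, R ω)) W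
  have h2 := CH_chain hQ.nonneg B R W
  linarith

end

/-- **The digits of the group modulo the direction are full.** -/
theorem abs_all (n : ℕ) (x C Cb : ℝ) (hn : 1 ≤ n) (hx : 0 < x) (hC : 0 ≤ C) (hCb : 0 ≤ Cb) (M : ℕ)
    (ϖ : ℝ) (hϖ : 0 < ϖ) : ∃ (ϖ' : ℝ) (z₀ : ℕ), 0 < ϖ' ∧
    ∀ (Ω τ : Type) [Fintype Ω] (q : Ω → ℝ), IsLaw q → ∀ (z U : ℕ), z₀ ≤ z → U ≤ M →
      ∀ (P : ℕ → Prop) (W : Ω → τ) (y : Ω → ℕ → ℝ) (δ : τ → ℕ → ℝ),
      (∀ ω, 0 < q ω → ∀ l, 1 ≤ l → l ≤ n → |y ω l| ≤ 1) →
      FulB q n (U * z) W y (((n : ℝ) - 1) * (U * z) * Real.log 2 - Cb * z) ϖ' →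
      RwN q n U z P W δ y (x / 4) C ϖ' →
      ∀ (c k : ℕ) (gs : Fin c → ℕ) (ys : Fin k → ℕ), EnA n P gs ys → ∀ s, U * z ≤ s →
      ∀ E : Ω → Prop, ϖ ≤ Pe q E →
      ((c : ℝ) - 1 - x) * (U * z) * Real.log 2 - (C + Cb + 3) * z ≤
        CH (cond q E True) (fun ω => QA n P gs s (δ (W ω)) (gdA (U * z) gs y ω))
          (fun ω => (gdA (U * z) ys y ω, W ω)) := by
  classical
  have hnR : (1 : ℝ) ≤ n := by exact_mod_cast hn
  have hn0 : (0 : ℝ) < n := by linarith
  obtain ⟨ζ, hζ⟩ : ∃ ζ : ℝ, ζ = x / (2 * n) := ⟨_, rfl⟩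
  have hζ0 : 0 < ζ := by
    rw [hζ]
    positivity
  obtain ⟨ϖ₁, hϖ₁⟩ : ∃ ϖ₁ : ℝ, ϖ₁ = ζ * ϖ / (n + 1) := ⟨_, rfl⟩
  have hϖ₁0 : 0 < ϖ₁ := by
    rw [hϖ₁]
    positivity
  obtain ⟨ϖ₂, z₁, hϖ₂, hpiv⟩ := abs_piv n (x / 2) C Cb hn (by positivity) hC hCb M ϖ₁ hϖ₁0
  have l13 : 0 ≤ Real.log 13 := Real.log_nonneg (by norm_num)
  have hl0 : 0 < Real.log 2 := Real.log_pos (by norm_num)
  have hl1 : Real.log 2 ≤ 1 := by linarith [Real.log_two_lt_d9]
  obtain ⟨c₀, hc₀⟩ : ∃ c₀ : ℝ, c₀ = (n + 1) * Real.log 13 + n * 2 := ⟨_, rfl⟩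
  obtain ⟨z₃, hz₃⟩ := exists_nat_ge c₀
  refine ⟨min ϖ₁ ϖ₂, max z₁ z₃, lt_min hϖ₁0 hϖ₂, ?_⟩
  intro Ω τ _ q hq z U hz hUM P W y δ hy hF hN c k gs ys hen s hs E hE'
  have hz1 : z₁ ≤ z := (le_max_left _ _).trans hz
  have hzr3 : (z₃ : ℝ) ≤ z := by exact_mod_cast (le_max_right _ _).trans hz
  have hzc : c₀ ≤ z := hz₃.trans hzr3
  have hz0 : (0 : ℝ) ≤ z := Nat.cast_nonneg z
  have hck := hen.card
  have hckR : (c : ℝ) + k = n := by exact_mod_cast hck
  have hk0 : (0 : ℝ) ≤ k := Nat.cast_nonneg k
  have hc1 : (1 : ℝ) ≤ c := by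
    obtain ⟨u, hu⟩ := hen.go n hn le_rfl hen.Pn
    have : 0 < c := u.pos
    exact_mod_cast this
  have hUz : (0 : ℝ) ≤ U * z := by positivity
  have hUzl : 0 ≤ x * ((U * z) * Real.log 2) := by positivity
  have hCz : 0 ≤ C * z := by positivity
  have hCbz : 0 ≤ Cb * z := by positivity
  have hk2 : (k : ℝ) * (2 * Real.log 2) ≤ n * 2 :=
    mul_le_mul (by linarith) (by linarith) (by positivity) (by linarith)
  have hF1 : FulB q n (U * z) W y (((n : ℝ) - 1) * (U * z) * Real.log 2 - Cb * z) ϖ₁ :=
    fun E h => hF E ((min_le_left _ _).trans h)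
  have hF2 : FulB q n (U * z) W y (((n : ℝ) - 1) * (U * z) * Real.log 2 - Cb * z) ϖ₂ :=
    fun E h => hF E ((min_le_right _ _).trans h)
  have hN2 : RwN q n U z P W δ y (x / 2 / 2) C ϖ₂ := by
    have e : x / 2 / 2 = x / 4 := by ring
    rw [e]
    exact fun k h1 h2 h3 t h4 E h5 => hN k h1 h2 h3 t h4 E ((min_le_right _ _).trans h5)
  obtain ⟨L, hL⟩ : ∃ L : ℝ, L = ((c : ℝ) - 1 - x / 2) * (U * z) * Real.log 2 -
    (C + Cb + 3) * z := ⟨_, rfl⟩
  obtain ⟨G, hG⟩ : ∃ G : Ω → Fin c → ℤ, G = gdA (U * z) gs y := ⟨_, rfl⟩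
  obtain ⟨Y, hY⟩ : ∃ Y : Ω → Fin k → ℤ, Y = gdA (U * z) ys y := ⟨_, rfl⟩
  have hcard : (Fintype.card (Option (Fin c)) : ℝ) * ϖ₁ ≤ ζ * ϖ := by
    rw [Fintype.card_option, Fintype.card_fin, hϖ₁]
    push_cast
    rw [mul_div_assoc']
    rw [div_le_iff₀ (by positivity)]
    have h1 : (c : ℝ) + 1 ≤ n + 1 := by linarith
    have h2 : 0 ≤ ζ * ϖ := by positivity
    nlinarith
  have h1 := glue_low hq hϖ hE' (ϖ' := ϖ₁) (L := L) (B := n * (U * z) * Real.log 2) (ζ := ζ)
    (fun ω => QA n P gs s (δ (W ω)) (gdA (U * z) gs y ω)) (fun ω => (gdA (U * z) ys y ω, W ω))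
    (fun ω => pvA n P gs s (δ (W ω)))
    (by
      rw [hL]
      have h2 : 0 ≤ (C + Cb + 3) * z := by positivity
      have h3 : ((c : ℝ) - 1 - x / 2) * (U * z) * Real.log 2 ≤ n * (U * z) * Real.log 2 := by
        refine mul_le_mul_of_nonneg_right (mul_le_mul_of_nonneg_right ?_ hUz) hl0.le
        linarith
      linarith) (by positivity) hϖ₁0.le hcard
    (by
      intro v hv hv0
      obtain ⟨E', hE'd⟩ : ∃ E' : Ω → Prop, E' = fun ω => E ω ∧
        pvA n P gs s (δ (W ω)) = v := ⟨_, rfl⟩
      rw [← hE'd] at hv hv0 ⊢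
      have hlaw := isLaw_cond hq hv0
      have hpE : ∀ ω, 0 < cond q E' True ω → 0 < q ω ∧ E' ω := fun ω hω =>
        ⟨((cond_pos_iff hq.nonneg E' True ω).1 hω).1,
          of_eq_true ((cond_pos_iff hq.nonneg E' True ω).1 hω).2⟩
      have hpv : ∀ ω, E' ω → pvA n P gs s (δ (W ω)) = v := by
        intro ω hω
        rw [hE'd] at hω
        exact hω.2
      have hsl := gdA_le (U * z) ys hlaw (y := y)
        (fun ω hω a => hy ω (hpE ω hω).1 (ys a) (hen.y1 a).1 (hen.y1 a).2.1.le) W
      push_cast at hsl
      rcases v with _ | v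
      · -- no pivot
        have a1 := hF1 E' hv
        have a2 := to_cnd hlaw _ (fun ω => QA n P gs s (δ (W ω)) (gdA (U * z) gs y ω))
          (gdA (U * z) ys y) W a1 (e := 0) (by
          refine le_of_eq (CH_eq_zero hlaw.nonneg ?_)
          intro ω ω' hω hω' e
          simp only [Prod.mk.injEq] at e
          obtain ⟨⟨e1, e2⟩, -⟩ := e
          funext l
          have hl := l.isLt
          by_cases h : P ((l : ℕ) + 1)
          · obtain ⟨u, hu⟩ := hen.go ((l : ℕ) + 1) (by omega) (by omega) h
            have e3 := congrFun e1 u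
            unfold QA at e3
            rw [hpv ω (hpE ω hω).2, hpv ω' (hpE ω' hω').2] at e3
            have g3 : gs u ≠ n := by omega
            simp only [if_neg g3] at e3
            unfold gdA at e3
            rw [hu] at e3
            exact e3
          · obtain ⟨a, ha⟩ := hen.yo ((l : ℕ) + 1) (by omega) (by omega) h
            have e3 := congrFun e2 a
            unfold gdA at e3
            rw [ha] at e3
            exact e3) hsl
        refine le_trans ?_ a2
        rw [hL]
        rw [hc₀] at hzc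
        have : 0 ≤ ((n : ℝ) + 1) * Real.log 13 := by positivity
        have hkk : (k : ℝ) = n - c := by linarith
        rw [hkk] at hk2 ⊢
        nlinarith
      · -- the pivot
        obtain ⟨p, hp⟩ : ∃ p : ℕ, p = gs v := ⟨_, rfl⟩
        have hv1 : 1 ≤ p := by
          rw [hp]
          exact (hen.g1 v).1
        have hpn : p ≤ n := by
          rw [hp]
          exact (hen.g1 v).2.1
        have hPp : P p := by
          rw [hp]
          exact (hen.g1 v).2.2
        have hntB : ∀ ω, E' ω → NtB n p P s (δ (W ω)) := fun ω hω => by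
          rw [hp]
          exact pvA_some (hpv ω hω)
        have hnt : ∀ ω, E' ω → NtB n p P (U * z) (δ (W ω)) := fun ω hω => by
          obtain ⟨k1, k2, k3⟩ := hntB ω hω
          refine ⟨k1, k2, fun l h1 h2 h3 => (mul_le_mul_of_nonneg_left ?_ (abs_nonneg _)).trans
            (k3 l h1 h2 h3)⟩
          exact pow_le_pow_right₀ (by norm_num) hs
        have a1 := hpiv Ω τ q hq z U hz1 hUM P W y δ hy hF2 hN2 p hv1 hpn (fun _ => hPp) E' hv hnt
        have a2 := to_cnd hlaw _ (fun ω => QA n P gs s (δ (W ω)) (gdA (U * z) gs y ω))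
          (gdA (U * z) ys y) W a1 (e := (n + 1) * Real.log 13) (by
          have b1 := CH_pfam hlaw.nonneg hlaw.sum_one (hmd n p (U * z) W δ y)
            (fun ω => ((QA n P gs s (δ (W ω)) (gdA (U * z) gs y ω), gdA (U * z) ys y ω), W ω))
            (D := 6) (by norm_num) (by
              intro ω ω' hω hω' e l
              simp only [Prod.mk.injEq] at e
              obtain ⟨⟨e1, e2⟩, e3⟩ := e
              obtain ⟨o1, o2⟩ := hpE ω hω
              obtain ⟨o1', o2'⟩ := hpE ω' hω'
              unfold hmd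
              by_cases hl : 1 ≤ (l : ℕ) ∧ (l : ℕ) ≠ p
              · rw [if_pos hl, if_pos hl]
                have hln : (l : ℕ) ≤ n := by
                  have := l.isLt
                  omega
                obtain ⟨k1, k2, k3⟩ := hnt ω o2
                have p0 : (0 : ℝ) < 2 ^ (U * z) := by positivity
                obtain ⟨ν, hν⟩ : ∃ ν : ℝ, ν = δ (W ω) l / δ (W ω) p := ⟨_, rfl⟩
                have hν' : δ (W ω') l / δ (W ω') p = ν := by rw [hν, e3]
                have hvp : |ν| ≤ 1 := by
                  rw [hν, abs_div, div_le_one (abs_pos.2 k1)]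
                  exact k2 l hl.1 hln
                rw [hν', ← hν]
                -- the rounded numbers
                have key : ∀ o : Ω, |(2 : ℝ) ^ (U * z) * (y o l - ν * y o p) -
                    ((⌊(2 : ℝ) ^ (U * z) * y o l⌋ : ℤ) - ν *
                      (⌊(2 : ℝ) ^ (U * z) * y o p⌋ : ℤ))| ≤ 2 := by
                  intro o
                  have f1 := Int.floor_le ((2 : ℝ) ^ (U * z) * y o l)
                  have f2 := Int.lt_floor_add_one ((2 : ℝ) ^ (U * z) * y o l)
                  have f3 := Int.floor_le ((2 : ℝ) ^ (U * z) * y o p)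
                  have f4 := Int.lt_floor_add_one ((2 : ℝ) ^ (U * z) * y o p)
                  have f5 : (2 : ℝ) ^ (U * z) * (y o l - ν * y o p) -
                    ((⌊(2 : ℝ) ^ (U * z) * y o l⌋ : ℤ) - ν *
                      (⌊(2 : ℝ) ^ (U * z) * y o p⌋ : ℤ)) =
                    ((2 : ℝ) ^ (U * z) * y o l - (⌊(2 : ℝ) ^ (U * z) * y o l⌋ : ℤ)) -
                    ν * ((2 : ℝ) ^ (U * z) * y o p -
                      (⌊(2 : ℝ) ^ (U * z) * y o p⌋ : ℤ)) := by ring
                  rw [f5]
                  refine (abs_sub _ _).trans ?_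
                  rw [abs_mul]
                  have f6 : |(2 : ℝ) ^ (U * z) * y o l -
                    (⌊(2 : ℝ) ^ (U * z) * y o l⌋ : ℤ)| ≤ 1 := by
                    rw [abs_le]
                    constructor <;> linarith
                  have f7 : |(2 : ℝ) ^ (U * z) * y o p -
                    (⌊(2 : ℝ) ^ (U * z) * y o p⌋ : ℤ)| ≤ 1 := by
                    rw [abs_le]
                    constructor <;> linarith
                  have f8 := mul_le_mul hvp f7 (abs_nonneg _) zero_le_one
                  linarith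
                have kω := key ω
                have kω' := key ω'
                by_cases h : P l
                · -- in the group
                  obtain ⟨u, hu⟩ := hen.go l hl.1 hln h
                  have e4 := congrFun e1 u
                  unfold QA at e4
                  rw [hpv ω o2, hpv ω' o2'] at e4
                  have huv : u ≠ v := by
                    intro h9
                    rw [h9] at hu
                    exact hl.2 (by rw [hp]; exact hu.symm)
                  simp only [if_neg huv] at e4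
                  rw [hu, ← hp, hν', ← hν] at e4
                  unfold gdA at e4
                  rw [hu, ← hp] at e4
                  have e5 := (Int.abs_sub_lt_one_of_floor_eq_floor e4).le
                  refine (fl_dif _ _).trans ?_
                  rw [abs_le] at kω kω' e5
                  have e6 : |(2 : ℝ) ^ (U * z) * (y ω l - ν * y ω p) -
                      (2 : ℝ) ^ (U * z) * (y ω' l - ν * y ω' p)| ≤ 5 := by
                    rw [abs_le]
                    constructor <;> linarith [kω.1, kω.2, kω'.1, kω'.2, e5.1, e5.2]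
                  linarith
                · -- another coordinate
                  have hlt : (l : ℕ) < n := by
                    rcases Nat.lt_or_ge (l : ℕ) n with h9 | h9
                    · exact h9
                    · exfalso
                      apply h
                      have : (l : ℕ) = n := by omega
                      rw [this]
                      exact hen.Pn
                  obtain ⟨a, ha⟩ := hen.yo l hl.1 hlt h
                  have e4 := congrFun e2 a
                  unfold gdA at e4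
                  rw [ha] at e4
                  have e5 := (Int.abs_sub_lt_one_of_floor_eq_floor e4).le
                  have f1 : |ν| * 2 ^ (U * z) ≤ 1 := by
                    rw [hν, abs_div, div_mul_eq_mul_div, div_le_one (abs_pos.2 k1)]
                    exact k3 l hl.1 hlt h
                  have f2 : ∀ o, 0 < q o → |(2 : ℝ) ^ (U * z) * (ν * y o p)| ≤ 1 := by
                    intro o ho
                    have f3 := hy o ho p hv1 hpn
                    rw [abs_mul, abs_mul, abs_of_pos p0]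
                    calc (2 : ℝ) ^ (U * z) * (|ν| * |y o p|) = (|ν| * 2 ^ (U * z)) * |y o p| := by
                          ring
                      _ ≤ 1 * 1 := mul_le_mul f1 f3 (abs_nonneg _) zero_le_one
                      _ = 1 := one_mul 1
                  have f3 := f2 ω o1
                  have f4 := f2 ω' o1'
                  refine (fl_dif _ _).trans ?_
                  rw [mul_sub, mul_sub]
                  rw [abs_le] at f3 f4 e5
                  have e6 : |(2 : ℝ) ^ (U * z) * y ω l - (2 : ℝ) ^ (U * z) * (ν * y ω p) -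
                      ((2 : ℝ) ^ (U * z) * y ω' l - (2 : ℝ) ^ (U * z) * (ν * y ω' p))| ≤ 3 := by
                    rw [abs_le]
                    constructor <;> linarith [f3.1, f3.2, f4.1, f4.2, e5.1, e5.2]
                  linarith
              · rw [if_neg hl, if_neg hl, sub_self, abs_zero]
                norm_num)
          rw [Fintype.card_fin] at b1
          have e9 : (2 : ℝ) * 6 + 1 = 13 := by norm_num
          rw [e9] at b1
          push_cast at b1
          exact b1) hsl
        refine le_trans ?_ a2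
        rw [hL]
        rw [hc₀] at hzc
        have hkk : (k : ℝ) = n - c := by linarith
        rw [hkk] at hk2 ⊢
        nlinarith)
  refine le_trans (le_of_eq ?_) h1
  rw [hL, hζ]
  field_simp
  ring

end Pool.TT5
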