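import Pool.Agent.H5.TT.Nfd

/-!
# All heights modulo a direction are full
-/

set_option autoImplicit false

namespace Pool.TT5

open Finset Real MvPolynomial
open Pool.Agent.H49.Ent Pool.Agent.H32.Dense Pool.STK Pool.STAT Pool.KA Pool.KSAT Pool.K2S
open Pool.Agent.H25.BFL (Pb_eq_Pe)
open Pool.BFL (Pb)

variable {D : NDat2} {n K J a₀ w₀ z M : ℕ} {lam gam : ℕ → ℝ} {κ C₁ : ℝ} {q : D.Ω → ℝ}

theorem nv_le {k l : ℕ} {δ : D.Γ × ℕ → ℕ → ℝ} {i j : ℕ} {w : D.Γ × ℕ} {s : ℕ}
    (h0 : δ w k ≠ 0) (h : |δ w l| * 2 ^ (D.g i j l + s) ≤ |δ w k| * 2 ^ D.g i j k) :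
    |nv D k δ i j w l| ≤ 1 / 2 ^ s := by
  unfold nv
  have h1 : 0 < |δ w k| * 2 ^ D.g i j k := by positivity
  have h2 : |δ w k * 2 ^ D.g i j k| = |δ w k| * 2 ^ D.g i j k := by
    rw [abs_mul, abs_of_pos (by positivity : (0 : ℝ) < 2 ^ D.g i j k)]
  have h3 : |δ w l * 2 ^ D.g i j l| = |δ w l| * 2 ^ D.g i j l := by
    rw [abs_mul, abs_of_pos (by positivity : (0 : ℝ) < 2 ^ D.g i j l)]
  rw [abs_div, h2, h3, div_le_div_iff₀ h1 (by positivity)]
  rw [pow_add] at h
  linarith

/-- The base with more digits. -/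
theorem hb_rbg {k B r r' : ℕ} {P : ℕ → Prop} {δ : D.Γ × ℕ → ℕ → ℝ} {i j : ℕ} (hB : 1 ≤ B)
    (hr : r ≤ r') {ω ω' : D.Ω} (h : hb D n k P B δ i j r' ω = hb D n k P B δ i j r' ω') :
    rbg n k r (Wc D i j) (nv D k δ i j) (yn D i j) ω =
      rbg n k r (Wc D i j) (nv D k δ i j) (yn D i j) ω' := by
  classical
  funext l
  have h1 := congrFun h l
  unfold hb at h1
  unfold rbg
  by_cases hl : 1 ≤ (l : ℕ) ∧ (l : ℕ) ≠ k
  · rw [if_pos hl, if_pos hl] at h1
    rw [if_pos hl, if_pos hl, ← hd_eq, ← hd_eq]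
    unfold hd at h1 ⊢
    refine fl_of ?_ h1
    split_ifs
    · exact hr
    · nlinarith
  · rw [if_neg hl, if_neg hl]

/-- **All heights modulo a direction are full.** -/
theorem b2_piv (n : ℕ) (x C₁ : ℝ) (hn : 1 ≤ n) (hx : 0 < x) (hC₁ : 1 ≤ C₁) (M : ℕ) (ϖ : ℝ)
    (hϖ : 0 < ϖ) : ∃ (κ ϖ' : ℝ) (z₀ : ℕ), 0 < κ ∧ 0 < ϖ' ∧
    ∀ (K : ℕ) (lam gam : ℕ → ℝ) (J a₀ w₀ z B : ℕ) (D : NDat2) (q : D.Ω → ℝ)
      (Adm : ℕ → ℕ → (D.Γ × ℕ → ℕ → ℝ) → Prop), 1 ≤ B → z₀ ≤ z →
      D.Ok2 n K J a₀ w₀ z M lam gam κ C₁ q → NFd D n z M B gam (x / 2) C₁ ϖ' Adm q →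
      ∀ i ≤ M, ∀ j ≤ M, ∀ U : ℕ, 2 * U ≤ i → i + U ≤ M → (U : ℝ) ≤ gam n * (M - j) →
      ∀ p, 1 ≤ p → p ≤ n → gam p = gam n → ∀ δ, Adm i j δ → ∀ E : D.Ω → Prop, ϖ ≤ Pb q E →
      (∀ ω, E ω → NtP D n p gam i j (2 * (U * z)) (δ (Wc D i j ω))) →
      ((n : ℝ) - 1 - x) * (U * z) * Real.log 2 - (C₁ + 3) * z ≤
        CH (Pool.Agent.H49.Ent.cond q E True) (hm D n p δ i j (U * z)) (Wc D i j) := by
  classical
  have hnR : (1 : ℝ) ≤ n := by exact_mod_cast hn
  have hn0 : (0 : ℝ) < n := by linarith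
  obtain ⟨ζ, hζ⟩ : ∃ ζ : ℝ, ζ = x / (2 * n) := ⟨_, rfl⟩
  have hζ0 : 0 < ζ := by
    rw [hζ]
    positivity
  obtain ⟨ϖ', hϖ'⟩ : ∃ ϖ' : ℝ, ϖ' = min ϖ (ζ * ϖ / (n * M + 1)) := ⟨_, rfl⟩
  have hϖ'0 : 0 < ϖ' := by
    rw [hϖ']
    exact lt_min hϖ (by positivity)
  have hϖ'1 : ϖ' ≤ ϖ := by
    rw [hϖ']
    exact min_le_left _ _
  have hϖ'2 : ((n * M + 1 : ℕ) : ℝ) * ϖ' ≤ ζ * ϖ := by
    have h1 : ϖ' ≤ ζ * ϖ / (n * M + 1) := by
      rw [hϖ']
      exact min_le_right _ _
    rw [le_div_iff₀ (by positivity)] at h1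
    push_cast
    linarith
  obtain ⟨c₀, hc₀⟩ : ∃ c₀ : ℝ, c₀ = 2 * (n * Real.log 7 + Real.log 5) + 3 * Real.log 9 +
      n * Real.log 9 + Real.log 7 := ⟨_, rfl⟩
  have l5 : 0 ≤ Real.log 5 := Real.log_nonneg (by norm_num)
  have l7 : 0 ≤ Real.log 7 := Real.log_nonneg (by norm_num)
  have l9 : 0 ≤ Real.log 9 := Real.log_nonneg (by norm_num)
  have hl0 : 0 < Real.log 2 := Real.log_pos (by norm_num)
  have hl1 : Real.log 2 ≤ 1 := by linarith [Real.log_two_lt_d9]
  have hc₀0 : 0 ≤ c₀ := by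
    rw [hc₀]
    positivity
  obtain ⟨z₁, hz₁⟩ := exists_nat_ge (2 * (4 * n + 1) / ϖ')
  obtain ⟨z₂, hz₂⟩ := exists_nat_ge c₀
  refine ⟨ϖ' / 4, ϖ', max z₁ z₂, by positivity, hϖ'0, ?_⟩
  intro K lam gam J a₀ w₀ z B D q Adm hB hz hO hNF i hi j hj U h2U hiU hUg p hp1 hpn hgp δ hδ E hE
    hnt
  have hzr1 : (z₁ : ℝ) ≤ z := by exact_mod_cast (le_max_left _ _).trans hz
  have hzr2 : (z₂ : ℝ) ≤ z := by exact_mod_cast (le_max_right _ _).trans hz
  have hzc : c₀ ≤ z := hz₂.trans hzr2
  have hzϖ : 2 * (4 * (n : ℝ) + 1) ≤ ϖ' * z := by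
    have h1 := hz₁.trans hzr1
    rw [div_le_iff₀ hϖ'0] at h1
    linarith
  have hz0 : (0 : ℝ) ≤ z := Nat.cast_nonneg z
  have hU0 : (0 : ℝ) ≤ U := Nat.cast_nonneg U
  have hUM : U ≤ M := by omega
  have hE' : ϖ ≤ Pe q E := by rwa [← Pb_eq_Pe]
  have hq := hO.isLaw
  have hn1 : ((n - 1 : ℕ) : ℝ) = (n : ℝ) - 1 := by
    rw [Nat.cast_sub hn, Nat.cast_one]
  have hF : ∀ E' : D.Ω → Prop, ϖ' ≤ Pe q E' → 0 < Pe q E' →
      ((n - 1 : ℕ) : ℝ) * (U * z) * Real.log 2 - z ≤
        CH (Pool.Agent.H49.Ent.cond q E' True) (rdg n (U * z) (yn D i j)) (Wc D i j) :=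
    fun E' h1 _ => base_ev hϖ'0 le_rfl (by positivity) hzϖ hO hi hj hiU E' h1
  have hUz : (0 : ℝ) ≤ U * z := by positivity
  have hUzl : 0 ≤ x * ((U * z) * Real.log 2) := by positivity
  have hnl7 : 0 ≤ (n : ℝ) * Real.log 7 := by positivity
  have hnl9 : 0 ≤ (n : ℝ) * Real.log 9 := by positivity
  rcases Nat.eq_or_lt_of_le hpn with hp | hp
  · -- the pivot is the target
    subst hp
    obtain ⟨L, hL⟩ : ∃ L : ℝ, L = ((p : ℝ) - 1 - x / 2) * (U * z) * Real.log 2 - (C₁ + 3) * z :=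
      ⟨_, rfl⟩
    have h1 := core_n (n := p) (U := U) (z := z) hq (P := fun l => gam l = gam p) (E := E)
      (ϖ := ϖ) (ϖ' := ϖ') hϖ hϖ'0.le hE' (Wc D i j) (yn D i j)
      (fun ω hω l h1 h2 => yn_le hO hi hj hω h1 h2) (nv D p δ i j)
      (fun ω hω hEω l h1 h2 => by
        obtain ⟨k1, k2, k3⟩ := hnt ω hEω
        have := nv_le (D := D) (s := 0) k1 (k2 l h1 h2.le)
        rwa [pow_zero, div_one] at this)
      (fun ω hω hEω l h1 h2 h3 => by
        obtain ⟨k1, k2, k3⟩ := hnt ω hEω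
        refine (nv_le (D := D) k1 (k3 l h1 h2 h3)).trans ?_
        refine one_div_le_one_div_of_le (by positivity) (pow_le_pow_right₀ (by norm_num) ?_)
        omega)
      (X := hm D p p δ i j (U * z))
      (fun ω hω hEω l h1 h2 => by
        unfold hm
        rw [if_pos ⟨h1, by simp only; omega⟩, hd_eq])
      (a := ((p - 1 : ℕ) : ℝ) * (U * z) * Real.log 2 - z) (L := L)
      (B := p * (U * z) * Real.log 2) (ζ := ζ)
      (b := fun t => (1 - x / 2) * (((U - t : ℕ) : ℝ) * z) * Real.log 2 - C₁ * z) hF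
      (fun k hk1 hkn hkP t ht1 htU E' h1 h2 h3 h4 => by
        have h5 := hNF i hi j hj (U - t) t (by omega) (by omega) (by
          refine le_trans ?_ hUg
          exact_mod_cast Nat.sub_le U t) k hk1 hkn hkP δ hδ E' (by rwa [Pb_eq_Pe]) (by
          intro ω hω
          obtain ⟨k1, k2, k3⟩ := hnt ω (h3 ω hω)
          obtain ⟨m1, m2, m3, m4⟩ := h4 ω hω
          have f1 : ∀ l, |nv D p δ i j (Wc D i j ω) l| * (|δ (Wc D i j ω) p| * 2 ^ D.g i j p) =
              |δ (Wc D i j ω) l| * 2 ^ D.g i j l := by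
            intro l
            unfold nv
            rw [abs_div, abs_mul, abs_mul, abs_of_pos (by positivity : (0 : ℝ) < 2 ^ D.g i j l),
              abs_of_pos (by positivity : (0 : ℝ) < 2 ^ D.g i j p)]
            have : |δ (Wc D i j ω) p| ≠ 0 := abs_ne_zero.2 k1
            field_simp
          have f2 : 0 < |δ (Wc D i j ω) p| * 2 ^ D.g i j p := by positivity
          refine ⟨?_, fun l g1 g2 => ?_, ?_, fun l g1 g2 g3 => ?_⟩
          · intro h6
            apply m1
            unfold nv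
            rw [h6, zero_mul, zero_div]
          · rw [← f1 l, ← f1 k]
            exact mul_le_mul_of_nonneg_right (m4 l g1 g2) f2.le
          · rw [pow_add, ← mul_assoc, ← f1 k]
            rw [div_le_iff₀ (by positivity)] at m2
            nlinarith
          · have g4 := k3 l g1 g2 g3
            rw [← f1 k]
            have g5 : |δ (Wc D i j ω) l| * 2 ^ (D.g i j l + (U - t + t) * z) * 2 ^ (U * z) ≤
                |δ (Wc D i j ω) p| * 2 ^ D.g i j p := by
              refine le_trans (le_of_eq ?_) g4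
              rw [mul_assoc, ← pow_add]
              congr 2
              have : U - t + t = U := by omega
              rw [this]
              ring
            have g6 : (1 : ℝ) / 2 ^ (U * z) ≤ |nv D p δ i j (Wc D i j ω) k| := by
              refine le_trans ?_ m2
              exact one_div_le_one_div_of_le (by positivity)
                (pow_le_pow_right₀ (by norm_num) (Nat.mul_le_mul_right z htU))
            rw [div_le_iff₀ (by positivity)] at g6
            have g7 : (0 : ℝ) < 2 ^ (U * z) := by positivity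
            have g8 : |δ (Wc D i j ω) p| * 2 ^ D.g i j p ≤
                |nv D p δ i j (Wc D i j ω) k| * (|δ (Wc D i j ω) p| * 2 ^ D.g i j p) *
                  2 ^ (U * z) := by nlinarith
            exact le_of_mul_le_mul_right (g5.trans g8) g7)
        refine h5.trans ?_
        have hq0 : ∀ ω, 0 ≤ Pool.Agent.H49.Ent.cond q E' True ω :=
          (isLaw_cond hq h2).nonneg
        have e1 : ∀ (r : ℕ) (ω : D.Ω), E' ω → hd D k δ i j p r ω = ⌊(2 : ℝ) ^ r *
            (yn D i j ω p - 1 / nv D p δ i j (Wc D i j ω) k * yn D i j ω k)⌋ := by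
          intro r ω hω
          rw [hd_eq]
          obtain ⟨k1, k2, k3⟩ := hnt ω (h3 ω hω)
          have : nv D k δ i j (Wc D i j ω) p = 1 / nv D p δ i j (Wc D i j ω) k := by
            unfold nv
            rw [one_div_div]
          rw [this]
        have hpE : ∀ ω, 0 < Pool.Agent.H49.Ent.cond q E' True ω → E' ω := fun ω hω =>
          of_eq_true ((cond_pos_iff hq.nonneg E' True ω).1 hω).2
        refine (CH_mono_cond hq0 (W := fun ω => (hd D k δ i j p 0 ω,
          (hb D p k (fun l => gam l = gam p) B δ i j ((U - t + t) * z) ω, Wc D i j ω)))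
          (W' := fun ω => (hd D k δ i j p 0 ω,
          (hb D p k (fun l => gam l = gam p) B δ i j ((U - t + t) * z) ω, Wc D i j ω)))
          (fun _ _ _ _ h => h)).trans ?_
        refine le_trans (CH_mono_cond hq0 (W := fun ω => (⌊(2 : ℝ) ^ 0 * (yn D i j ω p -
          1 / nv D p δ i j (Wc D i j ω) k * yn D i j ω k)⌋, (rbg p k (U * z) (Wc D i j)
            (fun w l => nv D p δ i j w l / nv D p δ i j w k) (yn D i j) ω, Wc D i j ω))) ?_) ?_
        · intro ω ω' hω hω' h
          simp only [Prod.mk.injEq] at h ⊢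
          obtain ⟨g1, g2, g3⟩ := h
          refine ⟨?_, ?_, g3⟩
          · rw [← e1 0 ω (hpE ω hω), ← e1 0 ω' (hpE ω' hω'), g1]
          · have g4 := hb_rbg (r := U * z) hB (by
              have : U - t + t = U := by omega
              rw [this]) g2
            have g5 : ∀ ω, E' ω → rbg p k (U * z) (Wc D i j)
                (fun w l => nv D p δ i j w l / nv D p δ i j w k) (yn D i j) ω =
                rbg p k (U * z) (Wc D i j) (nv D k δ i j) (yn D i j) ω := by
              intro ω hω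
              obtain ⟨k1, k2, k3⟩ := hnt ω (h3 ω hω)
              obtain ⟨m1, m2, m3, m4⟩ := h4 ω hω
              funext l
              unfold rbg
              have g6 : nv D p δ i j (Wc D i j ω) l / nv D p δ i j (Wc D i j ω) k =
                  nv D k δ i j (Wc D i j ω) l := by
                have g7 : δ (Wc D i j ω) k ≠ 0 := by
                  intro h6
                  apply m1
                  unfold nv
                  rw [h6, zero_mul, zero_div]
                unfold nv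
                field_simp
              simp only [g6]
            rw [g5 ω (hpE ω hω), g5 ω' (hpE ω' hω'), g4]
        · refine CH_mono_left hq0 ?_
          intro ω ω' hω hω' h
          simp only [Prod.mk.injEq] at h
          have e2 : (U - t) * z = U * z - t * z := Nat.sub_mul U t z
          rw [e1 _ ω (hpE ω hω), e1 _ ω' (hpE ω' hω'), e2]
          exact h.1)
      (by
        rw [hL, hn1]
        have h9 : (p : ℝ) * Real.log 9 ≤ c₀ := by
          rw [hc₀]
          linarith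
        have : 0 ≤ C₁ * z := by positivity
        nlinarith)
      (fun t ht1 htU => by
        rw [hL, hn1]
        have e1 : (((t - 1) * z : ℕ) : ℝ) = ((t : ℝ) - 1) * z := by
          rw [Nat.cast_mul, Nat.cast_sub ht1, Nat.cast_one]
        have e2 : ((U - t : ℕ) : ℝ) = (U : ℝ) - t := Nat.cast_sub htU
        rw [e1, e2]
        push_cast
        have h9 : 2 * ((p : ℝ) * Real.log 7 + Real.log 5) + 3 * Real.log 9 ≤ c₀ := by
          rw [hc₀]
          linarith
        have h10 : 0 ≤ x / 2 * (t * z) * Real.log 2 := by positivity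
        have h11 : z * Real.log 2 ≤ z := by nlinarith
        linarith)
      (by
        rw [hL]
        have : 0 ≤ (C₁ + 3) * z := by positivity
        nlinarith) (by positivity)
      (by
        refine le_trans (mul_le_mul_of_nonneg_right ?_ hϖ'0.le) hϖ'2
        exact_mod_cast Nat.succ_le_succ (Nat.mul_le_mul_left p hUM))
    refine le_trans (le_of_eq ?_) h1
    rw [hL, hζ]
    field_simp
    ring
  · -- the pivot is in the base
    have h1 := hNF i hi j hj U 0 (by omega) hiU hUg p hp1 hp hgp δ hδ E (hϖ'1.trans hE) (by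
      intro ω hω
      obtain ⟨k1, k2, k3⟩ := hnt ω hω
      refine ⟨k1, fun l h1 h2 => k2 l h1 h2.le, ?_, fun l h1 h2 h3 => ?_⟩
      · rw [zero_mul, add_zero]
        exact k2 n hn le_rfl
      · refine le_trans (mul_le_mul_of_nonneg_left ?_ (abs_nonneg _)) (k3 l h1 h2 h3)
        refine pow_le_pow_right₀ (by norm_num) ?_
        rw [add_zero]
        omega)
    have hE0 : 0 < Pe q E := hϖ.trans_le hE'
    have hlaw := isLaw_cond hq hE0
    have hpE : ∀ ω, 0 < Pool.Agent.H49.Ent.cond q E True ω → 0 < q ω ∧ E ω := fun ω hω =>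
      ⟨((cond_pos_iff hq.nonneg E True ω).1 hω).1,
        of_eq_true ((cond_pos_iff hq.nonneg E True ω).1 hω).2⟩
    have h2 := rotA hlaw.nonneg hlaw.sum_one (n := n) (k := p) (r := U * z) (W := Wc D i j)
      (y := yn D i j) (ν := nv D p δ i j) (Z := hd D p δ i j n (U * z))
      (Z0 := hd D p δ i j n 0) hp1 hp
      (fun ω hω => yn_le hO hi hj (hpE ω hω).1 hp1 hp.le)
      (fun ω hω l h1 h2 => by
        obtain ⟨k1, k2, k3⟩ := hnt ω (hpE ω hω).2
        have := nv_le (D := D) (s := 0) k1 (k2 l h1 h2.le)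
        rwa [pow_zero, div_one] at this)
      (hF E (hϖ'1.trans hE') hE0)
      (h1.trans (CH_mono_cond hlaw.nonneg (W := fun ω => (hd D p δ i j n 0 ω,
        (rbg n p (U * z) (Wc D i j) (nv D p δ i j) (yn D i j) ω, Wc D i j ω))) (by
        intro ω ω' hω hω' h
        simp only [Prod.mk.injEq] at h ⊢
        obtain ⟨g1, g2, g3⟩ := h
        exact ⟨g1, hb_rbg (r := U * z) hB (by rw [add_zero]) g2, g3⟩)))
    have h3 : CH (Pool.Agent.H49.Ent.cond q E True) (fun ω => (hd D p δ i j n (U * z) ω,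
        rbg n p (U * z) (Wc D i j) (nv D p δ i j) (yn D i j) ω)) (Wc D i j) ≤
        CH (Pool.Agent.H49.Ent.cond q E True) (hm D n p δ i j (U * z)) (Wc D i j) := by
      refine CH_mono_left hlaw.nonneg ?_
      intro ω ω' hω hω' h
      simp only [Prod.mk.injEq] at h ⊢
      have g1 := h.1
      constructor
      · have g2 := congrFun g1 ⟨n, by omega⟩
        unfold hm at g2
        rw [if_pos ⟨hn, by simp only; omega⟩, if_pos ⟨hn, by simp only; omega⟩] at g2
        exact g2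
      · funext l
        have g2 := congrFun g1 ⟨(l : ℕ), by omega⟩
        unfold hm at g2
        unfold rbg
        by_cases hl : 1 ≤ (l : ℕ) ∧ (l : ℕ) ≠ p
        · rw [if_pos hl, if_pos hl] at g2
          rw [if_pos hl, if_pos hl, ← hd_eq, ← hd_eq]
          exact g2
        · rw [if_neg hl, if_neg hl]
    refine le_trans ?_ (h2.trans h3)
    rw [hn1]
    push_cast
    have h9 : (n : ℝ) * Real.log 7 + Real.log 5 + Real.log 7 ≤ c₀ := by
      rw [hc₀]
      linarith
    linarith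

end Pool.TT5
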