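import Pool.Agent.H5.TT.B2
import Pool.Agent.H7.MIC.Plk

/-!
# The heights of the group modulo a direction are full given the slow coordinates

`pr`: the digits of the coordinates with the slope of the target modulo the direction `v`, as a
function of the digits `Y` of all heights over the visible labels; the pivot is a function of `v`; if
there is no natural pivot, the digits of the base. `b2_all`: these are full given the digits of the
other coordinates, the context and the exact time, on all large events.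
-/

set_option autoImplicit false

namespace Pool.TT5

open Finset Real MvPolynomial
open Pool.Agent.H49.Ent Pool.Agent.H32.Dense Pool.STK Pool.STAT Pool.KA Pool.KSAT Pool.K2S
open Pool.Agent.H25.BFL (Pb_eq_Pe)
open Pool.BFL (Pb)
open Pool.PLK (hvS hdS)
open Pool.MIC7 (log_icc fl_mem)

open Classical in
/-- The pivot of a direction, `0` if there is none. -/
noncomputable def pvt (D : NDat2) (n : ℕ) (gam : ℕ → ℝ) (i j s : ℕ) (v : ℕ → ℝ) : ℕ :=
  if h : ∃ p, 1 ≤ p ∧ p ≤ n ∧ gam p = gam n ∧ NtP D n p gam i j s v then h.choose else 0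

theorem pvt_le (D : NDat2) (n : ℕ) (gam : ℕ → ℝ) (i j s : ℕ) (v : ℕ → ℝ) :
    pvt D n gam i j s v ≤ n := by
  unfold pvt
  split_ifs with h
  · exact h.choose_spec.2.1
  · exact Nat.zero_le _

theorem pvt_spec {D : NDat2} {n : ℕ} {gam : ℕ → ℝ} {i j s : ℕ} {v : ℕ → ℝ} {p : ℕ}
    (h : pvt D n gam i j s v = p) (hp : 1 ≤ p) : gam p = gam n ∧ NtP D n p gam i j s v := by
  unfold pvt at h
  split_ifs at h with h1
  · rw [← h]
    exact ⟨h1.choose_spec.2.2.1, h1.choose_spec.2.2.2⟩
  · omega

/-- The digit of the coordinate `l`. -/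
def dgt {n : ℕ} (Y : Fin n → ℤ) (l : ℕ) : ℤ := if h : 1 ≤ l ∧ l ≤ n then Y ⟨l - 1, by omega⟩ else 0

open Classical in
/-- **The group modulo the direction `v`.** -/
noncomputable def pr (D : NDat2) (n : ℕ) (gam : ℕ → ℝ) (i j s : ℕ) (v : ℕ → ℝ)
    (Y : Fin n → ℤ) (l : Fin n) : ℤ :=
  if pvt D n gam i j s v = 0 then
    (if gam (l + 1) = gam n ∧ (l : ℕ) + 1 ≠ n then Y l else 0)
  else
    (if gam (l + 1) = gam n ∧ (l : ℕ) + 1 ≠ pvt D n gam i j s v then
      ⌊(Y l : ℝ) - v (l + 1) * 2 ^ D.g i j (l + 1) /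
        (v (pvt D n gam i j s v) * 2 ^ D.g i j (pvt D n gam i j s v)) *
        dgt Y (pvt D n gam i j s v)⌋ else 0)

open Classical in
/-- The digits of the other coordinates. -/
noncomputable def sld (n : ℕ) (gam : ℕ → ℝ) (Y : Fin n → ℤ) (l : Fin n) : ℤ :=
  if gam (l + 1) ≠ gam n then Y l else 0

open Classical in
/-- The number of the coordinates with the slope of the target. -/
noncomputable def ctd (n : ℕ) (gam : ℕ → ℝ) : ℕ :=
  ((univ : Finset (Fin n)).filter fun l : Fin n => gam (l + 1) = gam n).card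

variable {D : NDat2} {n K J a₀ w₀ z M : ℕ} {lam gam : ℕ → ℝ} {κ C₁ : ℝ} {q : D.Ω → ℝ}

theorem hv_yn (i j X : ℕ) (ω : D.Ω) (l : Fin n) :
    hvS D n i j X (D.Ψ i j) ω l = ⌊(2 : ℝ) ^ X * yn D i j ω (l + 1)⌋ := rfl

theorem dgt_hv (i j X : ℕ) (ω : D.Ω) {l : ℕ} (h1 : 1 ≤ l) (h2 : l ≤ n) :
    dgt (hvS D n i j X (D.Ψ i j) ω) l = ⌊(2 : ℝ) ^ X * yn D i j ω l⌋ := by
  unfold dgt
  rw [dif_pos ⟨h1, h2⟩, hv_yn]
  simp only
  have : l - 1 + 1 = l := by omega
  rw [this]

/-- The other coordinates are counted. -/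
theorem sld_le (hO : D.Ok2 n K J a₀ w₀ z M lam gam κ C₁ q) {i j : ℕ} (hi : i ≤ M) (hj : j ≤ M)
    (X : ℕ) {Q : D.Ω → ℝ} (hQ : IsLaw Q) (hQp : ∀ ω, 0 < Q ω → 0 < q ω) {T : Type}
    (W : D.Ω → T) :
    CH Q (fun ω => sld n gam (hvS D n i j X (D.Ψ i j) ω)) W ≤
      ((n : ℝ) - ctd n gam) * ((X + 2) * Real.log 2) := by
  classical
  refine (CH_psum hQ.nonneg (fun ω => sld n gam (hvS D n i j X (D.Ψ i j) ω)) W).trans ?_
  have h1 : ∀ l ∈ (univ : Finset (Fin n)),
      CH Q (fun ω => sld n gam (hvS D n i j X (D.Ψ i j) ω) l) W ≤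
        if gam (l + 1) = gam n then 0 else (X + 2) * Real.log 2 := by
    intro l _
    by_cases h : gam (l + 1) = gam n
    · rw [if_pos h]
      refine le_of_eq (CH_eq_zero hQ.nonneg ?_)
      intro ω ω' _ _ _
      unfold sld
      simp only [h, ne_eq, not_true_eq_false, if_false]
    · rw [if_neg h]
      have h2 := CH_le_card hQ.nonneg hQ.sum_one
        (fun ω => sld n gam (hvS D n i j X (D.Ψ i j) ω) l) W
        (fun _ => Finset.Icc (-((2 : ℤ) ^ X)) (2 ^ X)) (fun ω hω => by
          unfold sld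
          rw [if_pos h, hv_yn]
          have h3 := hO.pos i hi j hj ω (hQp ω hω) (l + 1) (by omega) (by omega)
          have h4 := fl_mem (r := X) h3
          unfold yn
          rw [← mul_assoc, ← pow_add, add_comm X]
          exact h4)
      rw [Ex_const hQ.sum_one] at h2
      exact h2.trans (log_icc X)
  refine (Finset.sum_le_sum h1).trans (le_of_eq ?_)
  rw [Finset.sum_ite, Finset.sum_const_zero, zero_add, Finset.sum_const, nsmul_eq_mul]
  congr 1
  have h2 := Finset.card_filter_add_card_filter_not (s := (univ : Finset (Fin n)))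
    (fun l : Fin n => gam (l + 1) = gam n)
  rw [Finset.card_univ, Fintype.card_fin] at h2
  unfold ctd
  have h3 : (n : ℝ) = (((univ : Finset (Fin n)).filter
      fun l : Fin n => gam (l + 1) = gam n).card : ℝ) +
      (((univ : Finset (Fin n)).filter fun l : Fin n => ¬ gam (l + 1) = gam n).card : ℝ) := by
    exact_mod_cast h2.symm
  rw [h3]
  ring

/-- From the pair to the condition. -/
theorem to_cond (hO : D.Ok2 n K J a₀ w₀ z M lam gam κ C₁ q) {i j : ℕ} (hi : i ≤ M) (hj : j ≤ M)
    (X : ℕ) {Q : D.Ω → ℝ} (hQ : IsLaw Q) (hQp : ∀ ω, 0 < Q ω → 0 < q ω) {S T V : Type}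
    (A : D.Ω → S) (P : D.Ω → V) (W : D.Ω → T) {a e : ℝ} (ha : a ≤ CH Q A W)
    (he : CH Q A (fun ω => ((P ω, sld n gam (hvS D n i j X (D.Ψ i j) ω)), W ω)) ≤ e) :
    a - e - ((n : ℝ) - ctd n gam) * ((X + 2) * Real.log 2) ≤
      CH Q P (fun ω => (sld n gam (hvS D n i j X (D.Ψ i j) ω), W ω)) := by
  have h1 := CH_le_add hQ.nonneg A (fun ω => (P ω, sld n gam (hvS D n i j X (D.Ψ i j) ω))) W
  have h2 := CH_chain hQ.nonneg P (fun ω => sld n gam (hvS D n i j X (D.Ψ i j) ω)) W
  have h3 := sld_le (gam := gam) hO hi hj X hQ hQp W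
  linarith

theorem ctd_pos {n : ℕ} (hn : 1 ≤ n) (gam : ℕ → ℝ) : (1 : ℝ) ≤ ctd n gam ∧ (ctd n gam : ℝ) ≤ n := by
  classical
  constructor
  · have h1 : 0 < ctd n gam := by
      unfold ctd
      refine Finset.card_pos.2 ⟨⟨n - 1, by omega⟩, ?_⟩
      rw [Finset.mem_filter]
      refine ⟨Finset.mem_univ _, ?_⟩
      have : n - 1 + 1 = n := by omega
      simp only [this]
    exact_mod_cast h1
  · have h1 : ctd n gam ≤ n := by
      unfold ctd
      refine (Finset.card_filter_le _ _).trans ?_
      rw [Finset.card_univ, Fintype.card_fin]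
    exact_mod_cast h1

/-- **(b2).** -/
theorem b2_all (n : ℕ) (x C₁ : ℝ) (hn : 1 ≤ n) (hx : 0 < x) (hC₁ : 1 ≤ C₁) (M : ℕ) (ϖ : ℝ)
    (hϖ : 0 < ϖ) : ∃ (κ ϖ' : ℝ) (z₀ : ℕ), 0 < κ ∧ 0 < ϖ' ∧
    ∀ (K : ℕ) (lam gam : ℕ → ℝ) (J a₀ w₀ z B : ℕ) (D : NDat2) (q : D.Ω → ℝ)
      (Adm : ℕ → ℕ → (D.Γ × ℕ → ℕ → ℝ) → Prop), 1 ≤ B → z₀ ≤ z →
      D.Ok2 n K J a₀ w₀ z M lam gam κ C₁ q → NFd D n z M B gam (x / 4) C₁ ϖ' Adm q →
      ∀ i ≤ M, ∀ j ≤ M, ∀ U : ℕ, 2 * U ≤ i → i + U ≤ M → (U : ℝ) ≤ gam n * (M - j) →
      ∀ δ, Adm i j δ → ∀ E : D.Ω → Prop, ϖ ≤ Pb q E →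
      ((ctd n gam : ℝ) - 1 - x) * (U * z) * Real.log 2 - (C₁ + 4) * z ≤
        CH (Pool.Agent.H49.Ent.cond q E True)
          (fun ω => pr D n gam i j (2 * (U * z)) (δ (Wc D i j ω))
            (hvS D n i j (U * z) (D.Ψ i j) ω))
          (fun ω => (sld n gam (hvS D n i j (U * z) (D.Ψ i j) ω), Wc D i j ω)) := by
  classical
  have hnR : (1 : ℝ) ≤ n := by exact_mod_cast hn
  have hn0 : (0 : ℝ) < n := by linarith
  obtain ⟨ζ, hζ⟩ : ∃ ζ : ℝ, ζ = x / (2 * n) := ⟨_, rfl⟩
  have hζ0 : 0 < ζ := by
    rw [hζ]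
    positivity
  obtain ⟨ϖ₁, hϖ₁⟩ : ∃ ϖ₁ : ℝ, ϖ₁ = ζ * ϖ / (n + 1) := ⟨_, rfl⟩
  have hϖ₁0 : 0 < ϖ₁ := by
    rw [hϖ₁]
    positivity
  obtain ⟨κ₁, ϖ', z₁, hκ₁, hϖ', hpiv⟩ := b2_piv n (x / 2) C₁ hn (by positivity) hC₁ M ϖ₁ hϖ₁0
  have l13 : 0 ≤ Real.log 13 := Real.log_nonneg (by norm_num)
  have hl0 : 0 < Real.log 2 := Real.log_pos (by norm_num)
  have hl1 : Real.log 2 ≤ 1 := by linarith [Real.log_two_lt_d9]
  obtain ⟨c₀, hc₀⟩ : ∃ c₀ : ℝ, c₀ = (n + 1) * Real.log 13 + n * 2 := ⟨_, rfl⟩
  obtain ⟨z₂, hz₂⟩ := exists_nat_ge (2 * (4 * n + 1) / ϖ₁)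
  obtain ⟨z₃, hz₃⟩ := exists_nat_ge c₀
  refine ⟨min κ₁ (ϖ₁ / 4), ϖ', max z₁ (max z₂ z₃), lt_min hκ₁ (by positivity), hϖ', ?_⟩
  intro K lam gam J a₀ w₀ z B D q Adm hB hz hO hNF i hi j hj U h2U hiU hUg δ hδ E hE
  have hz1 : z₁ ≤ z := (le_max_left _ _).trans hz
  have hzr2 : (z₂ : ℝ) ≤ z := by
    exact_mod_cast ((le_max_left _ _).trans (le_max_right _ _)).trans hz
  have hzr3 : (z₃ : ℝ) ≤ z := by
    exact_mod_cast ((le_max_right _ _).trans (le_max_right _ _)).trans hz
  have hzc : c₀ ≤ z := hz₃.trans hzr3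
  have hzϖ : 2 * (4 * (n : ℝ) + 1) ≤ ϖ₁ * z := by
    have h1 := hz₂.trans hzr2
    rw [div_le_iff₀ hϖ₁0] at h1
    linarith
  have hz0 : (0 : ℝ) ≤ z := Nat.cast_nonneg z
  have hq := hO.isLaw
  have hO1 : D.Ok2 n K J a₀ w₀ z M lam gam κ₁ C₁ q := hO.mono_κ (min_le_left _ _)
  have hE' : ϖ ≤ Pe q E := by rwa [← Pb_eq_Pe]
  obtain ⟨hc1, hcn⟩ := ctd_pos hn gam
  have hUz : (0 : ℝ) ≤ U * z := by positivity
  have hn1 : ((n - 1 : ℕ) : ℝ) = (n : ℝ) - 1 := by
    rw [Nat.cast_sub hn, Nat.cast_one]
  have hUzl : 0 ≤ x * ((U * z) * Real.log 2) := by positivity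
  have hnc : 0 ≤ ((n : ℝ) - ctd n gam) := by linarith
  have hnc2 : ((n : ℝ) - ctd n gam) * (2 * Real.log 2) ≤ n * 2 :=
    mul_le_mul (by linarith) (by linarith) (by positivity) (by linarith)
  obtain ⟨L, hL⟩ : ∃ L : ℝ, L = ((ctd n gam : ℝ) - 1 - x / 2) * (U * z) * Real.log 2 -
    (C₁ + 4) * z := ⟨_, rfl⟩
  have h1 := glue_low hq hϖ hE' (ϖ' := ϖ₁) (L := L) (B := n * (U * z) * Real.log 2) (ζ := ζ)
    (fun ω => pr D n gam i j (2 * (U * z)) (δ (Wc D i j ω)) (hvS D n i j (U * z) (D.Ψ i j) ω))
    (fun ω => (sld n gam (hvS D n i j (U * z) (D.Ψ i j) ω), Wc D i j ω))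
    (fun ω => (⟨pvt D n gam i j (2 * (U * z)) (δ (Wc D i j ω)),
      Nat.lt_succ_of_le (pvt_le _ _ _ _ _ _ _)⟩ : Fin (n + 1)))
    (by
      rw [hL]
      have h2 : 0 ≤ (C₁ + 4) * z := by positivity
      have h3 : ((ctd n gam : ℝ) - 1 - x / 2) * (U * z) * Real.log 2 ≤
          n * (U * z) * Real.log 2 := by
        refine mul_le_mul_of_nonneg_right (mul_le_mul_of_nonneg_right ?_ hUz) hl0.le
        linarith
      linarith) (by positivity) hϖ₁0.le
    (by
      rw [Fintype.card_fin, hϖ₁]
      push_cast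
      refine le_of_eq ?_
      field_simp)
    (by
      intro v hv hv0
      obtain ⟨E', hE'd⟩ : ∃ E' : D.Ω → Prop, E' = fun ω => E ω ∧
        (⟨pvt D n gam i j (2 * (U * z)) (δ (Wc D i j ω)),
          Nat.lt_succ_of_le (pvt_le _ _ _ _ _ _ _)⟩ : Fin (n + 1)) = v := ⟨_, rfl⟩
      rw [← hE'd] at hv hv0 ⊢
      have hlaw := isLaw_cond hq hv0
      have hpE : ∀ ω, 0 < Pool.Agent.H49.Ent.cond q E' True ω → 0 < q ω ∧ E' ω := fun ω hω =>
        ⟨((cond_pos_iff hq.nonneg E' True ω).1 hω).1,
          of_eq_true ((cond_pos_iff hq.nonneg E' True ω).1 hω).2⟩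
      have hpv : ∀ ω, E' ω → pvt D n gam i j (2 * (U * z)) (δ (Wc D i j ω)) = v := by
        intro ω hω
        rw [hE'd] at hω
        have := hω.2
        rw [← this]
      rcases Nat.eq_zero_or_pos (v : ℕ) with hv1 | hv1
      · -- no pivot
        have a1 := base_ev (n := n) hϖ₁0 (min_le_right _ _) (by positivity) hzϖ hO hi hj hiU E' hv
        have a2 := to_cond (gam := gam) hO hi hj (U * z) hlaw (fun ω hω => (hpE ω hω).1) _
          (fun ω => pr D n gam i j (2 * (U * z)) (δ (Wc D i j ω))
            (hvS D n i j (U * z) (D.Ψ i j) ω)) _ a1 (e := 0) (by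
          refine le_of_eq (CH_eq_zero hlaw.nonneg ?_)
          intro ω ω' hω hω' e
          simp only [Prod.mk.injEq] at e
          obtain ⟨⟨e1, e2⟩, -⟩ := e
          funext l
          have g0 : (l : ℕ) < n := by
            have := l.isLt
            omega
          have g1 : rdg n (U * z) (yn D i j) ω l = hvS D n i j (U * z) (D.Ψ i j) ω
            ⟨(l : ℕ), g0⟩ := rfl
          have g2 : rdg n (U * z) (yn D i j) ω' l = hvS D n i j (U * z) (D.Ψ i j) ω'
            ⟨(l : ℕ), g0⟩ := rfl
          rw [g1, g2]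
          by_cases h : gam ((l : ℕ) + 1) = gam n
          · have e3 := congrFun e1 ⟨(l : ℕ), g0⟩
            unfold pr at e3
            rw [if_pos ((hpv ω (hpE ω hω).2).trans hv1),
              if_pos ((hpv ω' (hpE ω' hω').2).trans hv1)] at e3
            have g3 : (l : ℕ) + 1 ≠ n := by
              have := l.isLt
              omega
            rw [if_pos ⟨h, g3⟩, if_pos ⟨h, g3⟩] at e3
            exact e3
          · have e3 := congrFun e2 ⟨(l : ℕ), g0⟩
            unfold sld at e3
            rw [if_pos h, if_pos h] at e3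
            exact e3)
        refine le_trans ?_ a2
        rw [hL, hn1]
        push_cast
        have : 0 ≤ C₁ * z := by positivity
        rw [hc₀] at hzc
        have : 0 ≤ ((n : ℝ) + 1) * Real.log 13 := by positivity
        nlinarith
      · -- the pivot
        obtain ⟨p, hp⟩ : ∃ p : ℕ, p = v := ⟨_, rfl⟩
        rw [← hp] at hpv hv1
        have hpn : p ≤ n := by
          have := v.isLt
          omega
        obtain ⟨ω₀, hω₀⟩ : ∃ ω, 0 < Pool.Agent.H49.Ent.cond q E' True ω := by
          by_contra hcon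
          push Not at hcon
          have : ∑ ω, Pool.Agent.H49.Ent.cond q E' True ω ≤ 0 :=
            Finset.sum_nonpos fun ω _ => hcon ω
          rw [hlaw.sum_one] at this
          linarith
        have hgp := (pvt_spec (hpv ω₀ (hpE ω₀ hω₀).2) hv1).1
        have hnt : ∀ ω, E' ω → NtP D n p gam i j (2 * (U * z)) (δ (Wc D i j ω)) := fun ω hω =>
          (pvt_spec (hpv ω hω) hv1).2
        have a1 := hpiv K lam gam J a₀ w₀ z B D q Adm hB hz1 hO1 (by
          have e : x / 2 / 2 = x / 4 := by ring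
          rw [e]
          exact hNF) i hi j hj U h2U hiU hUg p hv1 hpn hgp δ hδ E' (by rwa [Pb_eq_Pe]) hnt
        have a2 := to_cond (gam := gam) hO hi hj (U * z) hlaw (fun ω hω => (hpE ω hω).1) _
          (fun ω => pr D n gam i j (2 * (U * z)) (δ (Wc D i j ω))
            (hvS D n i j (U * z) (D.Ψ i j) ω)) _ a1 (e := (n + 1) * Real.log 13) (by
          have b1 := CH_pfam hlaw.nonneg hlaw.sum_one (hm D n p δ i j (U * z))
            (fun ω => ((pr D n gam i j (2 * (U * z)) (δ (Wc D i j ω))
              (hvS D n i j (U * z) (D.Ψ i j) ω),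
              sld n gam (hvS D n i j (U * z) (D.Ψ i j) ω)), Wc D i j ω)) (D := 6)
            (by norm_num) (by
              intro ω ω' hω hω' e l
              simp only [Prod.mk.injEq] at e
              obtain ⟨⟨e1, e2⟩, e3⟩ := e
              obtain ⟨o1, o2⟩ := hpE ω hω
              obtain ⟨o1', o2'⟩ := hpE ω' hω'
              unfold hm
              by_cases hl : 1 ≤ (l : ℕ) ∧ (l : ℕ) ≠ p
              · rw [if_pos hl, if_pos hl, hd_eq, hd_eq]
                have hln : (l : ℕ) - 1 < n := by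
                  have := l.isLt
                  omega
                have hl1' : (l : ℕ) - 1 + 1 = l := by omega
                obtain ⟨k1, k2, k3⟩ := hnt ω o2
                have p0 : (0 : ℝ) < 2 ^ (U * z) := by positivity
                have hvp := nv_le (D := D) (s := 0) k1 (k2 l hl.1 (by omega))
                rw [pow_zero, div_one] at hvp
                rw [← e3]
                -- the rounded numbers
                have key : ∀ o : D.Ω, |(2 : ℝ) ^ (U * z) * (yn D i j o l -
                    nv D p δ i j (Wc D i j ω) l * yn D i j o p) -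
                    ((⌊(2 : ℝ) ^ (U * z) * yn D i j o l⌋ : ℤ) - nv D p δ i j (Wc D i j ω) l *
                      (⌊(2 : ℝ) ^ (U * z) * yn D i j o p⌋ : ℤ))| ≤ 2 := by
                  intro o
                  have f1 := Int.floor_le ((2 : ℝ) ^ (U * z) * yn D i j o l)
                  have f2 := Int.lt_floor_add_one ((2 : ℝ) ^ (U * z) * yn D i j o l)
                  have f3 := Int.floor_le ((2 : ℝ) ^ (U * z) * yn D i j o p)
                  have f4 := Int.lt_floor_add_one ((2 : ℝ) ^ (U * z) * yn D i j o p)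
                  have f5 : (2 : ℝ) ^ (U * z) * (yn D i j o l -
                    nv D p δ i j (Wc D i j ω) l * yn D i j o p) -
                    ((⌊(2 : ℝ) ^ (U * z) * yn D i j o l⌋ : ℤ) - nv D p δ i j (Wc D i j ω) l *
                      (⌊(2 : ℝ) ^ (U * z) * yn D i j o p⌋ : ℤ)) =
                    ((2 : ℝ) ^ (U * z) * yn D i j o l - (⌊(2 : ℝ) ^ (U * z) * yn D i j o l⌋ : ℤ)) -
                    nv D p δ i j (Wc D i j ω) l * ((2 : ℝ) ^ (U * z) * yn D i j o p -
                      (⌊(2 : ℝ) ^ (U * z) * yn D i j o p⌋ : ℤ)) := by ring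
                  rw [f5]
                  refine (abs_sub _ _).trans ?_
                  rw [abs_mul]
                  have f6 : |(2 : ℝ) ^ (U * z) * yn D i j o l -
                    (⌊(2 : ℝ) ^ (U * z) * yn D i j o l⌋ : ℤ)| ≤ 1 := by
                    rw [abs_le]
                    constructor <;> linarith
                  have f7 : |(2 : ℝ) ^ (U * z) * yn D i j o p -
                    (⌊(2 : ℝ) ^ (U * z) * yn D i j o p⌋ : ℤ)| ≤ 1 := by
                    rw [abs_le]
                    constructor <;> linarith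
                  have f8 := mul_le_mul hvp f7 (abs_nonneg _) zero_le_one
                  linarith
                have kω := key ω
                have kω' := key ω'
                by_cases h : gam l = gam n
                · -- in the group
                  have e4 := congrFun e1 ⟨(l : ℕ) - 1, hln⟩
                  unfold pr at e4
                  have n1 : ¬ pvt D n gam i j (2 * (U * z)) (δ (Wc D i j ω)) = 0 := by
                    rw [hpv ω o2]
                    omega
                  have n2 : ¬ pvt D n gam i j (2 * (U * z)) (δ (Wc D i j ω')) = 0 := by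
                    rw [hpv ω' o2']
                    omega
                  rw [if_neg n1, if_neg n2] at e4
                  simp only [hl1'] at e4
                  rw [if_pos ⟨h, by rw [hpv ω o2]; exact hl.2⟩,
                    if_pos ⟨h, by rw [hpv ω' o2']; exact hl.2⟩, hpv ω o2, hpv ω' o2',
                    dgt_hv i j _ ω hv1 hpn, dgt_hv i j _ ω' hv1 hpn, hv_yn, hv_yn, ← e3] at e4
                  simp only [hl1'] at e4
                  have e5 := (Int.abs_sub_lt_one_of_floor_eq_floor e4).le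
                  change |(((⌊(2 : ℝ) ^ (U * z) * yn D i j ω l⌋ : ℤ) : ℝ) -
                    nv D p δ i j (Wc D i j ω) l * ((⌊(2 : ℝ) ^ (U * z) * yn D i j ω p⌋ : ℤ) : ℝ)) -
                    (((⌊(2 : ℝ) ^ (U * z) * yn D i j ω' l⌋ : ℤ) : ℝ) -
                    nv D p δ i j (Wc D i j ω) l *
                      ((⌊(2 : ℝ) ^ (U * z) * yn D i j ω' p⌋ : ℤ) : ℝ))| ≤ 1 at e5
                  refine (fl_dif _ _).trans ?_
                  rw [abs_le] at kω kω' e5
                  have e6 : |(2 : ℝ) ^ (U * z) * (yn D i j ω l -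
                      nv D p δ i j (Wc D i j ω) l * yn D i j ω p) -
                      (2 : ℝ) ^ (U * z) * (yn D i j ω' l -
                      nv D p δ i j (Wc D i j ω) l * yn D i j ω' p)| ≤ 5 := by
                    rw [abs_le]
                    constructor <;> linarith [kω.1, kω.2, kω'.1, kω'.2, e5.1, e5.2]
                  linarith
                · -- another coordinate
                  have e4 := congrFun e2 ⟨(l : ℕ) - 1, hln⟩
                  unfold sld at e4
                  simp only [hl1'] at e4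
                  rw [if_pos h, if_pos h, hv_yn, hv_yn] at e4
                  simp only [hl1'] at e4
                  have e5 := (Int.abs_sub_lt_one_of_floor_eq_floor e4).le
                  have hlt : (l : ℕ) < n := by
                    rcases Nat.lt_or_ge (l : ℕ) n with h9 | h9
                    · exact h9
                    · have : (l : ℕ) = n := by
                        have := l.isLt
                        omega
                      exact absurd (by rw [this]) h
                  have f1 := nv_le (D := D) k1 (k3 l hl.1 hlt h)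
                  have f2 : ∀ o, 0 < q o → |(2 : ℝ) ^ (U * z) *
                      (nv D p δ i j (Wc D i j ω) l * yn D i j o p)| ≤ 1 := by
                    intro o ho
                    have f3 := yn_le hO hi hj ho hv1 hpn
                    rw [abs_mul, abs_mul, abs_of_pos p0]
                    have f4 : |nv D p δ i j (Wc D i j ω) l| * |yn D i j o p| ≤
                        1 / 2 ^ (2 * (U * z)) * 1 :=
                      mul_le_mul f1 f3 (abs_nonneg _) (by positivity)
                    calc (2 : ℝ) ^ (U * z) * (|nv D p δ i j (Wc D i j ω) l| * |yn D i j o p|)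
                        ≤ 2 ^ (U * z) * (1 / 2 ^ (2 * (U * z)) * 1) :=
                          mul_le_mul_of_nonneg_left f4 p0.le
                      _ = 1 / 2 ^ (U * z) := by
                          rw [two_mul, pow_add]
                          field_simp
                      _ ≤ 1 := by
                          rw [div_le_one p0]
                          exact one_le_pow₀ (by norm_num)
                  have f3 := f2 ω o1
                  have f4 := f2 ω' o1'
                  refine (fl_dif _ _).trans ?_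
                  rw [mul_sub, mul_sub]
                  rw [abs_le] at f3 f4 e5
                  have e6 : |(2 : ℝ) ^ (U * z) * yn D i j ω l - (2 : ℝ) ^ (U * z) *
                      (nv D p δ i j (Wc D i j ω) l * yn D i j ω p) -
                      ((2 : ℝ) ^ (U * z) * yn D i j ω' l - (2 : ℝ) ^ (U * z) *
                      (nv D p δ i j (Wc D i j ω) l * yn D i j ω' p))| ≤ 3 := by
                    rw [abs_le]
                    constructor <;> linarith [f3.1, f3.2, f4.1, f4.2, e5.1, e5.2]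
                  linarith
              · rw [if_neg hl, if_neg hl, sub_self, abs_zero]
                norm_num)
          rw [Fintype.card_fin] at b1
          have e9 : (2 : ℝ) * 6 + 1 = 13 := by norm_num
          rw [e9] at b1
          push_cast at b1
          exact b1)
        refine le_trans ?_ a2
        rw [hL]
        push_cast
        rw [hc₀] at hzc
        nlinarith)
  refine le_trans (le_of_eq ?_) h1
  rw [hL, hζ]
  field_simp
  ring

end Pool.TT5
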