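import Pool.Agent.H5.TT.B2v
import Pool.Agent.H30.TC.Cor

/-!
# The fields `b2`, `Q_b` of a place, in the letters of TC
-/

set_option autoImplicit false

namespace Pool.TT5

open Finset Real MvPolynomial
open Pool.Agent.H49.Ent Pool.Agent.H32.Dense Pool.STK Pool.STAT Pool.K2S
open Pool.BFL (Pb)
open Pool.TC
open Pool.TC12 (YH hh yl Cy yl_sub)

/-- The enumerations of the group and of the slow coordinates. -/
theorem enA_hyp {D : NDat2} {n d K K' J a₀ w₀ z M w i j r r2 r' r'' y a X : ℕ} {th : ℝ}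
    {lam gam : ℕ → ℝ} {κ C₁ C : ℝ} {q : D.Ω → ℝ} {E : D.Ω → Prop} {P : D.Γ × D.Γ → ℕ → PN}
    {S : Slo D} {c k0 k1 : ℕ} {ys : Fin (k0 + k1) → ℕ} {gs : Fin c → ℕ}
    (h : Hyp D n d K K' J a₀ w₀ z M w i j r r2 r' r'' y a X th lam gam κ C₁ C q E P S ys gs) :
    EnA n (fun l => th ≤ gam l) gs ys where
  Pn := h.plc.stp.gn
  gi := h.gs_in.injective
  g1 := fun u => h.gs_gr u
  go := fun l l1 ln hl => h.gs_on l ⟨l1, ln, hl⟩
  yi := h.ys_in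
  y1 := fun a => ⟨(h.ys_sl a).1, (h.ys_sl a).2.1, not_le.2 (h.ys_sl a).2.2⟩
  yo := fun l l1 ln hl => h.ys_on ⟨l1, ln, not_le.1 hl⟩

/-- **The heights of a place**, from 12's `YH` and a chart. -/
theorem yyH_of {D : NDat2} {n d K K' J a₀ w₀ z M i₀ i j r v t U : ℕ} {lam gam : ℕ → ℝ}
    {κ C₁ C C' : ℝ} {q : D.Ω → ℝ} {E : D.Ω → Prop} {P : D.Γ × D.Γ → ℕ → PN} {Pg : ℕ → Prop}
    (H : YH D n d K J a₀ w₀ z M i₀ i j r lam gam κ C₁ C q E P) (hC' : Cy C₁ C + 1 ≤ C')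
    {Q : D.Γ × ℕ → ℕ → PN} {A B : D.Λ × ℕ → ℕ → ℝ} (hch : D.Cht n K' J w₀ z i j v t U q E Q A B)
    (hdf : ∀ ω ω', 0 < q ω → 0 < q ω' → E ω → E ω' → D.c i j ω = D.c i j ω' → D.T ω = D.T ω' →
      (∀ m, 1 ≤ m → m < n → ¬ Pg m →
        |yl D i₀ i j r P q E ω m - yl D i₀ i j r P q E ω' m| ≤ 1 / 2 ^ (U * z)) →
      ∀ l, 1 ≤ l → l ≤ n → |(D.yc J w₀ z i j v Q ω l - D.yc J w₀ z i j v Q ω' l) -
        (yl D i₀ i j r P q E ω l - yl D i₀ i j r P q E ω' l)| ≤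
          Real.exp (C' * z) / 2 ^ (U * z)) :
    YyH D n K' J w₀ z i j v t U Pg C' q E (yl D i₀ i j r P q E) where
  bd := by
    intro ω _ _ l l1 ln
    refine (H.yl_bd ω l1 ln).trans ?_
    have hz : (1 : ℝ) ≤ z := by exact_mod_cast H.z1
    have h2 : (2 : ℝ) ≤ Real.exp z := by
      have := Real.add_one_le_exp (z : ℝ)
      linarith
    calc 2 * Real.exp (Cy C₁ C * z) ≤ Real.exp z * Real.exp (Cy C₁ C * z) :=
          mul_le_mul_of_nonneg_right h2 (Real.exp_pos _).le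
      _ = Real.exp ((Cy C₁ C + 1) * z) := by
          rw [← Real.exp_add]
          congr 1
          ring
      _ ≤ _ := Real.exp_le_exp.2 (mul_le_mul_of_nonneg_right hC' (by linarith))
  toV := by
    intro ω ω' p1 p2 e1 e2 e3 e4 l l1 ln δ hδ h
    refine (H.y_toV p1 p2 e1 e2 e3 e4 l1 ln.le hδ h).trans ?_
    refine mul_le_mul_of_nonneg_right (Real.exp_le_exp.2 ?_) hδ
    exact mul_le_mul_of_nonneg_right (by linarith) (Nat.cast_nonneg z)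
  cht := ⟨Q, A, B, hch, hdf⟩

/-- The same, if the heights differ by functions of the closed context and of the exact time. -/
theorem yyH_of' {D : NDat2} {n d K K' J a₀ w₀ z M i₀ i j r v t U : ℕ} {lam gam : ℕ → ℝ}
    {κ C₁ C C' : ℝ} {q : D.Ω → ℝ} {E : D.Ω → Prop} {P : D.Γ × D.Γ → ℕ → PN} {Pg : ℕ → Prop}
    (H : YH D n d K J a₀ w₀ z M i₀ i j r lam gam κ C₁ C q E P) (hC' : Cy C₁ C + 1 ≤ C')
    {Q : D.Γ × ℕ → ℕ → PN} {A B : D.Λ × ℕ → ℕ → ℝ} (hch : D.Cht n K' J w₀ z i j v t U q E Q A B)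
    (hdf : ∀ ω ω', 0 < q ω → 0 < q ω' → E ω → E ω' → D.c i j ω = D.c i j ω' → D.T ω = D.T ω' →
      ∀ l, 1 ≤ l → l ≤ n → D.yc J w₀ z i j v Q ω l - D.yc J w₀ z i j v Q ω' l =
        2 ^ D.g i j l * (hh D i₀ j r P ω l - hh D i₀ j r P ω' l)) :
    YyH D n K' J w₀ z i j v t U Pg C' q E (yl D i₀ i j r P q E) :=
  yyH_of H hC' hch (fun ω ω' p1 p2 e1 e2 e3 e4 _ l l1 ln => by
    rw [hdf ω ω' p1 p2 e1 e2 e3 e4 l l1 ln, yl_sub p1 p2 e1 e2 e3 e4, sub_self, abs_zero]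
    positivity)

/-- **The visible side of a place.** The directions are vectors in `Fin c → ℝ`. -/
noncomputable def visQ (D : NDat2) (n i j : ℕ) (yy : D.Ω → ℕ → ℝ) {c k : ℕ} (J w X : ℕ)
    (ys : Fin k → ℕ) (gs : Fin c → ℕ) : Vis D.Ω c :=
  visOf D i j yy J w X ys gs (Fin c → ℝ) (fun e _ _ z => QB n gs e z)

/-- **The field `b2`** of `Vis.Ok` for `visQ`, for all the laws `cond q G True`. -/
theorem b2_fld (n c k t₀ : ℕ) (x C C₁ ϖ : ℝ) (hn : 1 ≤ n) (hx : 0 < x) (hC : 0 ≤ C)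
    (hC₁ : 0 ≤ C₁) (hϖ : 0 < ϖ) : ∃ (κ₀ : ℝ) (U₀ z₀ : ℕ), 0 < κ₀ ∧
    ∀ (D : NDat2) (K K' J a₀ w₀ z M i j v t U w : ℕ) (lam gam : ℕ → ℝ) (κ : ℝ) (q : D.Ω → ℝ)
      (E : D.Ω → Prop) (yy : D.Ω → ℕ → ℝ) (Tl P : ℕ → Prop) (gs : Fin c → ℕ) (ys : Fin k → ℕ),
      z₀ ≤ z → U₀ ≤ U → 0 < κ → κ ≤ κ₀ → D.Ok2 n K J a₀ w₀ z M lam gam κ C₁ q →
      D.NFt Tl n J w₀ z M K' C₁ κ q → (∀ l, 1 ≤ l → l < n → (P l ↔ Tl l)) → EnA n P gs ys →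
      i + 2 * U ≤ M → j + 2 * U ≤ M → j < v → v ≤ M → 1 ≤ t → t + (v - j) ≤ t₀ →
      w ≤ w₀ + v * z → w₀ + v * z ≤ J → YyH D n K' J w₀ z i j v t U P C q E yy →
      ∀ G : D.Ω → Prop, (∀ ω, G ω → E ω) → 1 / 2 ≤ Pb q G →
      ∀ (f : (visQ D n i j yy J w (U * z) ys gs).ρ → (visQ D n i j yy J w (U * z) ys gs).Dr)
        (G' : D.Ω → Prop), ϖ ≤ Pe (Pool.Agent.H49.Ent.cond q G True) G' →
      ((c : ℝ) - 1 - x) * ((U * z : ℕ) : ℝ) * Real.log 2 ≤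
        CH (Pool.Agent.H49.Ent.cond (Pool.Agent.H49.Ent.cond q G True) G' True)
          (fun ω => (visQ D n i j yy J w (U * z) ys gs).Q
            (f ((visQ D n i j yy J w (U * z) ys gs).R ω))
            ((visQ D n i j yy J w (U * z) ys gs).Wd ω)
            ((visQ D n i j yy J w (U * z) ys gs).R ω)
            ((visQ D n i j yy J w (U * z) ys gs).Z ω))
          (fun ω => ((visQ D n i j yy J w (U * z) ys gs).Wd ω,
            (visQ D n i j yy J w (U * z) ys gs).R ω)) := by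
  obtain ⟨κ₀, U₀, z₀, h0, H⟩ := b2_vis n c k t₀ x C C₁ ϖ hn hx hC hC₁ hϖ
  refine ⟨κ₀, U₀, z₀, h0, ?_⟩
  intro D K K' J a₀ w₀ z M i j v t U w lam gam κ q E yy Tl P gs ys h1 h2 h3 h4 h5 h6 h7 h8 h9 h10
    h11 h12 h13 h14 h15 h16 h17 G h18 h19 f G' h20
  exact H D K K' J a₀ w₀ z M i j v t U w lam gam κ q E yy Tl P gs ys h1 h2 h3 h4 h5 h6 h7 h8 h9 h10
    h11 h12 h13 h14 h15 h16 h17 G h18 h19 f G' h20

/-- **The field `Q_b`** of `Vis.Ok` for `visQ`. -/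
theorem qb_fld {D : NDat2} {n i j J w X c k : ℕ} {yy : D.Ω → ℕ → ℝ} {ys : Fin k → ℕ}
    {gs : Fin c → ℕ} {B γ : ℝ} (hB : 2 * B + 5 ≤ 2 ^ (γ * X))
    (h : ∀ ω u, |yy ω (gs u)| ≤ B) (ω : D.Ω) (e : (visQ D n i j yy J w X ys gs).Dr) (u : Fin c) :
    |((visQ D n i j yy J w X ys gs).Q e ((visQ D n i j yy J w X ys gs).Wd ω)
      ((visQ D n i j yy J w X ys gs).R ω) ((visQ D n i j yy J w X ys gs).Z ω) u : ℝ)| ≤
      2 ^ (γ * X) * 2 ^ X :=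
  qb_vis hB (h ω) e u

end Pool.TT5
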