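import Pool.Agent.H5.TT.Pcs
import Pool.Agent.H7.MIC.Ind

/-!
# Fullness modulo a direction: from the rows of the target

Heights over the visible chart at `(i, j)`. A direction `δ` is a function of the context at `(i, j)`
and of the exact time. `hd`: the height of the coordinate `l` modulo the direction with the pivot `k`,
`r` digits in natural units.

`NFd`: the rows of the target modulo the direction are full given the base modulo the direction, for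
directions in a given class `Adm` and pivots `k < n` with the slope of the target. `b2_piv`: then all
heights modulo the direction are full, also if the pivot is the target. `b2_all`: the pivot is a
function of the direction; if there is no natural pivot, the direction is the one of the target.
-/

set_option autoImplicit false

namespace Pool.TT5

open Finset Real MvPolynomial
open Pool.Agent.H49.Ent Pool.Agent.H32.Dense Pool.STK Pool.STAT Pool.KA Pool.KSAT Pool.K2S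
open Pool.MIC7 (Fv log_Fv vd_mem)
open Pool.BFL (Pb)

/-- The context and the exact time. -/
def Wc (D : NDat2) (i j : ℕ) (ω : D.Ω) : D.Γ × ℕ := (D.c i j ω, D.T ω)

/-- The height of `l` modulo the direction `δ` with the pivot `k`, `r` digits in natural units. -/
noncomputable def hd (D : NDat2) (k : ℕ) (δ : D.Γ × ℕ → ℕ → ℝ) (i j l r : ℕ) (ω : D.Ω) : ℤ :=
  ⌊(2 : ℝ) ^ (D.g i j l + r) *
    (D.sh i j ω l - δ (Wc D i j ω) l / δ (Wc D i j ω) k * D.sh i j ω k)⌋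

/-- All heights modulo the direction. -/
noncomputable def hm (D : NDat2) (n p : ℕ) (δ : D.Γ × ℕ → ℕ → ℝ) (i j r : ℕ) (ω : D.Ω)
    (l : Fin (n + 1)) : ℤ :=
  if 1 ≤ (l : ℕ) ∧ (l : ℕ) ≠ p then hd D p δ i j l r ω else 0

open Classical in
/-- The base modulo the direction: `r` digits for the coordinates in `P`, `B r` for the others. -/
noncomputable def hb (D : NDat2) (n k : ℕ) (P : ℕ → Prop) (B : ℕ) (δ : D.Γ × ℕ → ℕ → ℝ)
    (i j r : ℕ) (ω : D.Ω) (l : Fin n) : ℤ :=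
  if 1 ≤ (l : ℕ) ∧ (l : ℕ) ≠ k then hd D k δ i j l (if P l then r else B * r) ω else 0

/-- The direction `v` has the pivot `k` in the base, the component of the target is at most `t`
digits larger, the components of the coordinates with other slopes are `s` digits smaller. -/
def NtK (D : NDat2) (n k : ℕ) (gam : ℕ → ℝ) (i j s t : ℕ) (v : ℕ → ℝ) : Prop :=
  v k ≠ 0 ∧ (∀ l, 1 ≤ l → l < n → |v l| * 2 ^ D.g i j l ≤ |v k| * 2 ^ D.g i j k) ∧
    |v n| * 2 ^ D.g i j n ≤ |v k| * 2 ^ (D.g i j k + t) ∧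
    ∀ l, 1 ≤ l → l < n → gam l ≠ gam n →
      |v l| * 2 ^ (D.g i j l + s) ≤ |v k| * 2 ^ D.g i j k

/-- The direction `v` has the pivot `p`, the components of the coordinates with other slopes are `s`
digits smaller. -/
def NtP (D : NDat2) (n p : ℕ) (gam : ℕ → ℝ) (i j s : ℕ) (v : ℕ → ℝ) : Prop :=
  v p ≠ 0 ∧ (∀ l, 1 ≤ l → l ≤ n → |v l| * 2 ^ D.g i j l ≤ |v p| * 2 ^ D.g i j p) ∧
    ∀ l, 1 ≤ l → l < n → gam l ≠ gam n →
      |v l| * 2 ^ (D.g i j l + s) ≤ |v p| * 2 ^ D.g i j p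

/-- **The rows of the target modulo a direction** in the class `Adm`. -/
def NFd (D : NDat2) (n z M B : ℕ) (gam : ℕ → ℝ) (x C₁ ϖ : ℝ)
    (Adm : ℕ → ℕ → (D.Γ × ℕ → ℕ → ℝ) → Prop) (q : D.Ω → ℝ) : Prop :=
  ∀ i ≤ M, ∀ j ≤ M, ∀ U t : ℕ, 2 * (U + t) ≤ i → i + U ≤ M → (U : ℝ) ≤ gam n * (M - j) →
    ∀ k, 1 ≤ k → k < n → gam k = gam n → ∀ δ, Adm i j δ → ∀ E : D.Ω → Prop, ϖ ≤ Pb q E →
    (∀ ω, E ω → NtK D n k gam i j ((U + t) * z) (t * z) (δ (Wc D i j ω))) →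
    (1 - x) * (U * z) * Real.log 2 - C₁ * z ≤
      CH (Pool.Agent.H49.Ent.cond q E True) (hd D k δ i j n (U * z))
        (fun ω => (hd D k δ i j n 0 ω,
          (hb D n k (fun l => gam l = gam n) B δ i j ((U + t) * z) ω, Wc D i j ω)))

/-! ### Digits -/

theorem fl_dv (y : ℝ) (s : ℕ) : ⌊(2 : ℝ) ^ s * y⌋ / 2 ^ s = ⌊y⌋ := by
  have h : ⌊(2 : ℝ) ^ s * y / ((2 ^ s : ℕ) : ℝ)⌋ = ⌊(2 : ℝ) ^ s * y⌋ / ((2 ^ s : ℕ) : ℤ) :=
    Int.floor_div_natCast _ _
  push_cast at h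
  rw [← h]
  congr 1
  field_simp

theorem fl_of {a r r' : ℕ} (h : r ≤ r') {x x' : ℝ}
    (e : ⌊(2 : ℝ) ^ (a + r') * x⌋ = ⌊(2 : ℝ) ^ (a + r') * x'⌋) :
    ⌊(2 : ℝ) ^ (a + r) * x⌋ = ⌊(2 : ℝ) ^ (a + r) * x'⌋ := by
  have key : ∀ y : ℝ, ⌊(2 : ℝ) ^ (a + r) * y⌋ = ⌊(2 : ℝ) ^ (a + r') * y⌋ / 2 ^ (r' - r) := by
    intro y
    rw [← fl_dv ((2 : ℝ) ^ (a + r) * y) (r' - r), ← mul_assoc, ← pow_add]
    congr 4
    omega
  rw [key x, key x', e]

section

variable {D : NDat2} {n K J a₀ w₀ z M : ℕ} {lam gam : ℕ → ℝ} {κ C₁ : ℝ} {q : D.Ω → ℝ}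

/-- The natural heights. -/
noncomputable def yn (D : NDat2) (i j : ℕ) (ω : D.Ω) (l : ℕ) : ℝ := 2 ^ D.g i j l * D.sh i j ω l

theorem yn_le (hO : D.Ok2 n K J a₀ w₀ z M lam gam κ C₁ q) {i j : ℕ} (hi : i ≤ M) (hj : j ≤ M)
    {ω : D.Ω} (hω : 0 < q ω) {l : ℕ} (h1 : 1 ≤ l) (h2 : l ≤ n) : |yn D i j ω l| ≤ 1 := by
  have h := hO.pos i hi j hj ω hω l h1 h2
  unfold yn
  rw [abs_mul, abs_of_pos (by positivity : (0 : ℝ) < 2 ^ D.g i j l)]
  rw [le_div_iff₀ (by positivity)] at h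
  linarith

theorem rdg_vd (i j r : ℕ) : rdg n r (yn D i j) = D.vd n i j r := by
  funext ω l
  unfold rdg yn NDat2.vd
  congr 1
  rw [pow_add]
  ring

/-- Natural directions. -/
noncomputable def nv (D : NDat2) (k : ℕ) (δ : D.Γ × ℕ → ℕ → ℝ) (i j : ℕ) (w : D.Γ × ℕ)
    (l : ℕ) : ℝ := δ w l * 2 ^ D.g i j l / (δ w k * 2 ^ D.g i j k)

theorem hd_eq (k : ℕ) (δ : D.Γ × ℕ → ℕ → ℝ) (i j l r : ℕ) (ω : D.Ω) :
    hd D k δ i j l r ω =
      ⌊(2 : ℝ) ^ r * (yn D i j ω l - nv D k δ i j (Wc D i j ω) l * yn D i j ω k)⌋ := by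
  unfold hd nv yn
  congr 1
  rw [pow_add]
  by_cases h : δ (Wc D i j ω) k = 0
  · rw [h]
    simp
    ring
  · field_simp

/-- **The base is full** on large events. -/
theorem base_ev {ϖ : ℝ} (hϖ : 0 < ϖ) (hκ : κ ≤ ϖ / 4) (hκ0 : 0 ≤ κ)
    (hz : 2 * (4 * n + 1) ≤ ϖ * z)
    (hO : D.Ok2 n K J a₀ w₀ z M lam gam κ C₁ q) {i j U : ℕ} (hi : i ≤ M) (hj : j ≤ M)
    (hU : i + U ≤ M) (E : D.Ω → Prop) (hE : ϖ ≤ Pe q E) :
    ((n - 1 : ℕ) : ℝ) * (U * z) * Real.log 2 - z ≤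
      CH (Pool.Agent.H49.Ent.cond q E True) (rdg n (U * z) (yn D i j)) (Wc D i j) := by
  rw [rdg_vd]
  have hE0 : 0 < Pe q E := hϖ.trans_le hE
  have hl0 : 0 < Real.log 2 := Real.log_pos (by norm_num)
  have hl1 : Real.log 2 ≤ 1 := by linarith [Real.log_two_lt_d9]
  have hz0 : (0 : ℝ) ≤ z := Nat.cast_nonneg z
  have hn0 : (0 : ℝ) ≤ ((n - 1 : ℕ) : ℝ) := Nat.cast_nonneg _
  have hn1 : ((n - 1 : ℕ) : ℝ) ≤ n := by exact_mod_cast Nat.sub_le n 1
  obtain ⟨th, hth⟩ : ∃ th : ℝ, th = κ * z + ((n - 1 : ℕ) : ℝ) * (2 * Real.log 2) := ⟨_, rfl⟩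
  have hth0 : 0 ≤ th := by
    rw [hth]
    positivity
  have h1 := Pool.LF65.CH_cond_low hO.isLaw hE0 (D.vd n i j (U * z)) (Wc D i j)
    (Lf := ((n - 1 : ℕ) : ℝ) * (U * z) * Real.log 2) (th := th) (by
      have := hO.full i hi j hj U hU
      have h2 : 0 ≤ ((n - 1 : ℕ) : ℝ) * (2 * Real.log 2) := by positivity
      have h3 : CH q (D.vd n i j (U * z)) (Wc D i j) =
        CH q (D.vd n i j (U * z)) (fun ω => (D.c i j ω, D.T ω)) := rfl
      rw [h3]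
      linarith)
    (fun Q hQ hQp => by
      have h2 := CH_le_card hQ.nonneg hQ.sum_one (D.vd n i j (U * z)) (Wc D i j)
        (fun _ => Fv n (U * z)) (fun ω hω => vd_mem hO hi hj (U * z) (hQp ω hω))
      rw [Ex_const hQ.sum_one] at h2
      have h3 := log_Fv n (U * z)
      push_cast at h3
      have h4 : 0 ≤ κ * z := by positivity
      have h5 : ((n - 1 : ℕ) : ℝ) * ((U * z + 2) * Real.log 2) =
        ((n - 1 : ℕ) : ℝ) * (U * z) * Real.log 2 + ((n - 1 : ℕ) : ℝ) * (2 * Real.log 2) := by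
        ring
      linarith) hth0
  refine le_trans ?_ h1
  have h2 : (2 * th + Real.log 2) / Pe q E ≤ z := by
    rw [div_le_iff₀ hE0]
    have h3 : 2 * th + Real.log 2 ≤ ϖ * z := by
      rw [hth]
      have h4 : κ * z ≤ ϖ / 4 * z := mul_le_mul_of_nonneg_right hκ hz0
      have h5 : ((n - 1 : ℕ) : ℝ) * (2 * Real.log 2) ≤ n * 2 :=
        mul_le_mul hn1 (by linarith) (by positivity) (Nat.cast_nonneg n)
      nlinarith
    have h6 : ϖ * z ≤ z * Pe q E := by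
      rw [mul_comm]
      exact mul_le_mul_of_nonneg_left hE hz0
    linarith
  linarith

end

end Pool.TT5
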