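import Pool.Agent.H5.TT.Tot3
import Pool.Agent.H5.TT.Nfd
import Pool.Agent.H78.TT.Stm
import Pool.Agent.H30.TC.Vis

/-!
# The field `b2` of a place

`YyH`: heights `yy` at the place `(i, j)` which are bounded, determine the visible coordinates, and
differ from the heights over a chart by functions of the condition and of the coordinates outside of
the group. `b2_vis`: the digits of the group modulo a vector which is a function of the record are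
full given the exact time, the slow digits and the record: for the laws `cond q G True`, `G ⊆ E` large.
-/

set_option autoImplicit false

namespace Pool.TT5

open Finset Real MvPolynomial
open Pool.Agent.H49.Ent Pool.Agent.H32.Dense Pool.STK Pool.STAT Pool.KA Pool.KSAT Pool.K2S
open Pool.Agent.H25.BFL (Pb_eq_Pe)
open Pool.BFL (Pb)
open Pool.TC (Vis visOf)

/-- **The heights of a place.** -/
structure YyH (D : NDat2) (n K' J w₀ z i j v t U : ℕ) (P : ℕ → Prop) (C : ℝ) (q : D.Ω → ℝ)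
    (E : D.Ω → Prop) (yy : D.Ω → ℕ → ℝ) : Prop where
  bd : ∀ ω, 0 < q ω → E ω → ∀ l, 1 ≤ l → l ≤ n → |yy ω l| ≤ Real.exp (C * z)
  toV : ∀ ω ω', 0 < q ω → 0 < q ω' → E ω → E ω' → D.c i j ω = D.c i j ω' → D.T ω = D.T ω' →
    ∀ l, 1 ≤ l → l < n → ∀ δ, 0 ≤ δ → (∀ m, 1 ≤ m → m ≤ l → |yy ω m - yy ω' m| ≤ δ) →
    |2 ^ D.g i j l * D.sh i j ω l - 2 ^ D.g i j l * D.sh i j ω' l| ≤ Real.exp (C * z) * δ
  cht : ∃ Q A B, D.Cht n K' J w₀ z i j v t U q E Q A B ∧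
    ∀ ω ω', 0 < q ω → 0 < q ω' → E ω → E ω' → D.c i j ω = D.c i j ω' → D.T ω = D.T ω' →
    (∀ m, 1 ≤ m → m < n → ¬ P m → |yy ω m - yy ω' m| ≤ 1 / 2 ^ (U * z)) →
    ∀ l, 1 ≤ l → l ≤ n → |(D.yc J w₀ z i j v Q ω l - D.yc J w₀ z i j v Q ω' l) -
      (yy ω l - yy ω' l)| ≤ Real.exp (C * z) / 2 ^ (U * z)

/-- The total form from `NFt` in a chart. -/
theorem totN_nft {D : NDat2} {Tl : ℕ → Prop} {n J w₀ z M K' : ℕ} {C₁ ϖ : ℝ} {q : D.Ω → ℝ}
    (hq : IsLaw q) (hn : 1 ≤ n) (hϖ : 0 < ϖ) (hN : D.NFt Tl n J w₀ z M K' C₁ ϖ q)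
    {i j v t U : ℕ} (hi : i + 2 * U ≤ M) (hj : j + 2 * U ≤ M) (hv : j < v) (hvM : v ≤ M)
    (ht : 1 ≤ t) {E0 : D.Ω → Prop} {Q : D.Γ × ℕ → ℕ → PN} {A B : D.Λ × ℕ → ℕ → ℝ}
    (hch : D.Cht n K' J w₀ z i j v t U q E0 Q A B) {P : ℕ → Prop}
    (hP : ∀ l, 1 ≤ l → l < n → (P l ↔ Tl l)) :
    TotN q E0 n (U * z) P (D.cT J (w₀ + v * z) i j) (Wc D i j) (D.yc J w₀ z i j v Q)
      (((n : ℝ) - 1) * (U * z) * Real.log 2 - C₁ * ((t + (v - j) : ℕ) * z)) ϖ := by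
  intro k hk1 hkn hkP κ hκ E hE hEm
  have hE0 : 0 < Pe q E := hϖ.trans_le hEm
  have hlaw := isLaw_cond hq hE0
  obtain ⟨ka, hka⟩ : ∃ ka : D.Γ × ℕ → ℕ → ℝ, ka = fun c l => if l = 0 then 0 else κ c l :=
    ⟨_, rfl⟩
  have ka1 : ∀ c l, 1 ≤ l → ka c l = κ c l := fun c l h => by
    rw [hka]
    exact if_neg (by omega)
  have ka0 : ∀ c, ka c 0 = 0 := fun c => by
    rw [hka]
    exact if_pos rfl
  have h1 := hN i j v t U hi hj hv hvM ht k hk1 hkn ((hP k hk1 hkn).1 hkP) Q A B ka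
    (fun c => by rw [ka1 c k hk1, (hκ c).1])
    (fun c l ln lT => by
      rcases Nat.eq_zero_or_pos l with h0 | h0
      · rw [h0, ka0]
      · rw [ka1 c l h0]
        exact (hκ c).2.2 l h0 ln (fun h9 => lT ((hP l h0 ln).1 h9)))
    (fun c l ln => by
      rcases Nat.eq_zero_or_pos l with h0 | h0
      · rw [h0, ka0, abs_zero]
        norm_num
      · rw [ka1 c l h0]
        exact (hκ c).2.1 l h0 ln) E (by rwa [Pb_eq_Pe]) (hch.sub hE)
  have h2 : ((n - 1 : ℕ) : ℝ) = (n : ℝ) - 1 := by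
    rw [Nat.cast_sub hn, Nat.cast_one]
  rw [h2] at h1
  refine le_trans (le_of_eq (by ring)) (h1.trans ?_)
  refine CH_mono_left hlaw.nonneg ?_
  intro ω ω' hω hω' e
  obtain ⟨e1, e2⟩ := Prod.ext_iff.1 e
  have e1' : tdg n k (U * z) (κ (D.cT J (w₀ + v * z) i j ω)) (D.yc J w₀ z i j v Q ω) =
      tdg n k (U * z) (κ (D.cT J (w₀ + v * z) i j ω')) (D.yc J w₀ z i j v Q ω') := e1
  refine Prod.ext ?_ ?_
  · funext l
    have hl := l.isLt
    have e3 := congrFun e1' ⟨(l : ℕ), by omega⟩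
    have hln : ¬ (l : ℕ) = n := by omega
    change D.ya n k J w₀ z i j v Q ka (U * z) ω l = D.ya n k J w₀ z i j v Q ka (U * z) ω' l
    unfold NDat2.ya
    by_cases hl1 : 1 ≤ (l : ℕ) ∧ (l : ℕ) ≠ k
    · rw [if_pos hl1, if_pos hl1, ka1 _ _ hl1.1, ka1 _ _ hl1.1]
      unfold tdg at e3
      change (if 1 ≤ (l : ℕ) ∧ (l : ℕ) ≠ k then if (l : ℕ) = n then _ else _ else _) =
        (if 1 ≤ (l : ℕ) ∧ (l : ℕ) ≠ k then if (l : ℕ) = n then _ else _ else _) at e3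
      rw [if_pos hl1, if_pos hl1, if_neg hln, if_neg hln] at e3
      exact e3
    · rw [if_neg hl1, if_neg hl1]
  · have e3 := congrFun e1' ⟨n, by omega⟩
    change D.yn n k J w₀ z i j v Q ka (U * z) ω = D.yn n k J w₀ z i j v Q ka (U * z) ω'
    unfold NDat2.yn
    rw [ka1 _ _ hn, ka1 _ _ hn]
    unfold tdg at e3
    have hl1 : 1 ≤ n ∧ n ≠ k := ⟨hn, by omega⟩
    have hnn : n = n := rfl
    change (if 1 ≤ n ∧ n ≠ k then if n = n then _ else _ else _) =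
        (if 1 ≤ n ∧ n ≠ k then if n = n then _ else _ else _) at e3
    rw [if_pos hl1, if_pos hl1, if_pos hnn, if_pos hnn] at e3
    rw [mul_div_assoc, mul_div_assoc]
    exact e3

/-- **The field `b2`.** -/
theorem b2_vis (n c k t₀ : ℕ) (x C C₁ ϖ : ℝ) (hn : 1 ≤ n) (hx : 0 < x) (hC : 0 ≤ C)
    (hC₁ : 0 ≤ C₁) (hϖ : 0 < ϖ) : ∃ (κ₀ : ℝ) (U₀ z₀ : ℕ), 0 < κ₀ ∧
    ∀ (D : NDat2) (K K' J a₀ w₀ z M i j v t U w : ℕ) (lam gam : ℕ → ℝ) (κ : ℝ) (q : D.Ω → ℝ)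
      (E : D.Ω → Prop) (yy : D.Ω → ℕ → ℝ) (Tl P : ℕ → Prop) (gs : Fin c → ℕ) (ys : Fin k → ℕ),
      z₀ ≤ z → U₀ ≤ U → 0 < κ → κ ≤ κ₀ → D.Ok2 n K J a₀ w₀ z M lam gam κ C₁ q →
      D.NFt Tl n J w₀ z M K' C₁ κ q → (∀ l, 1 ≤ l → l < n → (P l ↔ Tl l)) → EnA n P gs ys →
      i + 2 * U ≤ M → j + 2 * U ≤ M → j < v → v ≤ M → 1 ≤ t → t + (v - j) ≤ t₀ →
      w ≤ w₀ + v * z → w₀ + v * z ≤ J → YyH D n K' J w₀ z i j v t U P C q E yy →
      ∀ G : D.Ω → Prop, (∀ ω, G ω → E ω) → 1 / 2 ≤ Pb q G →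
      ∀ (f : D.Γ × ℕ → Fin c → ℝ) (G' : D.Ω → Prop),
        ϖ ≤ Pe (Pool.Agent.H49.Ent.cond q G True) G' →
      ((c : ℝ) - 1 - x) * ((U * z : ℕ) : ℝ) * Real.log 2 ≤
        CH (Pool.Agent.H49.Ent.cond (Pool.Agent.H49.Ent.cond q G True) G' True)
          (fun ω => QB n gs (f (D.c i j ω, D.T ω / 2 ^ (J - w)))
            (fun u => ⌊(2 : ℝ) ^ (U * z) * yy ω (gs u)⌋))
          (fun ω => ((D.T ω, fun a => ⌊(2 : ℝ) ^ (U * z) * yy ω (ys a)⌋),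
            (D.c i j ω, D.T ω / 2 ^ (J - w)))) := by
  obtain ⟨C2, hC2⟩ : ∃ C2 : ℝ, C2 = C₁ * t₀ + (n + 1) * (C + 4) + 1 + n * (C + 3) + C :=
    ⟨_, rfl⟩
  have hC20 : 0 ≤ C2 := by
    rw [hC2]
    positivity
  obtain ⟨ϖ', U₀, hϖ', H⟩ := b2_abs n c k x C2 (ϖ / 2) hn hx hC20 (by positivity)
  obtain ⟨z₁, hz₁⟩ := exists_nat_ge (2 * (4 * n + 1) / ϖ')
  refine ⟨ϖ' / 4, U₀, z₁ + 1, by positivity, ?_⟩
  intro D K K' J a₀ w₀ z M i j v t U w lam gam κ q E yy Tl P gs ys hz hU hκ hκ0 hO hN hPT hen hi hj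
    hv hvM ht ht₀ hw hwJ hY G hGE hG f G' hG'
  have hq := hO.isLaw
  have hz1 : 1 ≤ z := by omega
  have hzR : (1 : ℝ) ≤ z := by exact_mod_cast hz1
  have hzϖ : 2 * (4 * n + 1) ≤ ϖ' * z := by
    have h1 : (z₁ : ℝ) ≤ z := by
      have : z₁ ≤ z := by omega
      exact_mod_cast this
    have h2 := hz₁.trans h1
    rw [div_le_iff₀ hϖ'] at h2
    linarith
  have hl1 : Real.log 2 ≤ 1 := by linarith [Real.log_two_lt_d9]
  have hn0 : (0 : ℝ) ≤ n := Nat.cast_nonneg n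
  have heC : 1 ≤ Real.exp (C * z) := Real.one_le_exp (by positivity)
  have hlog : ∀ a b : ℝ, 0 < a → a ≤ b * Real.exp (C * z) → 0 < b →
      Real.log a ≤ Real.log b + C * z := fun a b ha hab hb => by
    refine (Real.log_le_log ha hab).trans ?_
    rw [Real.log_mul (by positivity) (by positivity), Real.log_exp]
  have l9 : Real.log 9 ≤ 4 := by
    have : Real.log 9 ≤ Real.log (2 ^ 4) := Real.log_le_log (by norm_num) (by norm_num)
    rw [Real.log_pow] at this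
    push_cast at this
    linarith
  have l5 : Real.log 5 ≤ 3 := by
    have : Real.log 5 ≤ Real.log (2 ^ 3) := Real.log_le_log (by norm_num) (by norm_num)
    rw [Real.log_pow] at this
    push_cast at this
    linarith
  have hWc : Det q (Wc D i j) (D.cT J (w₀ + v * z) i j) := by
    intro ω ω' _ _ e
    obtain ⟨e1, e2⟩ := Prod.ext_iff.1 e
    change D.T ω = D.T ω' at e2
    unfold NDat2.cT
    exact Prod.ext e1 (by rw [e2])
  have hcR : Det q (D.cT J (w₀ + v * z) i j) (fun ω => (D.c i j ω, D.T ω / 2 ^ (J - w))) := by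
    intro ω ω' _ _ e
    obtain ⟨e1, e2⟩ := Prod.ext_iff.1 e
    change D.T ω / 2 ^ (J - (w₀ + v * z)) = D.T ω' / 2 ^ (J - (w₀ + v * z)) at e2
    refine Prod.ext e1 ?_
    have h1 : (2 : ℕ) ^ (J - w) = 2 ^ (J - (w₀ + v * z)) * 2 ^ (w₀ + v * z - w) := by
      rw [← pow_add]
      congr 1
      omega
    change D.T ω / 2 ^ (J - w) = D.T ω' / 2 ^ (J - w)
    rw [h1, ← Nat.div_div_eq_div_mul, ← Nat.div_div_eq_div_mul, e2]
  -- the total form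
  obtain ⟨Q, A, B, hch, hdf⟩ := hY.cht
  have hN' : D.NFt Tl n J w₀ z M K' C₁ ϖ' q := hN.mono le_rfl le_rfl (by linarith)
  have t1 := totN_nft hq hn hϖ' hN' hi hj hv hvM ht hch hPT
  have t2 := totN_shift hq hWc (y' := yy) hϖ' (B := Real.exp (C * z)) (by positivity) hen.Pn (by
    intro ω ω' p1 p2 e1 e2 e3 h4 l l1 ln
    obtain ⟨e5, e6⟩ := Prod.ext_iff.1 e3
    exact hdf ω ω' p1 p2 e1 e2 e5 e6 h4 l l1 ln) t1
  have t3 : TotN q E n (U * z) P (D.cT J (w₀ + v * z) i j) (Wc D i j) yy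
      (((n : ℝ) - 1) * (U * z) * Real.log 2 - C2 * z) ϖ' := by
    intro k' hk1 hkn hkP κ' hκ' E' hE' hEm
    refine le_trans ?_ (t2 k' hk1 hkn hkP κ' hκ' E' hE' hEm)
    have h1 := hlog (2 * (2 * Real.exp (C * z) + 2) + 1) 9 (by positivity) (by linarith)
      (by norm_num)
    have h2 : ((n : ℝ) + 1) * Real.log (2 * (2 * Real.exp (C * z) + 2) + 1) ≤
        (n + 1) * ((C + 4) * z) := by
      refine mul_le_mul_of_nonneg_left ?_ (by positivity)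
      nlinarith
    have h3 : C₁ * (((t + (v - j) : ℕ) : ℝ) * z) ≤ C₁ * (t₀ * z) := by
      refine mul_le_mul_of_nonneg_left ?_ hC₁
      refine mul_le_mul_of_nonneg_right ?_ (by positivity)
      exact_mod_cast ht₀
    have h4 : C2 * z = C₁ * (t₀ * z) + (n + 1) * ((C + 4) * z) + (1 + n * (C + 3) + C) * z := by
      rw [hC2]
      ring
    have h5 : 0 ≤ (1 + n * (C + 3) + C) * (z : ℝ) := by positivity
    linarith
  -- the base
  have f1 : FulE q E n (U * z) (Wc D i j) (yn D i j)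
      (((n : ℝ) - 1) * (U * z) * Real.log 2 - z) ϖ' := by
    intro E' _ hEm
    have h1 := base_ev hϖ' (by linarith) hκ.le hzϖ hO (i := i) (j := j) (U := U) (by omega)
      (by omega) (by omega) E' hEm
    have h2 : ((n - 1 : ℕ) : ℝ) = (n : ℝ) - 1 := by
      rw [Nat.cast_sub hn, Nat.cast_one]
    rw [h2] at h1
    exact h1
  have f2 := fulE_shift hq (y' := yy) hϖ' (B := Real.exp (C * z)) (by positivity) (by
    intro ω ω' p1 p2 e1 e2 e3 l l1 ln h4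
    obtain ⟨e5, e6⟩ := Prod.ext_iff.1 e3
    have h5 := hY.toV ω ω' p1 p2 e1 e2 e5 e6 l l1 ln (1 / 2 ^ (U * z)) (by positivity) h4
    unfold yn
    refine h5.trans (le_of_eq ?_)
    ring) f1
  have f3 : FulE q E n (U * z) (Wc D i j) yy
      (((n : ℝ) - 1) * (U * z) * Real.log 2 - C2 * z) ϖ' := by
    intro E' hE' hEm
    refine le_trans ?_ (f2 E' hE' hEm)
    have h1 := hlog (2 * (Real.exp (C * z) + 1) + 1) 5 (by positivity) (by linarith)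
      (by norm_num)
    have h2 : (n : ℝ) * Real.log (2 * (Real.exp (C * z) + 1) + 1) ≤ n * ((C + 3) * z) := by
      refine mul_le_mul_of_nonneg_left ?_ hn0
      nlinarith
    have h4 : C2 * z = z + n * ((C + 3) * z) + (C₁ * t₀ + (n + 1) * (C + 4) + C) * z := by
      rw [hC2]
      ring
    have h5 : 0 ≤ (C₁ * t₀ + (n + 1) * (C + 4) + C) * (z : ℝ) := by positivity
    linarith
  -- the law
  have hG0 : 1 / 2 ≤ Pe q G := by rwa [← Pb_eq_Pe]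
  have hG00 : 0 < Pe q G := by linarith
  rw [cond_and5 q hG00.ne']
  have hm : ϖ / 2 ≤ Pe q (fun ω => G ω ∧ G' ω) := by
    rw [Pe_cond G', le_div_iff₀ hG00] at hG'
    nlinarith
  have key := H D.Ω (D.Γ × ℕ) (D.Γ × ℕ) (D.Γ × ℕ) q hq z U hz1 hU P gs ys hen E
    (D.cT J (w₀ + v * z) i j) (Wc D i j) (fun ω => (D.c i j ω, D.T ω / 2 ^ (J - w))) hWc hcR yy
    (fun ω hω hEω b => (hY.bd ω hω hEω (ys b) (hen.y1 b).1 (hen.y1 b).2.1.le).trans
      (Real.exp_le_exp.2 (mul_le_mul_of_nonneg_right (by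
        rw [hC2]
        have : 0 ≤ C₁ * t₀ + (n + 1) * (C + 4) + 1 + n * (C + 3) := by positivity
        linarith) (by positivity)))) t3 f3 f (fun ω => G ω ∧ G' ω) (fun ω h => hGE ω h.1) hm
  push_cast
  refine key.trans ?_
  have hlaw : IsLaw (Pool.Agent.H49.Ent.cond q (fun ω => G ω ∧ G' ω) True) :=
    isLaw_cond hq (by linarith)
  refine CH_mono_cond hlaw.nonneg fun ω ω' _ _ e => ?_
  simp only [Prod.mk.injEq] at e ⊢
  obtain ⟨e1, e2, e3, e4⟩ := e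
  obtain ⟨e5, e6⟩ := Prod.ext_iff.1 e2
  exact ⟨⟨e6, e1⟩, e3, e4⟩

/-- **The field `Q_b`.** -/
theorem qb_vis {Ω : Type} {n c X : ℕ} {gs : Fin c → ℕ} {yy : Ω → ℕ → ℝ} {B γ : ℝ}
    (hB : 2 * B + 5 ≤ 2 ^ (γ * X)) {ω : Ω} (h : ∀ u, |yy ω (gs u)| ≤ B) (v : Fin c → ℝ)
    (u : Fin c) : |(QB n gs v (fun u => ⌊(2 : ℝ) ^ X * yy ω (gs u)⌋) u : ℝ)| ≤
      2 ^ (γ * X) * 2 ^ X := by
  have p1 : (1 : ℝ) ≤ 2 ^ X := one_le_pow₀ (by norm_num)
  have h1 := QB_le (n := n) (gs := gs) (v := v)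
    (x := fun u => ⌊(2 : ℝ) ^ X * yy ω (gs u)⌋) (B := 2 ^ X * B + 1) (by
      intro u
      have h2 := fl_dif ((2 : ℝ) ^ X * yy ω (gs u)) 0
      rw [Int.floor_zero, Int.cast_zero, sub_zero, sub_zero, abs_mul,
        abs_of_pos (by positivity : (0 : ℝ) < 2 ^ X)] at h2
      have h3 := mul_le_mul_of_nonneg_left (h u) (by positivity : (0 : ℝ) ≤ 2 ^ X)
      linarith) u
  refine h1.trans ?_
  have h2 := mul_le_mul_of_nonneg_right hB (by positivity : (0 : ℝ) ≤ 2 ^ X)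
  nlinarith

end Pool.TT5
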