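import Pool.Agent.H5.TT.B2f
import Pool.Agent.H37.AF.Def

/-!
# The heights of a place, from affine frames

`yyh_aff`: if the frames `P` of the place are affine, then `YyH` holds, with the chart
`Q (c) := P (bb of a reference sample of c)`. The input is 37's `ChtAff` (Cht of an affine closed frame
which is near to the closed labels).
-/

set_option autoImplicit false

namespace Pool.TT5

open Finset Real MvPolynomial
open Pool.Agent.H49.Ent Pool.Agent.H32.Dense Pool.STK Pool.STAT Pool.MIC.Frm Pool.FRM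
open Pool.BFL (Pb)
open Pool.TC
open Pool.TC12 (YH hh yl Cy Shd)
open Pool.AF37 (ChtAff)
open Pool.P4 (bb ze GoodS PthC)

section

variable {D : NDat2} {i j r : ℕ} {q : D.Ω → ℝ} {E : D.Ω → Prop}

open Classical in
/-- The context of a reference sample. -/
noncomputable def rcc (D : NDat2) (i j r : ℕ) (q : D.Ω → ℝ) (E : D.Ω → Prop) (x : D.Γ) :
    D.Γ × D.Γ :=
  if h : ∃ ω, (0 < q ω ∧ E ω) ∧ D.c i j ω = x then bb D i j r h.choose else (x, x)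

theorem rcc_spec {ω : D.Ω} (h1 : 0 < q ω) (h2 : E ω) : ∃ ω', 0 < q ω' ∧ E ω' ∧
    D.c i j ω' = D.c i j ω ∧ rcc D i j r q E (D.c i j ω) = bb D i j r ω' := by
  have h : ∃ ω', (0 < q ω' ∧ E ω') ∧ D.c i j ω' = D.c i j ω := ⟨ω, ⟨h1, h2⟩, rfl⟩
  refine ⟨h.choose, h.choose_spec.1.1, h.choose_spec.1.2, h.choose_spec.2, ?_⟩
  unfold rcc
  rw [dif_pos h]

end

/-- **The heights of a place**, from affine frames. -/
theorem yyh_aff (hA : ChtAff) (n K : ℕ) (C₁ C : ℝ) (hn : 1 ≤ n) (hC : 0 ≤ C) :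
    ∃ (t z₀ : ℕ), 1 ≤ t ∧
    ∀ (D : NDat2) (d d' K' J a₀ w₀ z M w i₀ i j r r2 r' r'' y a v U X : ℕ) (th : ℝ)
      (lam gam : ℕ → ℝ) (κ : ℝ) (q : D.Ω → ℝ) (E : D.Ω → Prop) (P₀ P : D.Γ × D.Γ → ℕ → PN)
      (S : Slo D) (c k0 k1 : ℕ) (ys : Fin (k0 + k1) → ℕ) (gs : Fin c → ℕ) (Pg : ℕ → Prop),
      z₀ ≤ z →
      Hyp D n d K K' J a₀ w₀ z M w i j r r2 r' r'' y a X th lam gam κ C₁ C q E P S ys gs →
      D.Strt → D.Slp n J z M q →
      YH D n d' K J a₀ w₀ z M i₀ i j r lam gam κ C₁ C q E P₀ → Shd D n i₀ i j r q E P₀ P →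
      (∀ x m, (P x m).totalDegree ≤ 1) → j < v → v ≤ M → U ≤ M →
      YyH D n 1 J w₀ z i j v t U Pg (Cy C₁ C + 1) q E (yl D i₀ i j r P₀ q E) := by
  obtain ⟨t, z₀, ht, H⟩ := hA n K C₁ C hn hC
  refine ⟨t, z₀, ht, ?_⟩
  intro D d d' K' J a₀ w₀ z M w i₀ i j r r2 r' r'' y a v U X th lam gam κ q E P₀ P S c k0 k1 ys gs
    Pg hz hH hSt hSl HY hSh hdeg hjv hvM hUM
  have hiM : i ≤ M := HY.iM.le
  obtain ⟨A, B, hch, -⟩ := H D J a₀ w₀ z M n i j v U lam gam κ q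
    (fun x => P (rcc D i j r q E x)) E hz hH.ok hSt hSl le_rfl hiM hjv hvM hUM
    (fun x => hH.geo.tri _) (fun x m => hdeg _ m) (by
      intro ω hE
      obtain ⟨h1, h2, -⟩ := hH.gd ω hE
      refine ⟨h1, h2.pc, fun m hm => ?_⟩
      obtain ⟨ω', g1, g2, g3, g4⟩ := rcc_spec (i := i) (j := j) (r := r) h1 hE
      have h3 := (hH.geo.near ω' g1 g2 i le_rfl m hm).1
      have h4 : D.Φ i j ω' = D.Φ i j ω := by
        unfold NDat2.Φ
        rw [g3]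
      rw [h4] at h3
      rw [g4]
      exact h3)
  refine yyH_of' HY le_rfl hch ?_
  intro ω ω' p1 p2 e1 e2 e3 e4 l l1 ln
  obtain ⟨ω₀, g1, g2, g3, g4⟩ := rcc_spec (i := i) (j := j) (r := r) p1 e1
  obtain ⟨F, hF⟩ := hSh ω₀ g1 g2 l l1 ln
  have hb := HY.ctx0 p1 g1 g3.symm
  have hb' := HY.ctx0 p2 g1 (e3.symm.trans g3.symm)
  have x1 : D.X ω 0 = D.X ω' 0 := by rw [HY.ok.X_zero, HY.ok.X_zero, e4]
  have key : ∀ o : D.Ω, D.c i j o = D.c i j ω → bb D i₀ j r o = bb D i₀ j r ω₀ →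
      D.yc J w₀ z i j v (fun x => P (rcc D i j r q E x.1)) o l =
        2 ^ D.g i j l * (hh D i₀ j r P₀ o l - F (D.X o 0)) := by
    intro o h1 h2
    unfold NDat2.yc NDat2.cT hh
    simp only
    rw [h1, g4, hF, h2]
    ring
  rw [key ω rfl hb, key ω' e3.symm hb', x1]
  ring

end Pool.TT5
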