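import Pool.Agent.H7.MIC.Plk

/-!
# The frame through the own point

`own`: the visible system moved to the own point. It is a frame of the sample at `(i, j)` whose
constant depends only on `n`, `K`. `own_two`: two samples with the same labels and the same time: if
the natural heights over one side are near, then the heights over the other side are near.
-/

set_option autoImplicit false

namespace Pool.TT5

open Finset Real MvPolynomial
open Pool.Agent.H49.Ent Pool.Agent.H32.Dense Pool.STK Pool.STAT Pool.MIC.Frm Pool.MIC7 Pool.FRM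
open Pool.MIC Pool.MicA Pool.GSD Pool.PLK
open Pool.BFL (Pl Pb)

/-- The visible system through the own point. -/
noncomputable def own (t : ℝ) (Ψ : ℕ → PN) (x : ℕ → ℝ) (l : ℕ) : PN :=
  fz t Ψ l + C (if l = 0 then 0 else x l - eval x (Ψ l))

theorem tri_own {Ψ : ℕ → PN} (h : TriN Ψ) (t : ℝ) (x : ℕ → ℝ) : TriN (own t Ψ x) := by
  intro l
  unfold own
  refine (vars_add_subset _ _).trans ?_
  rw [vars_C, Finset.union_empty]
  exact tri_fz h t l

theorem deg_own {Ψ : ℕ → PN} {K : ℕ} (h : ∀ l, (Ψ l).totalDegree ≤ K) (t : ℝ) (x : ℕ → ℝ)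
    (l : ℕ) : (own t Ψ x l).totalDegree ≤ K := by
  unfold own
  refine (totalDegree_add _ _).trans (max_le (deg_fz (h l) t) ?_)
  rw [totalDegree_C]
  exact Nat.zero_le _

theorem eval_own {Ψ : ℕ → PN} {t : ℝ} {x : ℕ → ℝ} (hx : x 0 = t) (l : ℕ) :
    eval x (own t Ψ x l) = x l := by
  unfold own
  rw [map_add, eval_C]
  by_cases h : l = 0
  · subst h
    rw [fz_zero, eval_C, if_pos rfl, add_zero, hx]
  · rw [if_neg h, eval_fz' _ hx (by omega)]
    ring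

/-- **The frame through the own point.** -/
theorem own_nb (n K : ℕ) : ∃ E : ℝ, 1 ≤ E ∧ ∀ (D : NDat2) (i j : ℕ) (S : D.Ω → ℕ → PN)
    (ω : D.Ω), (∀ x, TriN (D.G i j x)) → (∀ x l, (D.G i j x l).totalDegree ≤ K) →
    Sd D n K i j (D.Ψ i j) ω → Sd D n K i j S ω → ∀ c ≤ n,
    Nb (K * (K + 1) ^ n) c (D.g i j)
      (ch (own (D.X ω 0) (D.Ψ i j ω) (D.X ω)) (D.X ω 0) (S ω)) E := by
  obtain ⟨C', hC', hsd⟩ := side_near n K 0 le_rfl
  refine ⟨exp C', one_le_exp hC', ?_⟩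
  intro D i j S ω tG dG hV hS c hc
  have hP := tri_own hV.tri (D.X ω 0) (D.X ω)
  refine nb_of hP hS.tri (deg_own hV.deg _ _) hS.deg hc fun l hl => ?_
  have h1 := hsd D K i j 1 S ω (own (D.X ω 0) (D.Ψ i j ω) (D.X ω)) le_rfl le_rfl tG dG hS hP
    (deg_own hV.deg _ _) (fun l _ => eval_own rfl l) (fun l hl => by
      have e : fr D (i, j) ω l - own (D.X ω 0) (D.Ψ i j ω) (D.X ω) l =
          -C (if l = 0 then 0 else D.X ω l - eval (D.X ω) (D.Ψ i j ω l)) := by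
        unfold own fr
        ring
      rw [e]
      unfold chr
      rw [map_neg, bind₁_C_right, Pool.STAT.NRM.nrm_neg, Pool.STAT.NRM.nrm_C]
      have e1 : exp ((0 : ℝ) * ((1 : ℕ) : ℝ)) = 1 := by
        rw [zero_mul, exp_zero]
      rw [e1]
      by_cases h0 : l = 0
      · rw [if_pos h0, abs_zero]
        positivity
      · rw [if_neg h0]
        exact hV.hgt l (by omega) hl) l hl
  rw [Nat.cast_one, mul_one] at h1
  exact h1

/-- **Two samples with the same labels and the same time.** -/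
theorem own_two (n K : ℕ) : ∃ Λ : ℝ, 1 ≤ Λ ∧ ∀ (D : NDat2) (i j : ℕ) (S S' : D.Ω → ℕ → PN)
    (ω ω' : D.Ω) (m : ℕ) (ε : ℝ), m ≤ n →
    (∀ x, TriN (D.G i j x)) → (∀ x l, (D.G i j x l).totalDegree ≤ K) →
    Sd D n K i j (D.Ψ i j) ω → Sd D n K i j S ω → Sd D n K i j S' ω → Sd D n K i j S ω' →
    S ω' = S ω → S' ω' = S' ω → D.X ω' 0 = D.X ω 0 → 0 ≤ ε → ε ≤ 1 →
    (∀ l, 1 ≤ l → l ≤ m → |ztS D i j S ω' l - ztS D i j S ω l| ≤ ε) →
    ∀ l, 1 ≤ l → l ≤ m → |ztS D i j S' ω' l - ztS D i j S' ω l| ≤ Λ * ε := by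
  obtain ⟨E, hE1, hnb⟩ := own_nb n K
  obtain ⟨K₂, hK₂⟩ : ∃ K₂ : ℕ, K₂ = K * (K + 1) ^ n := ⟨_, rfl⟩
  obtain ⟨W, hW⟩ : ∃ W : ℝ, W = 4 * E := ⟨_, rfl⟩
  have hW1 : 1 ≤ W := by linarith
  obtain ⟨A, hA⟩ : ∃ A : ℝ, A = W ^ dd K₂ n := ⟨_, rfl⟩
  have hA1 : 1 ≤ A := by
    rw [hA]
    exact one_le_pow₀ hW1
  have hK0 : (0 : ℝ) ≤ K₂ := Nat.cast_nonneg _
  refine ⟨(K₂ * A ^ K₂ * E + 1) * A, ?_, ?_⟩
  · have h1 : (0 : ℝ) ≤ K₂ * A ^ K₂ * E := by positivity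
    nlinarith
  intro D i j S S' ω ω' m ε hm tG dG hV hS hS' tS eS eS' e0 hε0 hε1 hd
  have p1 := hnb D i j S ω tG dG hV hS
  have p3 := hnb D i j S' ω tG dG hV hS'
  rw [← hK₂] at p1 p3
  have hP := tri_own hV.tri (D.X ω 0) (D.X ω)
  have hx0 : eval (D.X ω) (own (D.X ω 0) (D.Ψ i j ω) (D.X ω) 0) = D.X ω 0 := eval_own rfl 0
  have z0 : ∀ l ≤ m, zs (own (D.X ω 0) (D.Ψ i j ω) (D.X ω)) (D.X ω) l = 0 := fun l hl => by
    unfold zs
    rw [eval_own rfl, sub_self]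
  have q1 := pt_of (Ψ := S ω) (g := D.g i j) hP (rfl : D.X ω 0 = D.X ω 0) hx0 m
  have q1' := pt_of (Ψ := S ω) (g := D.g i j) hP e0 hx0 m
  have q3 := pt_of (Ψ := S' ω) (g := D.g i j) hP (rfl : D.X ω 0 = D.X ω 0) hx0 m
  have q3' := pt_of (Ψ := S' ω) (g := D.g i j) hP e0 hx0 m
  have hu : ∀ l, 1 ≤ l → l ≤ m → |nat (D.g i j) (S ω) (D.X ω') l| ≤ E := fun l h1 h2 => by
    have := nat_le (tS.hgt l h1 (h2.trans hm))
    rw [eS] at this
    exact this.trans hE1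
  have r1 := plank_y (ε := ε) (p1 m hm) (p1 m hm) hE1 hW q1 z0 q1' q1' hu hu hε0
    (fun l h1 h2 => by
      left
      have h3 := hd l h1 h2
      unfold ztS at h3
      rw [eS] at h3
      exact h3)
  have r2 : ∀ l ≤ m, |zs (own (D.X ω 0) (D.Ψ i j ω) (D.X ω)) (D.X ω') l| ≤
      A * ε / 2 ^ D.g i j l := by
    intro l hl
    refine (r1 l hl).trans (div_le_div_of_nonneg_right ?_ (by positivity))
    rw [hA]
    exact mul_le_mul_of_nonneg_right (pow_le_pow_right₀ hW1 (dd_mono (hl.trans hm))) hε0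
  have r3 := plank_out (p3 m hm) q3 z0 q3' hA1 hε0 hε1 r2
  intro l h1 h2
  unfold ztS
  rw [eS']
  exact r3 l h1 h2

end Pool.TT5
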