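import Pool.Agent.H5.TT.Rot
import Pool.Agent.H5.TT.Glu

/-!
# All digits modulo a direction whose pivot is the target

`Pc`: the piece of the directions whose largest component in the base is `k` and has size
`2 ^ (-(t z))`, `…`, `2 ^ (-((t - 1) z))`. `core_n`: the digits of `y l - κ l * y n`, `l < n`, are full
if this is so for the rotated targets on the pieces and for the base.
-/

set_option autoImplicit false

namespace Pool.TT5

open Finset Real
open Pool.Agent.H49.Ent Pool.Agent.H32.Dense Pool.STK Pool.KA Pool.KSAT Pool.K2S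

/-- A piece of the directions. -/
def Pc (n z k t : ℕ) (κ : ℕ → ℝ) : Prop :=
  κ k ≠ 0 ∧ (1 : ℝ) / 2 ^ (t * z) ≤ |κ k| ∧ |κ k| ≤ 1 / 2 ^ ((t - 1) * z) ∧
    ∀ l, 1 ≤ l → l < n → |κ l| ≤ |κ k|

/-- Outside of the pieces the direction is that of the target. -/
theorem pc_none {n z U : ℕ} {κ : ℕ → ℝ} {P : ℕ → Prop} (h1 : ∀ l, 1 ≤ l → l < n → |κ l| ≤ 1)
    (hP : ∀ l, 1 ≤ l → l < n → ¬ P l → |κ l| ≤ 1 / 2 ^ (U * z))
    (hno : ∀ k, 1 ≤ k → k < n → P k → ∀ t, 1 ≤ t → t ≤ U → ¬ Pc n z k t κ) :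
    ∀ l, 1 ≤ l → l < n → |κ l| ≤ 1 / 2 ^ (U * z) := by
  classical
  by_contra hcon
  push Not at hcon
  obtain ⟨l, hl1, hln, hl⟩ := hcon
  obtain ⟨k, hk, hmax⟩ := Finset.exists_max_image (Finset.Ico 1 n) (fun l => |κ l|)
    ⟨l, Finset.mem_Ico.2 ⟨hl1, hln⟩⟩
  rw [Finset.mem_Ico] at hk
  have hm : ∀ l, 1 ≤ l → l < n → |κ l| ≤ |κ k| := fun l h1 h2 => hmax l (Finset.mem_Ico.2 ⟨h1, h2⟩)
  have hkl : 1 / 2 ^ (U * z) < |κ k| := hl.trans_le (hm l hl1 hln)
  have hkP : P k := by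
    by_contra h
    exact absurd (hP k hk.1 hk.2 h) (not_le.2 hkl)
  have hk1 := h1 k hk.1 hk.2
  have hk0 : κ k ≠ 0 := by
    intro h
    rw [h, abs_zero] at hkl
    exact absurd hkl (not_lt.2 (by positivity))
  have hU : 1 ≤ U := by
    by_contra h
    have : U = 0 := by omega
    rw [this, zero_mul, pow_zero, div_one] at hkl
    exact absurd hk1 (not_le.2 hkl)
  have hex : ∃ t, (1 : ℝ) / 2 ^ ((t + 1) * z) ≤ |κ k| := by
    refine ⟨U - 1, ?_⟩
    have : U - 1 + 1 = U := by omega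
    rw [this]
    exact hkl.le
  have hs := Nat.find_spec hex
  have hle : Nat.find hex ≤ U - 1 := by
    refine Nat.find_min' hex ?_
    have : U - 1 + 1 = U := by omega
    rw [this]
    exact hkl.le
  refine hno k hk.1 hk.2 hkP (Nat.find hex + 1) (by omega) (by omega) ⟨hk0, hs, ?_, hm⟩
  have e : Nat.find hex + 1 - 1 = Nat.find hex := by omega
  rw [e]
  rcases Nat.eq_zero_or_pos (Nat.find hex) with h0 | h0
  · rw [h0, zero_mul, pow_zero, div_one]
    exact hk1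
  · have := Nat.find_min hex (m := Nat.find hex - 1) (by omega)
    rw [not_le] at this
    have e2 : Nat.find hex - 1 + 1 = Nat.find hex := by omega
    rw [e2] at this
    exact this.le

section law

variable {Ω τ : Type} [Fintype Ω]

/-- **All digits modulo a direction with the target as the pivot.** -/
theorem core_n {q : Ω → ℝ} (hq : IsLaw q) {n U z : ℕ} {P : ℕ → Prop} {E : Ω → Prop}
    {ϖ ϖ' : ℝ} (hϖ : 0 < ϖ) (hϖ' : 0 ≤ ϖ') (hE : ϖ ≤ Pe q E) (W : Ω → τ) (y : Ω → ℕ → ℝ)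
    (hy : ∀ ω, 0 < q ω → ∀ l, 1 ≤ l → l ≤ n → |y ω l| ≤ 1) (κ : τ → ℕ → ℝ)
    (hκ : ∀ ω, 0 < q ω → E ω → ∀ l, 1 ≤ l → l < n → |κ (W ω) l| ≤ 1)
    (hu : ∀ ω, 0 < q ω → E ω → ∀ l, 1 ≤ l → l < n → ¬ P l → |κ (W ω) l| ≤ 1 / 2 ^ (U * z))
    {X : Ω → Fin (n + 1) → ℤ}
    (hX : ∀ ω, 0 < q ω → E ω → ∀ l, 1 ≤ l → ∀ hl : l < n, X ω ⟨l, by omega⟩ =
      ⌊(2 : ℝ) ^ (U * z) * (y ω l - κ (W ω) l * y ω n)⌋)
    {a L B ζ : ℝ} {b : ℕ → ℝ}
    (hF : ∀ E' : Ω → Prop, ϖ' ≤ Pe q E' → 0 < Pe q E' →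
      a ≤ CH (cond q E' True) (rdg n (U * z) y) W)
    (hN : ∀ k, 1 ≤ k → k < n → P k → ∀ t, 1 ≤ t → t ≤ U → ∀ E' : Ω → Prop, ϖ' ≤ Pe q E' →
      0 < Pe q E' → (∀ ω, E' ω → E ω) → (∀ ω, E' ω → Pc n z k t (κ (W ω))) →
      b t ≤ CH (cond q E' True)
        (fun ω => ⌊(2 : ℝ) ^ (U * z - t * z) * (y ω n - 1 / κ (W ω) k * y ω k)⌋)
        (fun ω => (⌊(2 : ℝ) ^ 0 * (y ω n - 1 / κ (W ω) k * y ω k)⌋,
          (rbg n k (U * z) W (fun w l => κ w l / κ w k) y ω, W ω))))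
    (hL0 : L ≤ a - n * Real.log 9)
    (hLt : ∀ t, 1 ≤ t → t ≤ U → L ≤ a - (((U * z : ℕ) : ℝ) - (((t - 1) * z : ℕ) : ℝ)) *
      Real.log 2 + b t - (2 * (n * Real.log 7 + Real.log 5) + 3 * Real.log 9))
    (hLB : L ≤ B) (hB : 0 ≤ B) (hζ : ((n * U + 1 : ℕ) : ℝ) * ϖ' ≤ ζ * ϖ) :
    L - ζ * B ≤ CH (cond q E True) X W := by
  classical
  obtain ⟨Q, hQ⟩ : ∃ Q : τ → Fin n × Fin U → Prop, Q = fun w v =>
      1 ≤ (v.1 : ℕ) ∧ P v.1 ∧ Pc n z v.1 ((v.2 : ℕ) + 1) (κ w) := ⟨_, rfl⟩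
  obtain ⟨idx, hidx⟩ : ∃ f : τ → Option (Fin n × Fin U), f = fun w =>
      if h : ∃ v, Q w v then some h.choose else none := ⟨_, rfl⟩
  refine glue_low hq hϖ hE X W (fun ω => idx (W ω)) hLB hB hϖ' ?_ ?_
  · rw [Fintype.card_option, Fintype.card_prod, Fintype.card_fin, Fintype.card_fin]
    exact hζ
  intro v h1 h2
  obtain ⟨E', hE'⟩ : ∃ E' : Ω → Prop, E' = fun ω => E ω ∧ idx (W ω) = v := ⟨_, rfl⟩
  rw [← hE'] at h1 h2 ⊢
  have hlaw := isLaw_cond hq h2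
  have hpos : ∀ ω, 0 < cond q E' True ω → 0 < q ω ∧ E ω ∧ idx (W ω) = v := by
    intro ω hω
    have h3 := (cond_pos_iff hq.nonneg E' True ω).1 hω
    have h4 : E' ω := of_eq_true h3.2
    rw [hE'] at h4
    exact ⟨h3.1, h4.1, h4.2⟩
  rcases v with _ | v
  · -- the direction of the target
    have hno : ∀ ω, 0 < cond q E' True ω → ∀ l, 1 ≤ l → l < n →
        |κ (W ω) l| ≤ 1 / 2 ^ (U * z) := by
      intro ω hω
      obtain ⟨h3, h4, h5⟩ := hpos ω hω
      refine pc_none (P := P) (hκ ω h3 h4) (hu ω h3 h4) ?_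
      intro k hk1 hkn hkP t ht1 htU hPc
      rw [hidx] at h5
      have h6 : ∃ v, Q (W ω) v := by
        refine ⟨(⟨k, hkn⟩, ⟨t - 1, by omega⟩), ?_⟩
        rw [hQ]
        have e : t - 1 + 1 = t := by omega
        simp only [e]
        exact ⟨hk1, hkP, hPc⟩
      simp only [dif_pos h6] at h5
      exact absurd h5 (Option.some_ne_none _)
    have h3 := rot0 hlaw.nonneg hlaw.sum_one (n := n) (r := U * z) (W := W) (y := y) (X := X)
      (V := fun ω l => y ω l - κ (W ω) l * y ω n)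
      (fun ω hω l => by
        obtain ⟨h3, h4, h5⟩ := hpos ω hω
        exact hX ω h3 h4 ((l : ℕ) + 1) (by omega) (by have := l.isLt; omega))
      (fun ω hω l => by
        obtain ⟨h3, h4, h5⟩ := hpos ω hω
        have h6 := hno ω hω ((l : ℕ) + 1) (by omega) (by have := l.isLt; omega)
        have h7 := hy ω h3 n (by have := l.isLt; omega) le_rfl
        have e : y ω ((l : ℕ) + 1) - κ (W ω) ((l : ℕ) + 1) * y ω n - y ω ((l : ℕ) + 1) =
            -(κ (W ω) ((l : ℕ) + 1) * y ω n) := by ring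
        simp only [e]
        rw [abs_neg, abs_mul]
        have h8 : |κ (W ω) ((l : ℕ) + 1)| * |y ω n| ≤ 1 / 2 ^ (U * z) * 1 :=
          mul_le_mul h6 h7 (abs_nonneg _) (by positivity)
        linarith)
      (hF E' h1 h2)
    linarith
  · -- a piece
    obtain ⟨ω₀, hω₀⟩ : ∃ ω, 0 < cond q E' True ω := by
      by_contra hcon
      push Not at hcon
      have : ∑ ω, cond q E' True ω ≤ 0 := Finset.sum_nonpos fun ω _ => hcon ω
      rw [hlaw.sum_one] at this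
      linarith
    have hall : ∀ ω, E' ω → Q (W ω) v := by
      intro ω hω
      rw [hE'] at hω
      have h5 := hω.2
      rw [hidx] at h5
      simp only at h5
      by_cases h6 : ∃ v, Q (W ω) v
      · rw [dif_pos h6, Option.some_inj] at h5
        rw [← h5]
        exact h6.choose_spec
      · rw [dif_neg h6] at h5
        exact absurd h5.symm (Option.some_ne_none _)
    have hpE : ∀ ω, 0 < cond q E' True ω → E' ω := fun ω hω =>
      of_eq_true ((cond_pos_iff hq.nonneg E' True ω).1 hω).2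
    have hv := hall ω₀ (hpE ω₀ hω₀)
    rw [hQ] at hv
    have hallP : ∀ ω, E' ω → Pc n z v.1 ((v.2 : ℕ) + 1) (κ (W ω)) := fun ω hω => by
      have := hall ω hω
      rw [hQ] at this
      exact this.2.2
    have hb := hN v.1 hv.1 v.1.isLt hv.2.1 ((v.2 : ℕ) + 1) (by omega) (by omega) E' h1 h2
      (fun ω hω => by
        rw [hE'] at hω
        exact hω.1) hallP
    have e1 : (v.2 : ℕ) + 1 - 1 = v.2 := by omega
    have hle : (v.2 : ℕ) + 1 ≤ U := v.2.isLt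
    have h3 := rotB hlaw.nonneg hlaw.sum_one (W := W) (y := y) (n := n) (k := v.1) (r := U * z)
      (ν := fun w l => κ w l / κ w v.1) (X := X) (κ := κ) (r₁ := (v.2 : ℕ) * z)
      (r₂ := ((v.2 : ℕ) + 1) * z) hv.1 v.1.isLt (Nat.mul_le_mul_right z (by omega))
      (Nat.mul_le_mul_right z hle)
      (fun ω hω => by
        obtain ⟨h3, h4, h5⟩ := hpos ω hω
        exact ⟨hy ω h3 v.1 hv.1 v.1.isLt.le, hy ω h3 n (by omega) le_rfl⟩)
      (fun ω hω l hl1 hln => by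
        obtain ⟨h3, h4, h5⟩ := hpos ω hω
        exact hX ω h3 h4 l hl1 hln)
      (fun ω hω => by
        have h6 := hallP ω (hpE ω hω)
        unfold Pc at h6
        rw [e1] at h6
        exact h6)
      (fun ω hω l => rfl) (hF E' h1 h2) hb
    have h4 := hLt ((v.2 : ℕ) + 1) (by omega) (by omega)
    rw [e1] at h4
    exact h4.trans h3

end law

end Pool.TT5
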