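import Pool.Agent.H5.TT.Few

/-!
# Full digits modulo a direction

`y l`, `l < n`: the heights of the base in natural units, `rdg r`: their digits. `rbg k ν r`: the
digits of `y l - ν l * y k`, `l ≠ k`. The direction `ν` is a function of the condition, `|ν l| ≤ 1`.

`base_mod`: if the digits of the base are full, then the digits modulo the direction with `r₁` digits
of `y k` are full. `rotA`, `rotB`: the digits of the base and of the target modulo a direction, from the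
rows of the rotated target.
-/

set_option autoImplicit false

namespace Pool.TT5

open Finset Real
open Pool.Agent.H49.Ent Pool.Agent.H32.Dense

section rot

variable {Ω τ : Type} [Fintype Ω]

/-- Digits of the base. -/
noncomputable def rdg (n r : ℕ) (y : Ω → ℕ → ℝ) (ω : Ω) (l : Fin (n - 1)) : ℤ :=
  ⌊(2 : ℝ) ^ r * y ω (l + 1)⌋

/-- Digits of the base modulo a direction. -/
noncomputable def rbg (n k r : ℕ) (W : Ω → τ) (ν : τ → ℕ → ℝ) (y : Ω → ℕ → ℝ) (ω : Ω)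
    (l : Fin n) : ℤ :=
  if 1 ≤ (l : ℕ) ∧ (l : ℕ) ≠ k then ⌊(2 : ℝ) ^ r * (y ω l - ν (W ω) l * y ω k)⌋ else 0

variable {Q : Ω → ℝ} (h0 : ∀ ω, 0 ≤ Q ω) (h1 : ∑ ω, Q ω = 1) {W : Ω → τ} {y : Ω → ℕ → ℝ}
  {n k r : ℕ} {ν : τ → ℕ → ℝ}

include h0 h1

/-- **The base modulo a direction.** -/
theorem base_mod (hk1 : 1 ≤ k) (hkn : k < n)
    (hν : ∀ ω, 0 < Q ω → ∀ l, 1 ≤ l → l < n → |ν (W ω) l| ≤ 1) {r₁ : ℕ} (hr : r₁ ≤ r) :
    CH Q (rdg n r y) W ≤ CH Q (fun ω => (rbg n k r W ν y ω, ⌊(2 : ℝ) ^ r₁ * y ω k⌋)) W +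
      ((r : ℝ) - r₁) * Real.log 2 + (n * Real.log 7 + Real.log 5) := by
  obtain ⟨rb, hrb⟩ : ∃ f, f = rbg n k r W ν y := ⟨_, rfl⟩
  obtain ⟨Y, hY⟩ : ∃ f : Ω → ℤ, f = fun ω => ⌊(2 : ℝ) ^ r * y ω k⌋ := ⟨_, rfl⟩
  obtain ⟨Y1, hY1⟩ : ∃ f : Ω → ℤ, f = fun ω => ⌊(2 : ℝ) ^ r₁ * y ω k⌋ := ⟨_, rfl⟩
  have p0 : (0 : ℝ) < 2 ^ r := by positivity
  have p1 : (0 : ℝ) < 2 ^ r₁ := by positivity
  -- the digits of the base
  have a1 := CH_le_add h0 (rdg n r y) (fun ω => (rb ω, Y ω)) W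
  have a2 : CH Q (rdg n r y) (fun ω => ((rb ω, Y ω), W ω)) ≤
      Fintype.card (Fin (n - 1)) * Real.log (2 * 3 + 1) := by
    refine CH_pfam h0 h1 _ _ (by norm_num) fun ω ω' hω hω' e l => ?_
    simp only [Prod.mk.injEq] at e
    obtain ⟨⟨e1, e2⟩, e3⟩ := e
    rw [hY] at e2
    have f2 := fl_inv p0 e2
    unfold rdg
    by_cases hl : (l : ℕ) + 1 = k
    · rw [hl]
      have := fl_sca p0.le f2
      rw [mul_one_div_cancel p0.ne'] at this
      linarith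
    · have hln : (l : ℕ) + 1 < n := by
        have := l.isLt
        omega
      have e4 := congrFun e1 ⟨(l : ℕ) + 1, hln⟩
      rw [hrb] at e4
      unfold rbg at e4
      simp only at e4
      rw [if_pos ⟨by omega, hl⟩, if_pos ⟨by omega, hl⟩] at e4
      have f1 := fl_inv p0 e4
      have f3 := hν ω hω ((l : ℕ) + 1) (by omega) hln
      rw [← e3] at f1
      have f4 : y ω ((l : ℕ) + 1) - y ω' ((l : ℕ) + 1) =
          ((y ω ((l : ℕ) + 1) - ν (W ω) ((l : ℕ) + 1) * y ω k) -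
            (y ω' ((l : ℕ) + 1) - ν (W ω) ((l : ℕ) + 1) * y ω' k)) +
          ν (W ω) ((l : ℕ) + 1) * (y ω k - y ω' k) := by ring
      have f5 : |y ω ((l : ℕ) + 1) - y ω' ((l : ℕ) + 1)| ≤ 2 * (1 / 2 ^ r) := by
        rw [f4]
        refine (abs_add_le _ _).trans ?_
        rw [abs_mul]
        have : |ν (W ω) ((l : ℕ) + 1)| * |y ω k - y ω' k| ≤ 1 * (1 / 2 ^ r) :=
          mul_le_mul f3 f2 (abs_nonneg _) zero_le_one
        linarith
      have := fl_sca p0.le f5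
      have e5 : (2 : ℝ) ^ r * (2 * (1 / 2 ^ r)) = 2 := by field_simp
      rw [e5] at this
      linarith
  have a3 : (Fintype.card (Fin (n - 1)) : ℝ) * Real.log (2 * 3 + 1) ≤ n * Real.log 7 := by
    rw [Fintype.card_fin]
    have : Real.log (2 * 3 + 1) = Real.log 7 := by norm_num
    rw [this]
    refine mul_le_mul_of_nonneg_right ?_ (Real.log_nonneg (by norm_num))
    exact_mod_cast Nat.sub_le n 1
  -- the deeper digits
  have b1 : CH Q (fun ω => (rb ω, Y ω)) W ≤ CH Q (fun ω => (Y ω, (rb ω, Y1 ω))) W := by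
    refine CH_mono_left h0 fun ω ω' _ _ e => ?_
    simp only [Prod.mk.injEq] at e ⊢
    tauto
  have b2 := CH_chain h0 Y (fun ω => (rb ω, Y1 ω)) W
  have b3 : CH Q Y (fun ω => ((rb ω, Y1 ω), W ω)) ≤
      Real.log (2 * (2 ^ (r - r₁) + 1) + 1) := by
    refine CH_pint h0 h1 _ _ (by positivity) fun ω ω' hω hω' e => ?_
    simp only [Prod.mk.injEq] at e
    have e2 := e.1.2
    rw [hY1] at e2
    have f2 := fl_inv p1 e2
    rw [hY]
    have := fl_sca p0.le f2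
    have e5 : (2 : ℝ) ^ r * (1 / 2 ^ r₁) = 2 ^ (r - r₁) := by
      have : (2 : ℝ) ^ r = 2 ^ (r - r₁) * 2 ^ r₁ := by
        rw [← pow_add]
        congr 1
        omega
      rw [this]
      field_simp
    rw [e5] at this
    exact this
  have b4 : Real.log (2 * (2 ^ (r - r₁) + 1) + 1) ≤ ((r : ℝ) - r₁) * Real.log 2 + Real.log 5 := by
    have e6 : ((r : ℝ) - r₁) = ((r - r₁ : ℕ) : ℝ) := by
      rw [Nat.cast_sub hr]
    have e7 : (1 : ℝ) ≤ 2 ^ (r - r₁) := one_le_pow₀ (by norm_num)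
    rw [e6, ← Real.log_pow, ← Real.log_mul (by positivity) (by norm_num)]
    refine Real.log_le_log (by positivity) ?_
    linarith
  rw [hrb, hY] at *
  rw [hY1] at *
  linarith

/-- **The base and the target modulo a direction of the base.** `Z`: the digits of the rotated
target. -/
theorem rotA {σ : Type} (hk1 : 1 ≤ k) (hkn : k < n)
    (hy : ∀ ω, 0 < Q ω → |y ω k| ≤ 1)
    (hν : ∀ ω, 0 < Q ω → ∀ l, 1 ≤ l → l < n → |ν (W ω) l| ≤ 1) {Z : Ω → ℤ} {Z0 : Ω → σ} {a b : ℝ}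
    (hf : a ≤ CH Q (rdg n r y) W)
    (hz : b ≤ CH Q Z (fun ω => (Z0 ω, (rbg n k r W ν y ω, W ω)))) :
    a - (r : ℝ) * Real.log 2 + b - (n * Real.log 7 + Real.log 5 + Real.log 7) ≤
      CH Q (fun ω => (Z ω, rbg n k r W ν y ω)) W := by
  have c1 := base_mod h0 h1 (y := y) hk1 hkn hν (Nat.zero_le r)
  have c2 := CH_chain h0 Z (rbg n k r W ν y) W
  have c3 : CH Q Z (fun ω => (Z0 ω, (rbg n k r W ν y ω, W ω))) ≤
      CH Q Z (fun ω => (rbg n k r W ν y ω, W ω)) :=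
    CH_mono_cond h0 fun _ _ _ _ e => (Prod.ext_iff.mp e).2
  have c4 : CH Q (fun ω => (rbg n k r W ν y ω, ⌊(2 : ℝ) ^ 0 * y ω k⌋)) W ≤
      CH Q (rbg n k r W ν y) W + Real.log 7 := by
    refine (CH_subadd h0 _ _ W).trans ?_
    have : CH Q (fun ω => ⌊(2 : ℝ) ^ 0 * y ω k⌋) W ≤ Real.log (2 * 3 + 1) := by
      refine CH_pint h0 h1 _ _ (by norm_num) fun ω ω' hω hω' _ => ?_
      have g1 := fl_dif ((2 : ℝ) ^ 0 * y ω k) ((2 : ℝ) ^ 0 * y ω' k)
      rw [pow_zero, one_mul, one_mul] at g1 ⊢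
      have g2 := hy ω hω
      have g3 := hy ω' hω'
      have g4 := abs_sub (y ω k) (y ω' k)
      linarith
    have e : (2 : ℝ) * 3 + 1 = 7 := by norm_num
    rw [e] at this
    linarith
  push_cast at c1
  rw [sub_zero] at c1
  linarith

/-- **No direction**: the digits of the base from near numbers. -/
theorem rot0 {X : Ω → Fin (n + 1) → ℤ} {V : Ω → ℕ → ℝ}
    (hX : ∀ ω, 0 < Q ω → ∀ l : Fin (n - 1), X ω ⟨(l : ℕ) + 1, by omega⟩ =
      ⌊(2 : ℝ) ^ r * V ω (l + 1)⌋)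
    (hV : ∀ ω, 0 < Q ω → ∀ l : Fin (n - 1), |V ω (l + 1) - y ω (l + 1)| ≤ 1 / 2 ^ r) {a : ℝ}
    (hf : a ≤ CH Q (rdg n r y) W) : a - n * Real.log 9 ≤ CH Q X W := by
  have p0 : (0 : ℝ) < 2 ^ r := by positivity
  have a1 := CH_le_add h0 (rdg n r y) X W
  have a2 : CH Q (rdg n r y) (fun ω => (X ω, W ω)) ≤
      Fintype.card (Fin (n - 1)) * Real.log (2 * 4 + 1) := by
    refine CH_pfam h0 h1 _ _ (by norm_num) fun ω ω' hω hω' e l => ?_
    simp only [Prod.mk.injEq] at e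
    have e1 := congrFun e.1 ⟨(l : ℕ) + 1, by omega⟩
    rw [hX ω hω l, hX ω' hω' l] at e1
    have f1 := fl_inv p0 e1
    have g1 := hV ω hω l
    have g2 := hV ω' hω' l
    unfold rdg
    have f5 : |y ω ((l : ℕ) + 1) - y ω' ((l : ℕ) + 1)| ≤ 3 * (1 / 2 ^ r) := by
      have e4 : y ω ((l : ℕ) + 1) - y ω' ((l : ℕ) + 1) =
          (V ω ((l : ℕ) + 1) - V ω' ((l : ℕ) + 1)) - (V ω ((l : ℕ) + 1) - y ω ((l : ℕ) + 1)) +
            (V ω' ((l : ℕ) + 1) - y ω' ((l : ℕ) + 1)) := by ring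
      rw [e4]
      refine (abs_add_le _ _).trans ?_
      have := abs_sub (V ω ((l : ℕ) + 1) - V ω' ((l : ℕ) + 1))
        (V ω ((l : ℕ) + 1) - y ω ((l : ℕ) + 1))
      linarith
    have := fl_sca p0.le f5
    have e5 : (2 : ℝ) ^ r * (3 * (1 / 2 ^ r)) = 3 := by field_simp
    rw [e5] at this
    linarith
  have a3 : (Fintype.card (Fin (n - 1)) : ℝ) * Real.log (2 * 4 + 1) ≤ n * Real.log 9 := by
    rw [Fintype.card_fin]
    have : Real.log (2 * 4 + 1) = Real.log 9 := by norm_num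
    rw [this]
    refine mul_le_mul_of_nonneg_right ?_ (Real.log_nonneg (by norm_num))
    exact_mod_cast Nat.sub_le n 1
  linarith

/-- **The direction of the target.** `X`: the digits of `y l - κ l * y n`, `l < n`; `k` the largest
component of `κ`, `2 ^ (-r₂) ≤ |κ k| ≤ 2 ^ (-r₁)`, `Z` the digits of the rotated target
`y n - y k / κ k`. -/
theorem rotB {X : Ω → Fin (n + 1) → ℤ} {κ : τ → ℕ → ℝ} {r₁ r₂ : ℕ} (hk1 : 1 ≤ k) (hkn : k < n)
    (hr1 : r₁ ≤ r) (hr2 : r₂ ≤ r)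
    (hy : ∀ ω, 0 < Q ω → |y ω k| ≤ 1 ∧ |y ω n| ≤ 1)
    (hX : ∀ ω, 0 < Q ω → ∀ l, 1 ≤ l → ∀ hl : l < n, X ω ⟨l, by omega⟩ =
      ⌊(2 : ℝ) ^ r * (y ω l - κ (W ω) l * y ω n)⌋)
    (hκ : ∀ ω, 0 < Q ω → κ (W ω) k ≠ 0 ∧ (1 : ℝ) / 2 ^ r₂ ≤ |κ (W ω) k| ∧
      |κ (W ω) k| ≤ 1 / 2 ^ r₁ ∧ ∀ l, 1 ≤ l → l < n → |κ (W ω) l| ≤ |κ (W ω) k|)
    (hν : ∀ ω, 0 < Q ω → ∀ l, ν (W ω) l = κ (W ω) l / κ (W ω) k) {a b : ℝ}
    (hf : a ≤ CH Q (rdg n r y) W)
    (hz : b ≤ CH Q (fun ω => ⌊(2 : ℝ) ^ (r - r₂) * (y ω n - 1 / κ (W ω) k * y ω k)⌋)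
      (fun ω => (⌊(2 : ℝ) ^ 0 * (y ω n - 1 / κ (W ω) k * y ω k)⌋,
        (rbg n k r W ν y ω, W ω)))) :
    a - ((r : ℝ) - r₁) * Real.log 2 + b - (2 * (n * Real.log 7 + Real.log 5) + 3 * Real.log 9) ≤
      CH Q X W := by
  obtain ⟨rb, hrb⟩ : ∃ f, f = rbg n k r W ν y := ⟨_, rfl⟩
  obtain ⟨Y1, hY1⟩ : ∃ f : Ω → ℤ, f = fun ω => ⌊(2 : ℝ) ^ r₁ * y ω k⌋ := ⟨_, rfl⟩
  obtain ⟨Z, hZ⟩ : ∃ f : Ω → ℤ, f = fun ω =>
    ⌊(2 : ℝ) ^ (r - r₂) * (y ω n - 1 / κ (W ω) k * y ω k)⌋ := ⟨_, rfl⟩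
  obtain ⟨Z0, hZ0⟩ : ∃ f : Ω → ℤ, f = fun ω =>
    ⌊(2 : ℝ) ^ 0 * (y ω n - 1 / κ (W ω) k * y ω k)⌋ := ⟨_, rfl⟩
  have p0 : (0 : ℝ) < 2 ^ r := by positivity
  have p1 : (0 : ℝ) < 2 ^ r₁ := by positivity
  have p2 : (0 : ℝ) < 2 ^ r₂ := by positivity
  have p3 : (0 : ℝ) < 2 ^ (r - r₂) := by positivity
  have hν1 : ∀ ω, 0 < Q ω → ∀ l, 1 ≤ l → l < n → |ν (W ω) l| ≤ 1 := by
    intro ω hω l h2 h3
    obtain ⟨k1, k2, k3, k4⟩ := hκ ω hω
    rw [hν ω hω, abs_div, div_le_one (abs_pos.2 k1)]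
    exact k4 l h2 h3
  -- (1) `rb` and `Y1` and `Z` from `X`
  have c1 : CH Q rb (fun ω => (X ω, W ω)) ≤ Fintype.card (Fin n) * Real.log (2 * 3 + 1) := by
    refine CH_pfam h0 h1 _ _ (by norm_num) fun ω ω' hω hω' e l => ?_
    simp only [Prod.mk.injEq] at e
    obtain ⟨e1, e3⟩ := e
    rw [hrb]
    unfold rbg
    by_cases hl : 1 ≤ (l : ℕ) ∧ (l : ℕ) ≠ k
    · rw [if_pos hl, if_pos hl]
      have g1 := congrFun e1 ⟨(l : ℕ), by omega⟩
      have g2 := congrFun e1 ⟨k, by omega⟩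
      rw [hX ω hω l hl.1 l.isLt, hX ω' hω' l hl.1 l.isLt] at g1
      rw [hX ω hω k hk1 hkn, hX ω' hω' k hk1 hkn] at g2
      rw [← e3] at g1 g2
      have g3 := fl_inv p0 g1
      have g4 := fl_inv p0 g2
      obtain ⟨k1, k2, k3, k4⟩ := hκ ω hω
      have g5 := hν1 ω hω l hl.1 l.isLt
      rw [← e3]
      have g6 : (y ω l - ν (W ω) l * y ω k) - (y ω' l - ν (W ω) l * y ω' k) =
          ((y ω l - κ (W ω) l * y ω n) - (y ω' l - κ (W ω) l * y ω' n)) -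
          ν (W ω) l * ((y ω k - κ (W ω) k * y ω n) - (y ω' k - κ (W ω) k * y ω' n)) := by
        have : κ (W ω) l = ν (W ω) l * κ (W ω) k := by
          rw [hν ω hω]
          field_simp
        rw [this]
        ring
      have g7 : |(y ω l - ν (W ω) l * y ω k) - (y ω' l - ν (W ω) l * y ω' k)| ≤
          2 * (1 / 2 ^ r) := by
        rw [g6]
        refine (abs_sub _ _).trans ?_
        rw [abs_mul]
        have : |ν (W ω) l| * |(y ω k - κ (W ω) k * y ω n) - (y ω' k - κ (W ω) k * y ω' n)| ≤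
            1 * (1 / 2 ^ r) := mul_le_mul g5 g4 (abs_nonneg _) zero_le_one
        linarith
      have := fl_sca p0.le g7
      have e5 : (2 : ℝ) ^ r * (2 * (1 / 2 ^ r)) = 2 := by field_simp
      rw [e5] at this
      linarith
    · rw [if_neg hl, if_neg hl, sub_self, abs_zero]
      norm_num
  have c2 : CH Q Y1 (fun ω => (X ω, W ω)) ≤ Real.log (2 * 4 + 1) := by
    refine CH_pint h0 h1 _ _ (by norm_num) fun ω ω' hω hω' e => ?_
    simp only [Prod.mk.injEq] at e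
    obtain ⟨e1, e3⟩ := e
    have g2 := congrFun e1 ⟨k, by omega⟩
    rw [hX ω hω k hk1 hkn, hX ω' hω' k hk1 hkn] at g2
    rw [← e3] at g2
    have g4 := fl_inv p0 g2
    obtain ⟨k1, k2, k3, k4⟩ := hκ ω hω
    have g5 := (hy ω hω).2
    have g6 := (hy ω' hω').2
    have g7 : |κ (W ω) k * (y ω n - y ω' n)| ≤ 2 * (1 / 2 ^ r₁) := by
      rw [abs_mul]
      have h3 : |y ω n - y ω' n| ≤ 2 := by
        refine (abs_sub _ _).trans ?_
        linarith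
      calc |κ (W ω) k| * |y ω n - y ω' n| ≤ 1 / 2 ^ r₁ * 2 :=
            mul_le_mul k3 h3 (abs_nonneg _) (by positivity)
        _ = _ := mul_comm _ _
    have g8 : (1 : ℝ) / 2 ^ r ≤ 1 / 2 ^ r₁ := one_div_le_one_div_of_le p1
      (pow_le_pow_right₀ (by norm_num) hr1)
    have g9 : |y ω k - y ω' k| ≤ 3 * (1 / 2 ^ r₁) := by
      have : y ω k - y ω' k = ((y ω k - κ (W ω) k * y ω n) - (y ω' k - κ (W ω) k * y ω' n)) +
          κ (W ω) k * (y ω n - y ω' n) := by ring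
      rw [this]
      refine (abs_add_le _ _).trans ?_
      linarith
    rw [hY1]
    have := fl_sca p1.le g9
    have e5 : (2 : ℝ) ^ r₁ * (3 * (1 / 2 ^ r₁)) = 3 := by field_simp
    rw [e5] at this
    linarith
  have c3 : CH Q Z (fun ω => (X ω, W ω)) ≤ Real.log (2 * 4 + 1) := by
    refine CH_pint h0 h1 _ _ (by norm_num) fun ω ω' hω hω' e => ?_
    simp only [Prod.mk.injEq] at e
    obtain ⟨e1, e3⟩ := e
    have g2 := congrFun e1 ⟨k, by omega⟩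
    rw [hX ω hω k hk1 hkn, hX ω' hω' k hk1 hkn] at g2
    rw [← e3] at g2
    have g4 := fl_inv p0 g2
    obtain ⟨k1, k2, k3, k4⟩ := hκ ω hω
    rw [hZ]
    simp only
    rw [← e3]
    have g5 : (y ω n - 1 / κ (W ω) k * y ω k) - (y ω' n - 1 / κ (W ω) k * y ω' k) =
        -(1 / κ (W ω) k) * ((y ω k - κ (W ω) k * y ω n) - (y ω' k - κ (W ω) k * y ω' n)) := by
      field_simp
      ring
    have g6 : |(y ω n - 1 / κ (W ω) k * y ω k) - (y ω' n - 1 / κ (W ω) k * y ω' k)| ≤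
        2 ^ r₂ * (1 / 2 ^ r) := by
      rw [g5, abs_mul, abs_neg, abs_div, abs_one]
      have h3 : 1 / |κ (W ω) k| ≤ 2 ^ r₂ := by
        rw [div_le_iff₀ (abs_pos.2 k1)]
        rw [div_le_iff₀ p2] at k2
        linarith
      exact mul_le_mul h3 g4 (abs_nonneg _) p2.le
    have := fl_sca p3.le g6
    have e5 : (2 : ℝ) ^ (r - r₂) * (2 ^ r₂ * (1 / 2 ^ r)) = 1 := by
      have : (2 : ℝ) ^ r = 2 ^ (r - r₂) * 2 ^ r₂ := by
        rw [← pow_add]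
        congr 1
        omega
      rw [this]
      field_simp
    rw [e5] at this
    linarith
  -- (2) `Y1` from `Z0`
  have c4 : CH Q Y1 (fun ω => (Z0 ω, (rb ω, W ω))) ≤ Real.log (2 * 4 + 1) := by
    refine CH_pint h0 h1 _ _ (by norm_num) fun ω ω' hω hω' e => ?_
    simp only [Prod.mk.injEq] at e
    obtain ⟨e1, -, e3⟩ := e
    rw [hZ0] at e1
    simp only at e1
    rw [← e3] at e1
    have g4 := fl_inv (by positivity) e1
    rw [pow_zero, div_one] at g4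
    obtain ⟨k1, k2, k3, k4⟩ := hκ ω hω
    have g5 := (hy ω hω).2
    have g6 := (hy ω' hω').2
    have h3 : |y ω n - y ω' n| ≤ 2 := by
      refine (abs_sub _ _).trans ?_
      linarith
    have g7 : y ω k - y ω' k = κ (W ω) k * ((y ω n - y ω' n) -
        ((y ω n - 1 / κ (W ω) k * y ω k) - (y ω' n - 1 / κ (W ω) k * y ω' k))) := by
      field_simp
      ring
    have g8 : |y ω k - y ω' k| ≤ 3 * (1 / 2 ^ r₁) := by
      rw [g7, abs_mul]
      calc |κ (W ω) k| * _ ≤ 1 / 2 ^ r₁ * 3 :=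
            mul_le_mul k3 ((abs_sub _ _).trans (by linarith)) (abs_nonneg _) (by positivity)
        _ = _ := mul_comm _ _
    rw [hY1]
    have := fl_sca p1.le g8
    have e5 : (2 : ℝ) ^ r₁ * (3 * (1 / 2 ^ r₁)) = 3 := by field_simp
    rw [e5] at this
    linarith
  -- (3) the chain
  have d1 := base_mod h0 h1 (y := y) hk1 hkn hν1 hr1
  rw [← hrb] at d1
  have d1' : CH Q (rdg n r y) W ≤ CH Q (fun ω => (rb ω, Y1 ω)) W +
      ((r : ℝ) - r₁) * Real.log 2 + (n * Real.log 7 + Real.log 5) := by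
    rw [hY1]
    exact d1
  have d2 := CH_chain h0 Z (fun ω => (rb ω, Y1 ω)) W
  have d3 : CH Q (fun ω => (Z ω, (rb ω, Y1 ω))) W ≤ CH Q X W +
      CH Q (fun ω => (Z ω, (rb ω, Y1 ω))) (fun ω => (X ω, W ω)) := CH_le_add h0 _ X W
  have d4 := CH_subadd h0 Z (fun ω => (rb ω, Y1 ω)) (fun ω => (X ω, W ω))
  have d5 := CH_subadd h0 rb Y1 (fun ω => (X ω, W ω))
  have d6 : CH Q Z (fun ω => (Z0 ω, (rb ω, W ω))) ≤ CH Q Y1 (fun ω => (Z0 ω, (rb ω, W ω))) +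
      CH Q Z (fun ω => (Y1 ω, (Z0 ω, (rb ω, W ω)))) := CH_le_add h0 _ Y1 _
  have d7 : CH Q Z (fun ω => (Y1 ω, (Z0 ω, (rb ω, W ω)))) ≤
      CH Q Z (fun ω => ((rb ω, Y1 ω), W ω)) := CH_mono_cond h0 fun ω ω' _ _ e => by
    simp only [Prod.mk.injEq] at e ⊢
    tauto
  have d8 : b ≤ CH Q Z (fun ω => (Z0 ω, (rb ω, W ω))) := by
    rw [hZ, hZ0, hrb]
    exact hz
  have e9 : Real.log (2 * 4 + 1) = Real.log 9 := by norm_num
  have e7 : (Fintype.card (Fin n) : ℝ) * Real.log (2 * 3 + 1) = n * Real.log 7 := by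
    rw [Fintype.card_fin]
    norm_num
  have e5 : 0 ≤ Real.log 5 := Real.log_nonneg (by norm_num)
  rw [e9] at c2 c3 c4
  rw [e7] at c1
  linarith

end rot

end Pool.TT5
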