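import Pool.Agent.H12.TT.Yl

/-!
# Frames which differ by functions of the time

`shd_of`: `Shd` from the frames of `geoQ`. `yh_shd`: `YH` and `Shd` at a later place.
-/

set_option autoImplicit false

namespace Pool.TT5

open Finset Real MvPolynomial
open Pool.Agent.H49.Ent Pool.Agent.H32.Dense Pool.STK Pool.STAT
open Pool.TC12 (YH Shd)
open Pool.P4 (bb)

/-- A polynomial in the time. -/
theorem eval_time {A : PN} (hA : A.vars ⊆ {0}) (x : ℕ → ℝ) :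
    eval x A = eval (fun _ => x 0) A := by
  refine MvPolynomial.hom_congr_vars (f₁ := eval x) (f₂ := eval fun _ => x 0) ?_ ?_ rfl
  · ext a
    simp
  · intro i hi _
    have h : i = 0 := by
      have := hA hi
      simpa using this
    rw [h]
    simp

theorem shd_of {D : NDat2} {n i₀ i j r : ℕ} {q : D.Ω → ℝ} {E : D.Ω → Prop}
    {P₀ P : D.Γ × D.Γ → ℕ → PN} (h : ∀ ω, E ω → ∀ l, 1 ≤ l → ∃ A : PN, A.vars ⊆ {0} ∧
      P (bb D i j r ω) l = P₀ (bb D i₀ j r ω) l + A) : Shd D n i₀ i j r q E P₀ P := by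
  intro ω _ hE l l1 _
  obtain ⟨A, hA, e⟩ := h ω hE l l1
  refine ⟨fun t => eval (fun _ => t) A, fun x => ?_⟩
  rw [e, map_add, eval_time hA x]

/-- `YH` and `Shd` at a later place. -/
theorem yh_shd {D : NDat2} {n d K J a₀ w₀ z M i₀ i j r : ℕ} {lam gam : ℕ → ℝ} {κ C₁ C : ℝ}
    {q : D.Ω → ℝ} {E : D.Ω → Prop} {P₀ P : D.Γ × D.Γ → ℕ → PN}
    (hO : D.Ok2 n K J a₀ w₀ z M lam gam κ C₁ q) (hlam : ∀ l, 1 ≤ l → l ≤ n → lam l = 1)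
    (hC₁ : 1 ≤ C₁) (hC : 0 ≤ C) (hz : 1 ≤ z) (h1 : 1 ≤ i₀) (h2 : i₀ + r ≤ i + 1) (h3 : i₀ ≤ i)
    (h4 : i < M) (h5 : j ≤ M) (h6 : r ≤ j)
    (hdep : Pool.TC.Dep D n d J w₀ z M i₀ j r C q E P₀)
    (h : ∀ ω, E ω → ∀ l, 1 ≤ l → ∃ A : PN, A.vars ⊆ {0} ∧
      P (bb D i j r ω) l = P₀ (bb D i₀ j r ω) l + A) :
    YH D n d K J a₀ w₀ z M i₀ i j r lam gam κ C₁ C q E P₀ ∧ Shd D n i₀ i j r q E P₀ P :=
  ⟨⟨hO, hlam, hC₁, hC, hz, h1, h2, h3, h4, h5, h6, hdep⟩, shd_of h⟩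

end Pool.TT5
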