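import Pool.Agent.H5.TT.Tot

/-!
# The digits of the group modulo a direction: the theorem
-/

set_option autoImplicit false

namespace Pool.TT5

open Finset Real
open Pool.Agent.H49.Ent Pool.Agent.H32.Dense Pool.STK Pool.KA Pool.KSAT Pool.K2S

section

variable {Ω σ τ ρ V : Type} [Fintype Ω]

/-- The small pieces of an event have a small share. -/
theorem small_le [Fintype V] {q : Ω → ℝ} {ϖ' : ℝ} (hϖ' : 0 ≤ ϖ') (A : Ω → Prop)
    (c : Ω → V) : Pe q (fun ω => A ω ∧ ¬ ϖ' ≤ Pe q (fun ω' => A ω' ∧ c ω' = c ω)) ≤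
      Fintype.card V * ϖ' := by
  classical
  have hg : ∀ v, Pe q (fun ω' => A ω' ∧ c ω' = v) = ∑ ω, if A ω ∧ c ω = v then q ω else 0 := by
    intro v
    rw [Pe_eq]
    refine Finset.sum_congr rfl fun ω _ => ?_
    by_cases h4 : A ω ∧ c ω = v
    · rw [if_pos h4, if_pos h4]
    · rw [if_neg h4, if_neg h4]
  obtain ⟨g, hgg⟩ : ∃ g : V → ℝ, ∀ v, g v = ∑ ω, if A ω ∧ c ω = v then q ω else 0 :=
    ⟨_, fun v => rfl⟩
  simp only [hg, ← hgg]
  have h1 : Pe q (fun ω => A ω ∧ ¬ ϖ' ≤ g (c ω)) =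
      ∑ v, if ϖ' ≤ g v then 0 else g v := by
    have h2 : ∀ v, (if ϖ' ≤ g v then 0 else g v) =
        ∑ ω, if A ω ∧ c ω = v ∧ ¬ ϖ' ≤ g v then q ω else 0 := by
      intro v
      by_cases h3 : ϖ' ≤ g v
      · rw [if_pos h3]
        refine (Finset.sum_eq_zero fun ω _ => ?_).symm
        rw [if_neg (fun h4 => h4.2.2 h3)]
      · rw [if_neg h3, hgg v]
        refine Finset.sum_congr rfl fun ω _ => ?_
        rw [← hgg v]
        by_cases h4 : A ω ∧ c ω = v
        · rw [if_pos h4, if_pos ⟨h4.1, h4.2, h3⟩]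
        · rw [if_neg h4, if_neg (fun h5 => h4 ⟨h5.1, h5.2.1⟩)]
    rw [Finset.sum_congr rfl fun v _ => h2 v, Finset.sum_comm, Pe_eq]
    refine Finset.sum_congr rfl fun ω _ => ?_
    have h3 : ∀ v, (if A ω ∧ c ω = v ∧ ¬ ϖ' ≤ g v then q ω else 0) =
        if v = c ω then (if A ω ∧ ¬ ϖ' ≤ g (c ω) then q ω else 0) else 0 := by
      intro v
      by_cases h4 : v = c ω
      · rw [if_pos h4, h4]
        simp only [true_and]
      · rw [if_neg h4, if_neg (fun h5 => h4 h5.2.1.symm)]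
    rw [Finset.sum_congr rfl fun v _ => h3 v, Finset.sum_ite_eq', if_pos (Finset.mem_univ _)]
    by_cases h4 : A ω ∧ ¬ ϖ' ≤ g (c ω)
    · rw [if_pos h4, if_pos h4]
    · rw [if_neg h4, if_neg h4]
  rw [h1]
  have h2 : ∑ v, (if ϖ' ≤ g v then 0 else g v) ≤ ∑ _v : V, ϖ' := by
    refine Finset.sum_le_sum fun v _ => ?_
    split_ifs with h3
    · exact hϖ'
    · exact (not_le.1 h3).le
  rw [Finset.sum_const, Finset.card_univ, nsmul_eq_mul] at h2
  exact h2

theorem Pe_or_le {q : Ω → ℝ} (hq : IsLaw q) {A B C : Ω → Prop} (h : ∀ ω, A ω → B ω ∨ C ω) :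
    Pe q A ≤ Pe q B + Pe q C := by
  classical
  rw [Pe_eq, Pe_eq, Pe_eq, ← Finset.sum_add_distrib]
  refine Finset.sum_le_sum fun ω _ => ?_
  have h0 := hq.nonneg ω
  by_cases h1 : A ω
  · rcases h ω h1 with h2 | h2
    · rw [if_pos h1, if_pos h2]
      split_ifs <;> linarith
    · rw [if_pos h1, if_pos h2]
      split_ifs <;> linarith
  · rw [if_neg h1]
    split_ifs <;> linarith

open Classical in
/-- The pivot in the base. -/
noncomputable def kxB {c : ℕ} (n : ℕ) (gs : Fin c → ℕ) (v : Fin c → ℝ) : Option (Fin c) :=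
  if h : ∃ p, gs p < n ∧ v p ≠ 0 ∧ ∀ u, gs u < n → |v u| ≤ |v p| then some h.choose else none

theorem kxB_some {c n : ℕ} {gs : Fin c → ℕ} {v : Fin c → ℝ} {p : Fin c}
    (h : kxB n gs v = some p) : gs p < n ∧ v p ≠ 0 ∧ ∀ u, gs u < n → |v u| ≤ |v p| := by
  unfold kxB at h
  split_ifs at h with h1
  rw [Option.some_inj] at h
  rw [← h]
  exact h1.choose_spec

theorem kxB_none {c n : ℕ} {gs : Fin c → ℕ} {v : Fin c → ℝ} (h : kxB n gs v = none) :
    ∀ u, gs u < n → v u = 0 := by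
  classical
  intro u hu
  by_contra hv
  have hex : ∃ p, gs p < n ∧ v p ≠ 0 ∧ ∀ u, gs u < n → |v u| ≤ |v p| := by
    obtain ⟨p, hp, hm⟩ := Finset.exists_max_image
      ((Finset.univ : Finset (Fin c)).filter fun u => gs u < n) (fun u => |v u|)
      ⟨u, Finset.mem_filter.2 ⟨Finset.mem_univ _, hu⟩⟩
    rw [Finset.mem_filter] at hp
    refine ⟨p, hp.2, ?_, fun u hu => hm u (Finset.mem_filter.2 ⟨Finset.mem_univ _, hu⟩)⟩
    intro h1
    have := hm u (Finset.mem_filter.2 ⟨Finset.mem_univ _, hu⟩)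
    rw [h1, abs_zero] at this
    exact hv (abs_nonpos_iff.1 this)
  unfold kxB at h
  rw [dif_pos hex] at h
  exact absurd h (Option.some_ne_none _)

/-- The slow coordinates are counted. -/
theorem slow_le {c : ℕ} (r : ℕ) (gs : Fin c → ℕ) {y : Ω → ℕ → ℝ} {Q : Ω → ℝ} (hQ : IsLaw Q)
    {B0 : ℝ} (hB0 : 1 ≤ B0) (hy : ∀ ω, 0 < Q ω → ∀ u, |y ω (gs u)| ≤ B0) {T : Type} (W : Ω → T) :
    CH Q (gdA r gs y) W ≤ c * (r * Real.log 2 + Real.log (7 * B0)) := by
  have p1 : (1 : ℝ) ≤ 2 ^ r := one_le_pow₀ (by norm_num)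
  have h1 := CH_pfam hQ.nonneg hQ.sum_one (gdA r gs y) W (D := 2 * (2 ^ r * B0) + 1)
    (by positivity) (by
      intro ω ω' hω hω' _ u
      unfold gdA
      refine (fl_dif _ _).trans ?_
      rw [← mul_sub, abs_mul, abs_of_pos (by positivity : (0 : ℝ) < 2 ^ r)]
      have h2 : |y ω (gs u) - y ω' (gs u)| ≤ 2 * B0 := by
        refine (abs_sub _ _).trans ?_
        linarith [hy ω hω u, hy ω' hω' u]
      have h3 := mul_le_mul_of_nonneg_left h2 (by positivity : (0 : ℝ) ≤ 2 ^ r)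
      linarith)
  rw [Fintype.card_fin] at h1
  refine h1.trans (mul_le_mul_of_nonneg_left ?_ (Nat.cast_nonneg c))
  rw [← Real.log_pow, ← Real.log_mul (by positivity) (by positivity)]
  refine Real.log_le_log (by positivity) ?_
  have : (1 : ℝ) ≤ 2 ^ r * B0 := by nlinarith
  nlinarith

/-- **The digits of the group modulo a vector are full.** -/
theorem tot_all {q : Ω → ℝ} (hq : IsLaw q) {n c k r : ℕ} {P : ℕ → Prop} {gs : Fin c → ℕ}
    {ys : Fin k → ℕ} (hen : EnA n P gs ys) {E0 : Ω → Prop} {cT : Ω → σ} {W : Ω → τ}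
    (hWc : Det q W cT) {y : Ω → ℕ → ℝ} {B0 a ϖ' : ℝ} (hB0 : 1 ≤ B0)
    (hy : ∀ ω, 0 < q ω → E0 ω → ∀ b, |y ω (ys b)| ≤ B0) (hT : TotN q E0 n r P cT W y a ϖ')
    (hF : FulE q E0 n r W y a ϖ') (R : Ω → ρ) {cL ζ ϖ : ℝ} (hc : 0 < cL) (hR : CH q R cT ≤ cL)
    (hζ : 0 < ζ) (hϖ : 0 < ϖ) {N : ℕ} (hN : Real.exp (2 * cL / (ϖ * ζ)) ≤ N) (hϖ'0 : 0 ≤ ϖ')
    (hϖ' : (N * (c + 1)) * ϖ' ≤ ζ / 2 * ϖ) (v : ρ → Fin c → ℝ) {E : Ω → Prop}
    (hE : ∀ ω, E ω → E0 ω) (hEm : ϖ ≤ Pe q E) {B : ℝ} (hB : 0 ≤ B) (haB : a ≤ B) :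
    a - (n + 1) * Real.log 23 - k * (r * Real.log 2 + Real.log (7 * B0)) - ζ * B ≤
      CH (cond q E True) (fun ω => QB n gs (v (R ω)) (gdA r gs y ω))
        (fun ω => (gdA r ys y ω, (W ω, R ω))) := by
  classical
  have hE0 : 0 < Pe q E := hϖ.trans_le hEm
  have hQ := isLaw_cond hq hE0
  have hEc : 0 ≤ CH q R cT := CH_nonneg hq.nonneg R cT
  obtain ⟨idx, hidx, hdet⟩ := few_part hQ R cT (cL := cL / ϖ) (ζ := ζ / 2) (by positivity) (by
      refine (cond_up hq hE0 R cT).trans ?_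
      exact div_le_div₀ hc.le hR hϖ hEm) (by positivity) (N := N) (by
      refine le_trans (le_of_eq ?_) hN
      congr 1
      field_simp)
  have l23 : 0 ≤ Real.log 23 := Real.log_nonneg (by norm_num)
  have hl0 : 0 < Real.log 2 := Real.log_pos (by norm_num)
  have l7 : 0 ≤ Real.log (7 * B0) := Real.log_nonneg (by linarith)
  obtain ⟨cc, hcc⟩ : ∃ cc : Ω → Option (Fin N) × Option (Fin c), cc = fun ω =>
      (idx ω, kxB n gs (v (R ω))) := ⟨_, rfl⟩
  obtain ⟨e, he⟩ : ∃ e : ℝ, e = (n + 1) * Real.log 23 := ⟨_, rfl⟩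
  obtain ⟨b, hb⟩ : ∃ b : ℝ, b = k * (r * Real.log 2 + Real.log (7 * B0)) := ⟨_, rfl⟩
  have he0 : 0 ≤ e := by
    rw [he]
    positivity
  have hb0 : 0 ≤ b := by
    rw [hb]
    positivity
  rw [← he, ← hb]
  refine glue2 hq hE0 _ _ cc (fun w => w.1 ≠ none ∧ ϖ' ≤ Pe q (fun ω' => E ω' ∧ cc ω' = w))
    (by linarith) hB hζ.le ?_ ?_
  · -- the bad part
    have h1 := Pe_or_le hq (A := fun ω => E ω ∧ ¬ ((cc ω).1 ≠ none ∧
      ϖ' ≤ Pe q (fun ω' => E ω' ∧ cc ω' = cc ω))) (B := fun ω => E ω ∧ idx ω = none)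
      (C := fun ω => (E ω ∧ idx ω ≠ none) ∧ ¬ ϖ' ≤ Pe q (fun ω' => (E ω' ∧ idx ω' ≠ none) ∧
        cc ω' = cc ω)) (by
        rintro ω ⟨h1, h2⟩
        by_cases h3 : idx ω = none
        · exact Or.inl ⟨h1, h3⟩
        · refine Or.inr ⟨⟨h1, h3⟩, fun h4 => h2 ⟨?_, h4.trans ?_⟩⟩
          · rw [hcc]
            exact h3
          · exact Pe_mono hq fun ω' h5 => ⟨h5.1.1, h5.2⟩)
    have h2 : Pe q (fun ω => E ω ∧ idx ω = none) ≤ ζ / 2 * Pe q E := by
      have h3 := Pe_cond (p := q) (A := E) (fun ω => idx ω = none)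
      rw [h3, div_le_iff₀ hE0] at hidx
      exact hidx
    have h3 : Pe q (fun ω => (E ω ∧ idx ω ≠ none) ∧ ¬ ϖ' ≤ Pe q (fun ω' =>
        (E ω' ∧ idx ω' ≠ none) ∧ cc ω' = cc ω)) ≤ (N * (c + 1)) * ϖ' := by
      obtain ⟨c2, hc2⟩ : ∃ c2 : Ω → Option (Fin N × Option (Fin c)), c2 = fun ω =>
          (idx ω).map fun i => (i, kxB n gs (v (R ω))) := ⟨_, rfl⟩
      rcases Nat.eq_zero_or_pos N with hN0 | hN0
      · refine le_trans (le_of_eq ?_) (by positivity)
        rw [Pe_eq]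
        refine Finset.sum_eq_zero fun ω _ => ?_
        rw [if_neg]
        rintro ⟨⟨h4, h5⟩, -⟩
        obtain ⟨i, -⟩ := Option.ne_none_iff_exists'.1 h5
        have := i.isLt
        omega
      · have i₀ : Fin N := ⟨0, hN0⟩
        obtain ⟨c3, hc3⟩ : ∃ c3 : Ω → Fin N × Option (Fin c), c3 = fun ω =>
            ((idx ω).getD i₀, kxB n gs (v (R ω))) := ⟨_, rfl⟩
        have h4 := small_le (q := q) hϖ'0 (fun ω => E ω ∧ idx ω ≠ none) c3
        rw [Fintype.card_prod, Fintype.card_option, Fintype.card_fin, Fintype.card_fin] at h4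
        push_cast at h4
        refine le_trans (Pe_mono hq ?_) h4
        rintro ω ⟨h5, h6⟩
        refine ⟨h5, fun h7 => h6 (h7.trans (Pe_mono hq ?_))⟩
        rintro ω' ⟨h8, h9⟩
        refine ⟨h8, ?_⟩
        rw [hcc]
        rw [hc3] at h9
        simp only [Prod.mk.injEq] at h9 ⊢
        refine ⟨?_, h9.2⟩
        obtain ⟨i, hi⟩ := Option.ne_none_iff_exists'.1 h5.2
        obtain ⟨i', hi'⟩ := Option.ne_none_iff_exists'.1 h8.2
        have h10 := h9.1
        rw [hi, hi', Option.getD_some, Option.getD_some] at h10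
        rw [hi, hi', h10]
    have h4 : ζ / 2 * ϖ ≤ ζ / 2 * Pe q E := mul_le_mul_of_nonneg_left hEm (by positivity)
    linarith
  · -- a good piece
    rintro ⟨i, p⟩ ⟨hi, hmass⟩ hpos
    obtain ⟨E', hE'd⟩ : ∃ E' : Ω → Prop, E' = fun ω => E ω ∧ cc ω = (i, p) := ⟨_, rfl⟩
    rw [← hE'd] at hmass hpos ⊢
    have hlaw := isLaw_cond hq hpos
    have hpE : ∀ ω, 0 < cond q E' True ω → 0 < q ω ∧ E' ω := fun ω hω =>
      ⟨((cond_pos_iff hq.nonneg E' True ω).1 hω).1,
        of_eq_true ((cond_pos_iff hq.nonneg E' True ω).1 hω).2⟩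
    have hEE : ∀ ω, E' ω → E ω := fun ω hω => by
      rw [hE'd] at hω
      exact hω.1
    have hid : ∀ ω, E' ω → idx ω = i := fun ω hω => by
      rw [hE'd, hcc] at hω
      exact (Prod.ext_iff.1 hω.2).1
    have hkx : ∀ ω, E' ω → kxB n gs (v (R ω)) = p := fun ω hω => by
      rw [hE'd, hcc] at hω
      exact (Prod.ext_iff.1 hω.2).2
    have hRc : ∀ ω ω', E' ω → E' ω' → cT ω = cT ω' → R ω = R ω' := fun ω ω' h1 h2 h3 =>
      hdet ω ω' h3 ((hid ω h1).trans (hid ω' h2).symm) (by rw [hid ω h1]; exact hi)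
    have hRW : ∀ ω ω', 0 < cond q E' True ω → 0 < cond q E' True ω' → W ω = W ω' →
        R ω = R ω' := fun ω ω' h1 h2 h3 =>
      hRc ω ω' (hpE ω h1).2 (hpE ω' h2).2 (hWc ω ω' (hpE ω h1).1 (hpE ω' h2).1 h3)
    have hsl := slow_le r ys hlaw hB0 (y := y)
      (fun ω hω u => hy ω (hpE ω hω).1 (hE ω (hEE ω (hpE ω hω).2)) u) W
    rw [← hb] at hsl
    have fin : CH (cond q E' True) (fun ω => QB n gs (v (R ω)) (gdA r gs y ω))
        (fun ω => (gdA r ys y ω, W ω)) ≤ CH (cond q E' True)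
        (fun ω => QB n gs (v (R ω)) (gdA r gs y ω)) (fun ω => (gdA r ys y ω, (W ω, R ω))) := by
      refine CH_mono_cond hlaw.nonneg fun ω ω' h1 h2 h3 => ?_
      simp only [Prod.mk.injEq] at h3 ⊢
      exact ⟨h3.1, h3.2, hRW ω ω' h1 h2 h3.2⟩
    refine le_trans ?_ fin
    rcases p with _ | p₀
    · -- no direction in the base
      have a1 := hF E' (fun ω hω => hE ω (hEE ω hω)) hmass
      have a2 := to_cnd hlaw _ (fun ω => QB n gs (v (R ω)) (gdA r gs y ω))
        (gdA r ys y) W a1 (e := 0) (by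
        refine le_of_eq (CH_eq_zero hlaw.nonneg ?_)
        intro ω ω' hω hω' h5
        simp only [Prod.mk.injEq] at h5
        obtain ⟨⟨e1, e2⟩, -⟩ := h5
        funext l
        have hl := l.isLt
        by_cases h : P ((l : ℕ) + 1)
        · obtain ⟨u, hu⟩ := hen.go ((l : ℕ) + 1) (by omega) (by omega) h
          have e3 := congrFun e1 u
          rw [QB_none hen (kxB_none (hkx ω (hpE ω hω).2)) _ u (by omega),
            QB_none hen (kxB_none (hkx ω' (hpE ω' hω').2)) _ u (by omega)] at e3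
          unfold gdA at e3
          rw [hu] at e3
          exact e3
        · obtain ⟨a, ha⟩ := hen.yo ((l : ℕ) + 1) (by omega) (by omega) h
          have e3 := congrFun e2 a
          unfold gdA at e3
          rw [ha] at e3
          exact e3) hsl
      linarith
    · -- the direction
      have hkp : ∀ ω, E' ω → gs p₀ < n ∧ v (R ω) p₀ ≠ 0 ∧
          ∀ u, gs u < n → |v (R ω) u| ≤ |v (R ω) p₀| := fun ω hω => kxB_some (hkx ω hω)
      obtain ⟨ω₀, hω₀⟩ : ∃ ω, 0 < cond q E' True ω := by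
        by_contra hcon
        push Not at hcon
        have : ∑ ω, cond q E' True ω ≤ 0 := Finset.sum_nonpos fun ω _ => hcon ω
        rw [hlaw.sum_one] at this
        linarith
      have hgp := (hkp ω₀ (hpE ω₀ hω₀).2).1
      obtain ⟨dr, hdr⟩ : ∃ dr : (Fin c → ℝ) → ℕ → ℝ, dr = fun w l =>
          if h : ∃ u, gs u = l then w h.choose / w p₀ else 0 := ⟨_, rfl⟩
      have hdg : ∀ w u, dr w (gs u) = w u / w p₀ := fun w u => by
        have hex : ∃ u', gs u' = gs u := ⟨u, rfl⟩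
        rw [hdr]
        simp only [dif_pos hex]
        rw [hen.gi hex.choose_spec]
      have hdy : ∀ w b, dr w (ys b) = 0 := fun w b => by
        have hex : ¬ ∃ u', gs u' = ys b := by
          rintro ⟨u', hu'⟩
          have h1 := (hen.y1 b).2.2
          rw [← hu'] at h1
          exact h1 (hen.g1 u').2.2
        rw [hdr]
        simp only [dif_neg hex]
      obtain ⟨κ, hκ⟩ : ∃ κ : σ → ℕ → ℝ, κ = fun s =>
          if h : ∃ ω, E' ω ∧ cT ω = s then dr (v (R h.choose))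
          else fun l => if l = gs p₀ then 1 else 0 := ⟨_, rfl⟩
      have hκc : ∀ ω, E' ω → κ (cT ω) = dr (v (R ω)) := fun ω hω => by
        have hex : ∃ ω', E' ω' ∧ cT ω' = cT ω := ⟨ω, hω, rfl⟩
        rw [hκ]
        simp only [dif_pos hex]
        rw [hRc _ ω hex.choose_spec.1 hω hex.choose_spec.2]
      have hDr : ∀ w : Fin c → ℝ, w p₀ ≠ 0 → (∀ u, gs u < n → |w u| ≤ |w p₀|) →
          DrN n (gs p₀) P (dr w) := fun w h1 h2 => by
        refine ⟨?_, fun l l1 ln => ?_, fun l l1 ln lP => ?_⟩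
        · rw [hdg, div_self h1]
        · by_cases hP : P l
          · obtain ⟨u, hu⟩ := hen.go l l1 ln.le hP
            rw [← hu, hdg, abs_div, div_le_one (abs_pos.2 h1)]
            exact h2 u (by omega)
          · obtain ⟨b, hb⟩ := hen.yo l l1 ln hP
            rw [← hb, hdy, abs_zero]
            norm_num
        · obtain ⟨b, hb⟩ := hen.yo l l1 ln lP
          rw [← hb, hdy]
      have hκD : ∀ s, DrN n (gs p₀) P (κ s) := fun s => by
        by_cases hex : ∃ ω, E' ω ∧ cT ω = s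
        · obtain ⟨ω, h1, h2⟩ := hex
          rw [← h2, hκc ω h1]
          obtain ⟨-, g1, g2⟩ := hkp ω h1
          exact hDr _ g1 g2
        · have hk1 : κ s = fun l => if l = gs p₀ then 1 else 0 := by
            rw [hκ]
            simp only [dif_neg hex]
          rw [hk1]
          refine ⟨?_, fun l l1 ln => ?_, fun l l1 ln lP => ?_⟩
          · show (if gs p₀ = gs p₀ then (1 : ℝ) else 0) = 1
            rw [if_pos rfl]
          · show |(if l = gs p₀ then (1 : ℝ) else 0)| ≤ 1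
            split_ifs
            · rw [abs_one]
            · rw [abs_zero]
              norm_num
          · show (if l = gs p₀ then (1 : ℝ) else 0) = 0
            rw [if_neg]
            intro h1
            rw [h1] at lP
            exact lP (hen.g1 p₀).2.2
      have a1 := hT (gs p₀) (hen.g1 p₀).1 hgp (hen.g1 p₀).2.2 κ hκD E'
        (fun ω hω => hE ω (hEE ω hω)) hmass
      have a3 := tdg_few hlaw (r := r) hen (S := Unit) (W := W) (vv := fun ω => v (R ω))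
        (κ := fun ω => κ (cT ω)) (y := y) (p₀ := p₀)
        (fun ω ω' h1 h2 h3 => congrArg v (hRW ω ω' h1 h2 h3))
        (fun ω ω' h1 h2 h3 => congrArg κ (hWc ω ω' (hpE ω h1).1 (hpE ω' h2).1 h3))
        (fun ω hω => by
          obtain ⟨-, g1, g2⟩ := hkp ω (hpE ω hω).2
          refine ⟨g1, g2, fun u => ?_, fun b => ?_⟩
          · simp only [hκc ω (hpE ω hω).2]
            exact hdg _ u
          · simp only [hκc ω (hpE ω hω).2]
            exact hdy _ b)
      rw [← he] at a3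
      exact to_cnd hlaw _ _ _ W a1 a3 hsl

end

end Pool.TT5
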