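import Pool.Agent.H5.TT.Tot2

/-!
# The digits of the group modulo a direction: numbers

`totN_shift`: the total form for heights which differ by a function of the condition. `fulE_shift`:
the fullness of the base for heights which determine the given ones. `b2_abs`: `tot_all` with numbers.
-/

set_option autoImplicit false

namespace Pool.TT5

open Finset Real
open Pool.Agent.H49.Ent Pool.Agent.H32.Dense Pool.STK Pool.KA Pool.KSAT Pool.K2S

section

variable {Ω σ τ : Type} [Fintype Ω]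

theorem fl_two {u v u' v' b : ℝ} (e : |(u - v) - (u' - v')| ≤ b) (h : ⌊u'⌋ = ⌊v'⌋) :
    |((⌊u⌋ : ℤ) : ℝ) - (⌊v⌋ : ℤ)| ≤ b + 2 := by
  refine (fl_dif _ _).trans ?_
  have h1 := (Int.abs_sub_lt_one_of_floor_eq_floor h).le
  have h2 : |u - v| ≤ |(u - v) - (u' - v')| + |u' - v'| := by
    have := abs_add_le ((u - v) - (u' - v')) (u' - v')
    rwa [sub_add_cancel] at this
  linarith

/-- The total form for heights which differ by a function of the condition and of the coordinates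
outside of `P`. -/
theorem totN_shift {q : Ω → ℝ} (hq : IsLaw q) {E0 : Ω → Prop} {n r : ℕ} {P : ℕ → Prop}
    {cT : Ω → σ} {W : Ω → τ} (hWc : Det q W cT) {y y' : Ω → ℕ → ℝ} {a ϖ B : ℝ} (hϖ : 0 < ϖ)
    (hB : 0 ≤ B) (hPn : P n)
    (h : ∀ ω ω', 0 < q ω → 0 < q ω' → E0 ω → E0 ω' → W ω = W ω' →
      (∀ m, 1 ≤ m → m < n → ¬ P m → |y' ω m - y' ω' m| ≤ 1 / 2 ^ r) → ∀ l, 1 ≤ l → l ≤ n →
      |(y ω l - y ω' l) - (y' ω l - y' ω' l)| ≤ B / 2 ^ r) (hT : TotN q E0 n r P cT W y a ϖ) :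
    TotN q E0 n r P cT W y' (a - (n + 1) * Real.log (2 * (2 * B + 2) + 1)) ϖ := by
  intro k hk1 hkn hkP κ hκ E hE hEm
  have hE0 : 0 < Pe q E := hϖ.trans_le hEm
  have hlaw := isLaw_cond hq hE0
  have hpE : ∀ ω, 0 < cond q E True ω → 0 < q ω ∧ E ω := fun ω hω =>
    ⟨((cond_pos_iff hq.nonneg E True ω).1 hω).1,
      of_eq_true ((cond_pos_iff hq.nonneg E True ω).1 hω).2⟩
  have h1 := hT k hk1 hkn hkP κ hκ E hE hEm
  have p0 : (0 : ℝ) < 2 ^ r := by positivity
  have h2 := CH_le_add hlaw.nonneg (fun ω => tdg n k r (κ (cT ω)) (y ω))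
    (fun ω => tdg n k r (κ (cT ω)) (y' ω)) W
  have h3 := CH_pfam hlaw.nonneg hlaw.sum_one (fun ω => tdg n k r (κ (cT ω)) (y ω))
    (fun ω => (tdg n k r (κ (cT ω)) (y' ω), W ω)) (D := 2 * B + 2) (by positivity) (by
      intro ω ω' hω hω' e l
      simp only [Prod.mk.injEq] at e
      obtain ⟨e1, e2⟩ := e
      obtain ⟨p1, p2⟩ := hpE ω hω
      obtain ⟨p3, p4⟩ := hpE ω' hω'
      have hc : cT ω = cT ω' := hWc ω ω' p1 p3 e2
      rw [← hc] at e1 ⊢
      have hd := h ω ω' p1 p3 (hE ω p2) (hE ω' p4) e2 (by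
        intro m m1 mn mP
        have e3 := congrFun e1 ⟨m, by omega⟩
        have hmk : m ≠ k := by
          intro h9
          rw [h9] at mP
          exact mP hkP
        have hm1 : 1 ≤ m ∧ m ≠ k := ⟨m1, hmk⟩
        have hm2 : ¬ m = n := by omega
        change (if 1 ≤ m ∧ m ≠ k then
            if m = n then ⌊(2 : ℝ) ^ r * ((y' ω n - κ (cT ω) n * y' ω k) / max 1 |κ (cT ω) n|)⌋
            else ⌊(2 : ℝ) ^ r * (y' ω m - κ (cT ω) m * y' ω k)⌋
          else 0) = (if 1 ≤ m ∧ m ≠ k then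
            if m = n then ⌊(2 : ℝ) ^ r * ((y' ω' n - κ (cT ω) n * y' ω' k) / max 1 |κ (cT ω) n|)⌋
            else ⌊(2 : ℝ) ^ r * (y' ω' m - κ (cT ω) m * y' ω' k)⌋
          else 0) at e3
        rw [if_pos hm1, if_pos hm1, if_neg hm2, if_neg hm2,
          (hκ (cT ω)).2.2 m m1 mn mP, zero_mul, zero_mul, sub_zero, sub_zero] at e3
        have e4 := (Int.abs_sub_lt_one_of_floor_eq_floor e3).le
        rw [← mul_sub, abs_mul, abs_of_pos p0] at e4
        rw [le_div_iff₀ p0]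
        linarith)
      have e3 := congrFun e1 l
      unfold tdg at e3 ⊢
      have hl := l.isLt
      have d2 := hd k hk1 hkn.le
      rw [le_div_iff₀ p0] at d2
      by_cases hl1 : 1 ≤ (l : ℕ) ∧ (l : ℕ) ≠ k
      · rw [if_pos hl1, if_pos hl1] at e3 ⊢
        have d1 := hd l hl1.1 (by omega)
        rw [le_div_iff₀ p0] at d1
        by_cases hn : (l : ℕ) = n
        · rw [if_pos hn, if_pos hn] at e3 ⊢
          refine fl_two ?_ e3
          rw [hn] at d1
          obtain ⟨m, hm⟩ : ∃ m : ℝ, m = max 1 |κ (cT ω) n| := ⟨_, rfl⟩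
          have hm1 : 1 ≤ m := by
            rw [hm]
            exact le_max_left _ _
          have hm2 : |κ (cT ω) n| ≤ m := by
            rw [hm]
            exact le_max_right _ _
          have hm0 : 0 < m := by linarith
          rw [← hm]
          have d3 : 2 ^ r * ((y ω n - κ (cT ω) n * y ω k) / m) -
              2 ^ r * ((y ω' n - κ (cT ω) n * y ω' k) / m) -
              (2 ^ r * ((y' ω n - κ (cT ω) n * y' ω k) / m) -
                2 ^ r * ((y' ω' n - κ (cT ω) n * y' ω' k) / m)) =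
              (((y ω n - y ω' n) - (y' ω n - y' ω' n)) * 2 ^ r - κ (cT ω) n *
                (((y ω k - y ω' k) - (y' ω k - y' ω' k)) * 2 ^ r)) / m := by
            field_simp
            ring
          rw [d3, abs_div, abs_of_pos hm0, div_le_iff₀ hm0]
          refine (abs_sub _ _).trans ?_
          rw [abs_mul, abs_mul, abs_mul, abs_of_pos p0]
          have d4 : |κ (cT ω) n| * (|(y ω k - y ω' k) - (y' ω k - y' ω' k)| * 2 ^ r) ≤ m * B :=
            mul_le_mul hm2 d2 (by positivity) hm0.le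
          nlinarith
        · rw [if_neg hn, if_neg hn] at e3 ⊢
          refine fl_two ?_ e3
          have d3 : 2 ^ r * (y ω l - κ (cT ω) l * y ω k) -
              2 ^ r * (y ω' l - κ (cT ω) l * y ω' k) -
              (2 ^ r * (y' ω l - κ (cT ω) l * y' ω k) -
                2 ^ r * (y' ω' l - κ (cT ω) l * y' ω' k)) =
              ((y ω l - y ω' l) - (y' ω l - y' ω' l)) * 2 ^ r - κ (cT ω) l *
                (((y ω k - y ω' k) - (y' ω k - y' ω' k)) * 2 ^ r) := by
            ring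
          rw [d3]
          refine (abs_sub _ _).trans ?_
          rw [abs_mul, abs_mul, abs_mul, abs_of_pos p0]
          have d5 := (hκ (cT ω)).2.1 l hl1.1 (by omega)
          have d4 : |κ (cT ω) l| * (|(y ω k - y ω' k) - (y' ω k - y' ω' k)| * 2 ^ r) ≤ 1 * B :=
            mul_le_mul d5 d2 (by positivity) zero_le_one
          linarith
      · rw [if_neg hl1, if_neg hl1, sub_self, abs_zero]
        positivity)
  rw [Fintype.card_fin] at h3
  push_cast at h3
  linarith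

/-- The fullness of the base, for heights which determine the given ones. -/
theorem fulE_shift {q : Ω → ℝ} (hq : IsLaw q) {E0 : Ω → Prop} {n r : ℕ} {W : Ω → τ}
    {y y' : Ω → ℕ → ℝ} {a ϖ B : ℝ} (hϖ : 0 < ϖ) (hB : 0 ≤ B)
    (h : ∀ ω ω', 0 < q ω → 0 < q ω' → E0 ω → E0 ω' → W ω = W ω' → ∀ l, 1 ≤ l → l < n →
      (∀ m, 1 ≤ m → m ≤ l → |y' ω m - y' ω' m| ≤ 1 / 2 ^ r) → |y ω l - y ω' l| ≤ B / 2 ^ r)
    (hF : FulE q E0 n r W y a ϖ) :
    FulE q E0 n r W y' (a - n * Real.log (2 * (B + 1) + 1)) ϖ := by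
  intro E hE hEm
  have hE0 : 0 < Pe q E := hϖ.trans_le hEm
  have hlaw := isLaw_cond hq hE0
  have hpE : ∀ ω, 0 < cond q E True ω → 0 < q ω ∧ E ω := fun ω hω =>
    ⟨((cond_pos_iff hq.nonneg E True ω).1 hω).1,
      of_eq_true ((cond_pos_iff hq.nonneg E True ω).1 hω).2⟩
  have h1 := hF E hE hEm
  have h2 := CH_le_add hlaw.nonneg (rdg n r y) (rdg n r y') W
  have p0 : (0 : ℝ) < 2 ^ r := by positivity
  have h3 := CH_pfam hlaw.nonneg hlaw.sum_one (rdg n r y)
    (fun ω => (rdg n r y' ω, W ω)) (D := B + 1) (by positivity) (by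
      intro ω ω' hω hω' e l
      simp only [Prod.mk.injEq] at e
      obtain ⟨e1, e2⟩ := e
      obtain ⟨p1, p2⟩ := hpE ω hω
      obtain ⟨p3, p4⟩ := hpE ω' hω'
      unfold rdg
      have hl := l.isLt
      refine (fl_dif _ _).trans ?_
      rw [← mul_sub, abs_mul, abs_of_pos p0]
      have h4 := h ω ω' p1 p3 (hE ω p2) (hE ω' p4) e2 ((l : ℕ) + 1) (by omega) (by omega) (by
        intro m m1 ml
        have e3 := congrFun e1 ⟨m - 1, by omega⟩
        unfold rdg at e3
        simp only at e3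
        rw [show m - 1 + 1 = m by omega] at e3
        have e4 := (Int.abs_sub_lt_one_of_floor_eq_floor e3).le
        rw [← mul_sub, abs_mul, abs_of_pos p0] at e4
        rw [le_div_iff₀ p0]
        linarith)
      rw [le_div_iff₀ p0] at h4
      linarith)
  rw [Fintype.card_fin] at h3
  have h4 : ((n - 1 : ℕ) : ℝ) ≤ n := by exact_mod_cast Nat.sub_le n 1
  have h5 : 0 ≤ Real.log (2 * (B + 1) + 1) := Real.log_nonneg (by linarith)
  have h6 := mul_le_mul_of_nonneg_right h4 h5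
  linarith

end

/-- **The digits of the group modulo a direction are full**, with numbers. -/
theorem b2_abs (n c k : ℕ) (x C ϖ : ℝ) (hn : 1 ≤ n) (hx : 0 < x) (hC : 0 ≤ C) (hϖ : 0 < ϖ) :
    ∃ (ϖ' : ℝ) (U₀ : ℕ), 0 < ϖ' ∧ ∀ (Ω σ τ ρ : Type) [Fintype Ω] (q : Ω → ℝ), IsLaw q →
      ∀ (z U : ℕ), 1 ≤ z → U₀ ≤ U → ∀ (P : ℕ → Prop) (gs : Fin c → ℕ) (ys : Fin k → ℕ),
      EnA n P gs ys → ∀ (E0 : Ω → Prop) (cT : Ω → σ) (W : Ω → τ) (R : Ω → ρ), Det q W cT →
      Det q cT R → ∀ (y : Ω → ℕ → ℝ),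
      (∀ ω, 0 < q ω → E0 ω → ∀ b, |y ω (ys b)| ≤ Real.exp (C * z)) →
      TotN q E0 n (U * z) P cT W y (((n : ℝ) - 1) * (U * z) * Real.log 2 - C * z) ϖ' →
      FulE q E0 n (U * z) W y (((n : ℝ) - 1) * (U * z) * Real.log 2 - C * z) ϖ' →
      ∀ (v : ρ → Fin c → ℝ) (E : Ω → Prop), (∀ ω, E ω → E0 ω) → ϖ ≤ Pe q E →
      ((c : ℝ) - 1 - x) * (U * z) * Real.log 2 ≤
        CH (cond q E True) (fun ω => QB n gs (v (R ω)) (gdA (U * z) gs y ω))
          (fun ω => (gdA (U * z) ys y ω, (W ω, R ω))) := by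
  have hnR : (1 : ℝ) ≤ n := by exact_mod_cast hn
  have hn0 : (0 : ℝ) < n := by linarith
  have hl0 : 0 < Real.log 2 := Real.log_pos (by norm_num)
  have hl1 : Real.log 2 ≤ 1 := by linarith [Real.log_two_lt_d9]
  have l23 : Real.log 23 ≤ 5 := by
    have : Real.log 23 ≤ Real.log (2 ^ 5) := Real.log_le_log (by norm_num) (by norm_num)
    rw [Real.log_pow] at this
    push_cast at this
    linarith
  have l7 : Real.log 7 ≤ 3 := by
    have : Real.log 7 ≤ Real.log (2 ^ 3) := Real.log_le_log (by norm_num) (by norm_num)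
    rw [Real.log_pow] at this
    push_cast at this
    linarith
  obtain ⟨ζ, hζ⟩ : ∃ ζ : ℝ, ζ = x / (2 * n) := ⟨_, rfl⟩
  have hζ0 : 0 < ζ := by
    rw [hζ]
    positivity
  obtain ⟨cL, hcL⟩ : ∃ cL : ℝ, cL = ϖ * ζ / 2 * Real.log 2 := ⟨_, rfl⟩
  have hcL0 : 0 < cL := by
    rw [hcL]
    positivity
  obtain ⟨A, hA⟩ : ∃ A : ℝ, A = C + 5 * (n + 1) + k * (3 + C) := ⟨_, rfl⟩
  obtain ⟨U₀, hU₀⟩ := exists_nat_ge (2 * A / (x * Real.log 2))
  refine ⟨ζ * ϖ / (4 * (c + 1)), U₀, by positivity, ?_⟩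
  intro Ω σ τ ρ _ q hq z U hz hU P gs ys hen E0 cT W R hWc hcR y hy hT hF v E hE hEm
  have hz1 : (1 : ℝ) ≤ z := by exact_mod_cast hz
  have hU1 : 2 * A / (x * Real.log 2) ≤ U := hU₀.trans (by exact_mod_cast hU)
  have hck : (c : ℝ) + k = n := by
    rw [← hen.card]
    push_cast
    ring
  have hA2 : 2 * A ≤ U * (x * Real.log 2) := by
    rwa [div_le_iff₀ (by positivity)] at hU1
  have h1 := tot_all hq hen hWc (B0 := Real.exp (C * z)) (Real.one_le_exp (by positivity)) hy hT hF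
    R (cL := cL) (ζ := ζ) (ϖ := ϖ) hcL0 (by
      rw [CH_eq_zero hq.nonneg hcR]
      exact hcL0.le) hζ0 hϖ (N := 2) (by
      have e1 : 2 * cL / (ϖ * ζ) = Real.log 2 := by
        rw [hcL]
        field_simp
      rw [e1, Real.exp_log (by norm_num)]
      norm_num) (by positivity) (by
      push_cast
      refine le_of_eq ?_
      field_simp
      ring) v hE hEm (B := n * (U * z) * Real.log 2) (by positivity) (by
      have : 0 ≤ C * z := by positivity
      have : 0 ≤ (U * z : ℝ) * Real.log 2 := by positivity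
      nlinarith)
  refine le_trans ?_ h1
  have e7 : Real.log (7 * Real.exp (C * z)) = Real.log 7 + C * z := by
    rw [Real.log_mul (by norm_num) (by positivity), Real.log_exp]
  rw [e7]
  push_cast
  have e1 : ζ * (n * (U * z) * Real.log 2) = x / 2 * ((U * z) * Real.log 2) := by
    rw [hζ]
    field_simp
  rw [e1]
  have e2 : (C : ℝ) * z + (n + 1) * Real.log 23 + k * (Real.log 7 + C * z) ≤ A * z := by
    rw [hA]
    have h2 : ((n : ℝ) + 1) * Real.log 23 ≤ (n + 1) * 5 :=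
      mul_le_mul_of_nonneg_left l23 (by positivity)
    have h3 : ((n : ℝ) + 1) * 5 * 1 ≤ (n + 1) * 5 * z := mul_le_mul_of_nonneg_left hz1 (by positivity)
    have h4 : (k : ℝ) * (Real.log 7 + C * z) ≤ k * (3 * z + C * z) := by
      refine mul_le_mul_of_nonneg_left ?_ (Nat.cast_nonneg k)
      linarith
    nlinarith
  have e3 : A * z ≤ x / 2 * ((U * z) * Real.log 2) := by
    have h2 := mul_le_mul_of_nonneg_right hA2 (by linarith : (0 : ℝ) ≤ z)
    nlinarith
  have e4 : ((c : ℝ) - 1 - x) * (U * z) * Real.log 2 = ((n : ℝ) - 1) * (U * z) * Real.log 2 -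
      k * (U * z * Real.log 2) - x * ((U * z) * Real.log 2) := by
    rw [← hck]
    ring
  rw [e4]
  have e5 : (k : ℝ) * (U * z * Real.log 2 + (Real.log 7 + C * z)) =
      k * (U * z * Real.log 2) + k * (Real.log 7 + C * z) := by ring
  rw [e5]
  linarith

end Pool.TT5
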