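import Pool.Agent.H5.TT.Vfo
import Pool.Agent.H5.TT.Cha

/-!
# The visible side of a place with an affine frame is good
-/

set_option autoImplicit false

namespace Pool.TT5

open Finset Real MvPolynomial
open Pool.Agent.H49.Ent Pool.Agent.H32.Dense Pool.STK Pool.STAT Pool.POT
open Pool.BFL (Pb)
open Pool.TC
open Pool.TC12 (YH hh yl Cy Shd)
open Pool.AF37 (ChtAff)
open Pool.P4 (bb ze)

/-- **The visible side of a place is good**, affine frames. -/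
theorem visF_aff (hA : ChtAff) (n d K K' B c k0 k1 : ℕ) (C₁ C h x ϖ γ io δ : ℝ) (hn : 1 ≤ n)
    (hB : 1 ≤ B) (hC₁ : 1 ≤ C₁) (hC : 1 ≤ C) (hh : 0 < h) (hx : 0 < x) (hϖ : 0 < ϖ) (hγ : 0 < γ)
    (hio : 0 < io) (hδ : 0 < δ) : ∃ (κ₀ : ℝ) (U₀ z₀ : ℕ), 0 < κ₀ ∧ ∀ N₁ : ℝ, 0 ≤ N₁ → ∃ X0 : ℕ,
    ∀ (D : NDat2) (Kn J a₀ w₀ z M w i₀ i j r r2 r' r'' y a U d' : ℕ) (th : ℝ)
      (lam gam : ℕ → ℝ) (κ ϖN : ℝ) (q : D.Ω → ℝ) (E : D.Ω → Prop)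
      (P₀ P : D.Γ × D.Γ → ℕ → PN) (S : Slo D) (ys : Fin (k0 + k1) → ℕ) (gs : Fin c → ℕ)
      (Tl : ℕ → Prop), z₀ ≤ z → U₀ ≤ U → X0 ≤ B * U * z → 0 < κ → κ ≤ κ₀ → 0 < ϖN → 2 * ϖN ≤ ϖ →
      Hyp D n d K K' J a₀ w₀ z M w i j r r2 r' r'' y a (B * U * z) th lam gam κ C₁ C q E P S ys
        gs →
      D.Strt → D.Slp n J z M q →
      YH D n d' K J a₀ w₀ z M i₀ i j r lam gam κ C₁ C q E P₀ → Shd D n i₀ i j r q E P₀ P →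
      (∀ x m, (P x m).totalDegree ≤ 1) →
      D.NF n z M B gam h C₁ ϖN q → 1 ≤ Kn → D.NFt Tl n J w₀ z M Kn C₁ κ q →
      (∀ l, 1 ≤ l → l < n → (th ≤ gam l ↔ Tl l)) → i + 2 * (B * U) ≤ M → j + 2 * (B * U) ≤ M →
      (U : ℝ) ≤ gam n * (M - j) →
      VisF (c := c) (k0 := k0) (k1 := k1) D J w z i j r d (B * U * z) n th gam C P S ys gs M q E
        (visQ D n i j (yl D i₀ i j r P₀ q E) J w (B * U * z) ys gs) id N₁ γ io (h / (2 * B)) x ϖ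
        (2 ^ (δ * (B * U * z : ℕ))) := by
  obtain ⟨t, z₁, ht, hY⟩ := yyh_aff hA n K C₁ C hn (by linarith)
  obtain ⟨κ₀, U₀, z₀, hκ₀, H⟩ := visF_of n d K' B c k0 k1 (t + 1) C₁ C h x ϖ γ io δ hn hB hC₁ hC hh
    hx hϖ hγ hio hδ
  refine ⟨κ₀, U₀, z₀ + z₁, hκ₀, fun N₁ hN₁ => ?_⟩
  obtain ⟨X0, H⟩ := H N₁ hN₁
  refine ⟨X0, ?_⟩
  intro D Kn J a₀ w₀ z M w i₀ i j r r2 r' r'' y a U d' th lam gam κ ϖN q E P₀ P S ys gs Tl hz hU hX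
    hκ hκκ hϖN hϖϖ hH hSt hSl HY hSh hdeg hNF hKn hNFt hTl hi hj hUg
  have hjM : j + 1 ≤ M := by
    have := hH.j2
    omega
  have hY' := hY D d d' K' J a₀ w₀ z M w i₀ i j r r2 r' r'' y a (j + 1) (B * U) (B * U * z) th lam
    gam κ q E P₀ P S c k0 k1 ys gs (fun l => th ≤ gam l) (by omega) hH hSt hSl HY hSh hdeg
    (by omega) hjM (by omega)
  exact H D K 1 J a₀ w₀ z M w i₀ i j r r2 r' r'' y a U (j + 1) t d' th lam gam κ ϖN q E P₀ P S ys gs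
    Tl (by omega) hU hX hκ hκκ hϖN hϖϖ hH HY hSh hNF (hNFt.mono hKn le_rfl le_rfl) hTl hi hj hUg
    (by omega) hjM ht (by omega) hH.w2 hY'

end Pool.TT5
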