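import Pool.Agent.H5.TT.B2f

/-!
# The fields `bR`, `Z_b`, `rel`, `wd` of the visible side of a place

For any picture `Pic`. The records `yy` differ from the coordinates over the frame of the place by
functions of the context and of the exact time (`YH.y_ze`).
-/

set_option autoImplicit false

namespace Pool.TT5

open Finset Real MvPolynomial
open Pool.Agent.H49.Ent Pool.Agent.H32.Dense Pool.STK Pool.STAT Pool.POT
open Pool.BFL (Pb)
open Pool.TC
open Pool.P4 (t0 rt bb ze zt z0 cl1 dg dgp Ry cb LLC tq GoodS FrP err dg_near Ry_pos)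
open Pool.P5 (sum_near sum_bd)

/-- An information and an additional variable. -/
theorem mi_add {Ω S T U V : Type} [Fintype Ω] {p : Ω → ℝ} (h0 : ∀ ω, 0 ≤ p ω) (A : Ω → S)
    (B : Ω → T) (V' : Ω → V) (Z : Ω → U) :
    MI p A B Z ≤ MI p A V' Z + CH p B (fun ω => (V' ω, Z ω)) := by
  unfold MI
  have h1 := CH_le_add h0 A B (fun ω => (V' ω, Z ω))
  have h2 : CH p A (fun ω => (B ω, (V' ω, Z ω))) ≤ CH p A (fun ω => (B ω, Z ω)) :=
    CH_mono_cond h0 fun ω ω' _ _ e => by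
      simp only [Prod.mk.injEq] at e ⊢
      exact ⟨e.1, e.2.2⟩
  linarith

section

variable {D : NDat2} {n d K K' J a₀ w₀ z M w i j r r2 r' r'' y a X : ℕ} {th : ℝ}
  {lam gam : ℕ → ℝ} {κ C₁ C : ℝ} {q : D.Ω → ℝ} {E : D.Ω → Prop} {P : D.Γ × D.Γ → ℕ → PN}
  {S : Slo D} {c k0 k1 : ℕ} {ys : Fin (k0 + k1) → ℕ} {gs : Fin c → ℕ}
  (H : Hyp D n d K K' J a₀ w₀ z M w i j r r2 r' r'' y a X th lam gam κ C₁ C q E P S ys gs)

include H

/-- The own height. -/
theorem hv_nn {ω : D.Ω} (hω : 0 < q ω) (hE : E ω) (u : Fin c) :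
    |(hv (c := c) (k0 := k0) (k1 := k1) D z i j r X C P S gs n th gam ω u : ℝ) -
      2 ^ X * (nn D n i j r th gam P S.S ω (gs u) / Rg z C)| ≤ 1 := by
  have hX0 : (0 : ℝ) < 2 ^ X := by positivity
  have hR := Rg_pos z C
  obtain ⟨g1, g2⟩ := H.gs_n u
  have hnn := H.nn_eq ω (gs u)
  have hnb : |nn D n i j r th gam P S.S ω (gs u) / Rg z C| ≤ (k0 + k1 + 1 : ℕ) := by
    rw [abs_div, abs_of_pos hR, div_le_iff₀ hR, hnn]
    have f1 := H.geo.bz ω hω hE (gs u) g1 g2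
    have f2 : |∑ b, S.S ω (gs u) (ys b) * ze D i j r P ω (ys b)| ≤
        (exp (C * z) * exp (C * z)) * (k0 + k1 : ℕ) := sum_bd fun b => by
      rw [abs_mul]
      exact mul_le_mul (H.geo.bS ω _ _) (H.geo.bz ω hω hE _ (H.ys_n b).1 (H.ys_n b).2)
        (abs_nonneg _) (Real.exp_pos _).le
    refine (abs_sub _ _).trans ?_
    have f3 := H.exp_le_Rg
    have f4 : exp (C * z) * exp (C * z) ≤ Rg z C := by
      rw [Rg_eq]
      have : 0 ≤ exp (C * z) * exp (C * z) := by positivity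
      linarith
    have f5 : (exp (C * z) * exp (C * z)) * ((k0 + k1 : ℕ) : ℝ) ≤ Rg z C * ((k0 + k1 : ℕ) : ℝ) :=
      mul_le_mul_of_nonneg_right f4 (Nat.cast_nonneg _)
    push_cast at f2 f5 ⊢
    nlinarith
  have hm : (0 : ℝ) < ((k0 + k1 + 1 : ℕ) : ℝ) := by positivity
  unfold hv dgm
  have f1 : |nn D n i j r th gam P S.S ω (gs u) / Rg z C / (k0 + k1 + 1 : ℕ)| ≤ 1 := by
    rw [abs_div, abs_of_pos hm, div_le_one hm]
    exact hnb
  rw [Pool.P4.cl1_eq f1]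
  have f2 : ((k0 + k1 + 1 : ℕ) : ℝ) * (nn D n i j r th gam P S.S ω (gs u) / Rg z C /
      (k0 + k1 + 1 : ℕ)) = nn D n i j r th gam P S.S ω (gs u) / Rg z C := by
    field_simp
  rw [f2]
  have f3 := Int.floor_le (2 ^ X * (nn D n i j r th gam P S.S ω (gs u) / Rg z C))
  have f4 := Int.lt_floor_add_one (2 ^ X * (nn D n i j r th gam P S.S ω (gs u) / Rg z C))
  rw [abs_le]
  constructor <;> linarith

/-- **The own heights** of two samples with the same abstract time, and near coordinates. -/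
theorem hv_two {ω ω' : D.Ω} (h1 : 0 < q ω) (h2 : 0 < q ω') (e1 : E ω) (e2 : E ω')
    (ht : tv (c := c) (k0 := k0) (k1 := k1) D J w z i j r X C S ys gs ω =
      tv (c := c) (k0 := k0) (k1 := k1) D J w z i j r X C S ys gs ω')
    (hz : ∀ l, 1 ≤ l → l ≤ n → 2 ^ X * |ze D i j r P ω l - ze D i j r P ω' l| ≤ 1)
    (u : Fin c) :
    |(hv (c := c) (k0 := k0) (k1 := k1) D z i j r X C P S gs n th gam ω u : ℝ) -
      hv (c := c) (k0 := k0) (k1 := k1) D z i j r X C P S gs n th gam ω' u| ≤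
      3 + 2 * (k0 + k1 : ℕ) := by
  have hX0 : (0 : ℝ) < 2 ^ X := by positivity
  have hR := Rg_pos z C
  have hRy := Ry_pos z C
  have hR0 : 0 < 2 * Ry z C := by positivity
  obtain ⟨g1, g2⟩ := H.gs_n u
  have a1 := hv_nn H h1 e1 u
  have a2 := hv_nn H h2 e2 u
  have hS : ∀ b, Sv D z X C S ys gs ω u b = Sv D z X C S ys gs ω' u b := fun b => by
    have := congrFun (congrFun (Prod.ext_iff.1 (Prod.ext_iff.1 ht).2).2 u) b
    exact this
  have key : |2 ^ X * (nn D n i j r th gam P S.S ω (gs u) / Rg z C) -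
      2 ^ X * (nn D n i j r th gam P S.S ω' (gs u) / Rg z C)| ≤ 1 + 2 * (k0 + k1 : ℕ) := by
    rw [H.nn_eq, H.nn_eq]
    have b1 : ∀ b, |2 ^ X * (S.S ω (gs u) (ys b) * ze D i j r P ω (ys b) / Rg z C) -
        2 ^ X * (S.S ω' (gs u) (ys b) * ze D i j r P ω' (ys b) / Rg z C)| ≤ 2 := by
      intro b
      obtain ⟨s1, hs1⟩ : ∃ x : ℝ, x = S.S ω (gs u) (ys b) := ⟨_, rfl⟩
      obtain ⟨s2, hs2⟩ : ∃ x : ℝ, x = S.S ω' (gs u) (ys b) := ⟨_, rfl⟩
      obtain ⟨y1, hy1⟩ : ∃ x : ℝ, x = ze D i j r P ω (ys b) := ⟨_, rfl⟩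
      obtain ⟨y2, hy2⟩ : ∃ x : ℝ, x = ze D i j r P ω' (ys b) := ⟨_, rfl⟩
      have c1 : |s1| ≤ exp (C * z) := hs1 ▸ H.geo.bS ω _ _
      have c2 : |s2| ≤ exp (C * z) := hs2 ▸ H.geo.bS ω' _ _
      have c3 : 2 ^ X * |y1 - y2| ≤ 1 := by
        rw [hy1, hy2]
        exact hz (ys b) (H.ys_n b).1 (H.ys_n b).2
      have c4 : |y2| ≤ exp (C * z) := by
        rw [hy2]
        exact H.geo.bz ω' h2 e2 _ (H.ys_n b).1 (H.ys_n b).2
      have c5 : |2 ^ X * (s1 * (2 * Ry z C) / Rg z C) - 2 ^ X * (s2 * (2 * Ry z C) / Rg z C)| ≤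
          2 := by
        have d1 := dg_near (X := X) (H.S_le1 c1)
        have d2 := dg_near (X := X) (H.S_le1 c2)
        have d3 := hS b
        unfold Sv at d3
        rw [← hs1, ← hs2] at d3
        rw [d3] at d1
        rw [abs_le] at d1 d2 ⊢
        constructor <;> linarith [d1.1, d1.2, d2.1, d2.2]
      rw [← hs1, ← hs2, ← hy1, ← hy2]
      have e3 : 2 ^ X * (s1 * y1 / Rg z C) - 2 ^ X * (s2 * y2 / Rg z C) =
          s1 / Rg z C * (2 ^ X * (y1 - y2)) +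
            (2 ^ X * (s1 * (2 * Ry z C) / Rg z C) - 2 ^ X * (s2 * (2 * Ry z C) / Rg z C)) *
              (y2 / (2 * Ry z C)) := by
        field_simp
        ring
      rw [e3]
      refine (abs_add_le _ _).trans ?_
      have d1 : |s1 / Rg z C| ≤ 1 := by
        rw [abs_div, abs_of_pos hR, div_le_one hR]
        exact c1.trans H.exp_le_Rg
      have d2 : |2 ^ X * (y1 - y2)| ≤ 1 := by
        rw [abs_mul, abs_of_pos hX0]
        exact c3
      have d3 : |y2 / (2 * Ry z C)| ≤ 1 / 2 := by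
        rw [abs_div, abs_of_pos hR0, div_le_iff₀ hR0]
        have : Ry z C = exp (C * z) := rfl
        rw [this]
        linarith
      rw [abs_mul (s1 / Rg z C), abs_mul (2 ^ X * (s1 * (2 * Ry z C) / Rg z C) -
        2 ^ X * (s2 * (2 * Ry z C) / Rg z C))]
      have d4 := mul_le_mul d1 d2 (abs_nonneg _) zero_le_one
      have d5 := mul_le_mul c5 d3 (abs_nonneg _) (by norm_num : (0 : ℝ) ≤ 2)
      linarith
    have b2 := sum_near b1
    have b3 : |2 ^ X * (ze D i j r P ω (gs u) / Rg z C) -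
        2 ^ X * (ze D i j r P ω' (gs u) / Rg z C)| ≤ 1 := by
      rw [← mul_sub, ← sub_div, abs_mul, abs_div, abs_of_pos hR, abs_of_pos hX0]
      refine le_trans ?_ (hz (gs u) g1 g2)
      exact mul_le_mul_of_nonneg_left (div_le_self (abs_nonneg _) H.one_Rg) hX0.le
    have b4 : ∀ o : D.Ω, 2 ^ X * ((ze D i j r P o (gs u) - ∑ b, S.S o (gs u) (ys b) *
        ze D i j r P o (ys b)) / Rg z C) = 2 ^ X * (ze D i j r P o (gs u) / Rg z C) -
        ∑ b, 2 ^ X * (S.S o (gs u) (ys b) * ze D i j r P o (ys b) / Rg z C) := by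
      intro o
      rw [sub_div, mul_sub, ← Finset.mul_sum, ← Finset.sum_div]
    rw [b4, b4]
    obtain ⟨s1, hs1⟩ : ∃ x : ℝ, x = ∑ b, 2 ^ X * (S.S ω (gs u) (ys b) *
      ze D i j r P ω (ys b) / Rg z C) := ⟨_, rfl⟩
    obtain ⟨s2, hs2⟩ : ∃ x : ℝ, x = ∑ b, 2 ^ X * (S.S ω' (gs u) (ys b) *
      ze D i j r P ω' (ys b) / Rg z C) := ⟨_, rfl⟩
    rw [← hs1, ← hs2] at b2 ⊢
    rw [abs_le] at b2 b3 ⊢
    constructor <;> linarith [b2.1, b2.2, b3.1, b3.2]
  rw [abs_le] at a1 a2 key ⊢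
  constructor <;> linarith [a1.1, a1.2, a2.1, a2.2, key.1, key.2]

/-- The positions of the slow coordinates of two samples with near data of the line and the same
abstract time. -/
theorem ze_two {ω ω' : D.Ω} (h1 : 0 < q ω) (h2 : 0 < q ω') (e1 : E ω) (e2 : E ω')
    (hT : D.T ω = D.T ω') {N : ℝ} (hN : 0 ≤ N)
    (hv : NV N (vv (c := c) (k0 := k0) (k1 := k1) D J w z i j r d X C P ys gs ω)
      (vv (c := c) (k0 := k0) (k1 := k1) D J w z i j r d X C P ys gs ω')) (b : Fin (k0 + k1)) :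
    2 ^ X * |ze D i j r P ω (ys b) - ze D i j r P ω' (ys b)| ≤
      2 * Ry z C * (2 * (2 + d * (d + 1)) + N * (d + 1)) := by
  have hX0 : (0 : ℝ) < 2 ^ X := by positivity
  have hRy := Ry_pos z C
  have hR0 : 0 < 2 * Ry z C := by positivity
  obtain ⟨x0, x1⟩ := tx_bd (c := c) (k0 := k0) (k1 := k1) (D := D) (z := z) (i := i) (j := j)
    (r := r) (C := C) (S := S) (ys := ys) (gs := gs) H.wX ω
  have hx : tx J w X (tv (c := c) (k0 := k0) (k1 := k1) D J w z i j r X C S ys gs ω') =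
      tx J w X (tv (c := c) (k0 := k0) (k1 := k1) D J w z i j r X C S ys gs ω) := by
    have : (tq J w X (D.T ω') : ℝ) / 2 ^ X = (tq J w X (D.T ω) : ℝ) / 2 ^ X := by rw [hT]
    exact this
  have a1 := ym_near H h1 e1 b
  have a2 := ym_near H h2 e2 b
  rw [hx] at a2
  obtain ⟨x, hxx⟩ : ∃ x : ℝ, x =
    tx J w X (tv (c := c) (k0 := k0) (k1 := k1) D J w z i j r X C S ys gs ω) := ⟨_, rfl⟩
  rw [← hxx] at a1 a2 x0 x1
  have key : |ym D J w z i j r d X C P ys x ω b - ym D J w z i j r d X C P ys x ω' b| ≤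
      N * (d + 1) := by
    have y1 := hv.y b
    have y1' : |(yv D J w z i j r X C P ys ω b : ℝ) - yv D J w z i j r X C P ys ω' b| ≤ N := y1
    have hd0 : (0 : ℝ) ≤ N * d := by positivity
    revert y1'
    refine Fin.addCases (fun b => ?_) (fun l => ?_) b
    · intro y1'
      rw [ym_castAdd, ym_castAdd, sub_sub_sub_cancel_right]
      linarith
    · intro y1'
      rw [ym_natAdd, ym_natAdd]
      have m1 : |∑ s : Fin d, x ^ ((s : ℕ) + 1) * (mv D J w z i j r d X C P ys ω l s : ℝ) -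
          ∑ s : Fin d, x ^ ((s : ℕ) + 1) * (mv D J w z i j r d X C P ys ω' l s : ℝ)| ≤
          N * d := by
        rw [← Finset.sum_sub_distrib]
        refine le_trans (le_of_eq ?_) (psum_bd x0 x1 (f := fun s =>
          (mv D J w z i j r d X C P ys ω l s : ℝ) - mv D J w z i j r d X C P ys ω' l s)
          fun s => hv.m l s)
        congr 1
        exact Finset.sum_congr rfl fun s _ => by ring
      obtain ⟨s1, hs1⟩ : ∃ s1 : ℝ, s1 = ∑ s : Fin d, x ^ ((s : ℕ) + 1) *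
        (mv D J w z i j r d X C P ys ω l s : ℝ) := ⟨_, rfl⟩
      obtain ⟨s2, hs2⟩ : ∃ s2 : ℝ, s2 = ∑ s : Fin d, x ^ ((s : ℕ) + 1) *
        (mv D J w z i j r d X C P ys ω' l s : ℝ) := ⟨_, rfl⟩
      rw [← hs1, ← hs2] at m1 ⊢
      rw [abs_le] at m1 y1' ⊢
      constructor <;> linarith [m1.1, m1.2, y1'.1, y1'.2]
  have e3 : (2 : ℝ) ^ X * |ze D i j r P ω (ys b) - ze D i j r P ω' (ys b)| =
      2 * Ry z C * |2 ^ X * (ze D i j r P ω (ys b) / (2 * Ry z C)) -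
        2 ^ X * (ze D i j r P ω' (ys b) / (2 * Ry z C))| := by
    rw [← mul_sub, ← sub_div, abs_mul, abs_div, abs_of_pos hR0, abs_of_pos hX0]
    field_simp
  rw [e3]
  refine mul_le_mul_of_nonneg_left ?_ hR0.le
  rw [abs_le] at a1 a2 key ⊢
  constructor <;> linarith [a1.1, a1.2, a2.1, a2.2, key.1, key.2]

/-- Near digits: all the coordinates. -/
theorem yy_all {yy : D.Ω → ℕ → ℝ} {ω ω' : D.Ω}
    (hZ : ∀ u, ⌊(2 : ℝ) ^ X * yy ω (gs u)⌋ = ⌊(2 : ℝ) ^ X * yy ω' (gs u)⌋)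
    (hW : ∀ a, ⌊(2 : ℝ) ^ X * yy ω (ys a)⌋ = ⌊(2 : ℝ) ^ X * yy ω' (ys a)⌋) {l : ℕ} (l1 : 1 ≤ l)
    (ln : l ≤ n) : 2 ^ X * |yy ω l - yy ω' l| ≤ 1 := by
  have hX0 : (0 : ℝ) < 2 ^ X := by positivity
  have key : ⌊(2 : ℝ) ^ X * yy ω l⌋ = ⌊(2 : ℝ) ^ X * yy ω' l⌋ := by
    rcases sl_or_gr H.plc.stp.gn l1 ln with h | h
    · obtain ⟨b, hb⟩ := H.ys_on h
      rw [← hb]
      exact hW b
    · obtain ⟨u, hu⟩ := H.gs_on l h
      rw [← hu]
      exact hZ u
  have h1 := (Int.abs_sub_lt_one_of_floor_eq_floor key).le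
  rw [← mul_sub, abs_mul, abs_of_pos hX0] at h1
  exact h1

variable {i' : ℕ} {p : D.Ω → ℝ} {ρ : D.Ω → D.Ω} {yy : D.Ω → ℕ → ℝ}
  (hp : Prm D J w z i j r i' M X C q E p ρ)
  (hyz : ∀ ω ω', 0 < q ω → 0 < q ω' → E ω → E ω' → bb D i j r ω = bb D i j r ω' →
    D.T ω = D.T ω' → ∀ l, 1 ≤ l → l ≤ n →
    yy ω l - yy ω' l = ze D i j r P ω l - ze D i j r P ω' l)
  {τ B Vt : Type} {t : D.Ω → τ} {b : D.Ω → B} {v : D.Ω → Vt} {hgt : D.Ω → Fin c → ℤ} {N₁ io : ℝ}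
  (hP : Pic D J w z i j r d X n th gam C P S ys gs p ρ t b v hgt N₁ io)

include hp hyz hP

/-- **The field `rel`.** -/
theorem rel_fld {ω ω' : D.Ω} (h1 : 0 < p ω) (h2 : 0 < p ω')
    (hZ : (visQ D n i j yy J w X ys gs).Z ω = (visQ D n i j yy J w X ys gs).Z ω')
    (hW : (visQ D n i j yy J w X ys gs).Wd ω = (visQ D n i j yy J w X ys gs).Wd ω')
    (ht : t ω = t ω') (u : Fin c) :
    |((hgt ω u - hgt ω' u : ℤ) : ℝ)| ≤ 2 * N₁ + (3 + 2 * (k0 + k1 : ℕ)) := by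
  obtain ⟨a1, a2⟩ := hp.hs ω h1
  obtain ⟨b1, b2⟩ := hp.hs ω' h2
  have htv := hP.tt ω ω' h1 h2 ht
  have hbb : bb D i j r ω = bb D i j r ω' := (Prod.ext_iff.1 (Prod.ext_iff.1 htv).1).1
  have hT : D.T ω = D.T ω' := (Prod.ext_iff.1 (Prod.ext_iff.1 htv).2).1
  have hW' : ∀ a, ⌊(2 : ℝ) ^ X * yy ω (ys a)⌋ = ⌊(2 : ℝ) ^ X * yy ω' (ys a)⌋ :=
    fun a => congrFun (Prod.ext_iff.1 hW).2 a
  have key := hv_two H a1 b1 a2 b2 htv (fun l l1 ln => by
    rw [← hyz ω ω' a1 b1 a2 b2 hbb hT l l1 ln]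
    exact yy_all H (fun u => congrFun hZ u) hW' l1 ln) u
  have n1 := hP.near ω h1 u
  have n2 := hP.near ω' h2 u
  push_cast at key ⊢
  rw [abs_le] at n1 n2 key ⊢
  constructor <;> linarith [n1.1, n1.2, n2.1, n2.2, key.1, key.2]

/-- **The field `wd`.** -/
theorem wd_fld {e : ℝ} (he : ((k0 + k1 : ℕ) : ℝ) *
      (Real.log (3 + 4 * (2 * (2 + d * (d + 1)) + 6 * (d + 1))) + C * z) ≤ e) :
    MI p hgt (visQ D n i j yy J w X ys gs).Wd (fun ω => (t ω, b ω)) ≤ io * X + e := by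
  have h0 := hp.law.nonneg
  refine (mi_add h0 hgt _ v _).trans (add_le_add hP.mi (le_trans ?_ he))
  have hRy : Ry z C = exp (C * z) := rfl
  have he1 := H.e1
  obtain ⟨Kc, hKc⟩ : ∃ Kc : ℝ, Kc = 2 * (2 + d * (d + 1)) + 6 * (d + 1) := ⟨_, rfl⟩
  have hKc0 : 0 ≤ Kc := by
    rw [hKc]
    positivity
  have htT : ∀ ω ω', 0 < p ω → 0 < p ω' → t ω = t ω' → bb D i j r ω = bb D i j r ω' ∧
      D.T ω = D.T ω' := fun ω ω' h1 h2 e => by
    have htv := hP.tt ω ω' h1 h2 e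
    exact ⟨(Prod.ext_iff.1 (Prod.ext_iff.1 htv).1).1, (Prod.ext_iff.1 (Prod.ext_iff.1 htv).2).1⟩
  have s1 : CH p (visQ D n i j yy J w X ys gs).Wd (fun ω => (v ω, (t ω, b ω))) ≤
      CH p (fun ω a => ⌊(2 : ℝ) ^ X * yy ω (ys a)⌋) (fun ω => (v ω, (t ω, b ω))) := by
    refine CH_mono_left h0 ?_
    intro ω ω' h1 h2 e
    simp only [Prod.mk.injEq] at e
    obtain ⟨e1, e2, e3, e4⟩ := e
    refine Prod.ext (htT ω ω' h1 h2 e3).2 ?_
    exact e1
  refine s1.trans ?_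
  have s2 := CH_pfam h0 hp.law.sum_one (fun ω (a : Fin (k0 + k1)) => ⌊(2 : ℝ) ^ X * yy ω (ys a)⌋)
    (fun ω => (v ω, (t ω, b ω))) (D := 2 * exp (C * z) * Kc + 1) (by positivity) (by
      intro ω ω' h1 h2 e a
      simp only [Prod.mk.injEq] at e
      obtain ⟨e1, e2, e3⟩ := e
      obtain ⟨a1, a2⟩ := hp.hs ω h1
      obtain ⟨b1, b2⟩ := hp.hs ω' h2
      obtain ⟨hbb, hT⟩ := htT ω ω' h1 h2 e2
      have hvv := hP.vv ω ω' h1 h2 e1
      have n1 := Prm.nv (c := c) (ys := ys) (gs := gs) H hp h1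
      have n2 := Prm.nv (c := c) (ys := ys) (gs := gs) H hp h2
      have hvv' : vv (c := c) (k0 := k0) (k1 := k1) D J w z i j r d X C P ys gs (ρ ω) =
          vv (c := c) (k0 := k0) (k1 := k1) D J w z i j r d X C P ys gs (ρ ω') := hvv
      rw [← hvv'] at n2
      have n3 : NV 6 (vv (c := c) (k0 := k0) (k1 := k1) D J w z i j r d X C P ys gs ω)
          (vv (c := c) (k0 := k0) (k1 := k1) D J w z i j r d X C P ys gs ω') := by
        refine ⟨fun x => ?_, fun x s => ?_, fun x s => ?_⟩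
        · have m1 := n1.y x
          have m2 := n2.y x
          rw [abs_le] at m1 m2 ⊢
          constructor <;> linarith [m1.1, m1.2, m2.1, m2.2]
        · have m1 := n1.m x s
          have m2 := n2.m x s
          rw [abs_le] at m1 m2 ⊢
          constructor <;> linarith [m1.1, m1.2, m2.1, m2.2]
        · have m1 := n1.b x s
          have m2 := n2.b x s
          rw [abs_le] at m1 m2 ⊢
          constructor <;> linarith [m1.1, m1.2, m2.1, m2.2]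
      have z1 := ze_two H a1 b1 a2 b2 hT (by norm_num) n3 a
      rw [← hyz ω ω' a1 b1 a2 b2 hbb hT _ (H.ys_n a).1 (H.ys_n a).2, hRy, ← hKc] at z1
      refine (fl_dif _ _).trans ?_
      rw [← mul_sub, abs_mul, abs_of_pos (by positivity : (0 : ℝ) < 2 ^ X)]
      linarith)
  rw [Fintype.card_fin] at s2
  refine s2.trans (mul_le_mul_of_nonneg_left ?_ (Nat.cast_nonneg _))
  have hC0 : 0 ≤ C * z := by
    have := H.Cg
    positivity
  have s3 : Real.log (2 * (2 * exp (C * z) * Kc + 1) + 1) ≤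
      Real.log ((3 + 4 * Kc) * exp (C * z)) := by
    refine Real.log_le_log (by positivity) ?_
    nlinarith
  rw [Real.log_mul (by positivity) (by positivity), Real.log_exp] at s3
  rw [← hKc]
  exact s3

/-- **The field `bR`.** -/
theorem bR_fld : Det p b (visQ D n i j yy J w X ys gs).R := by
  intro ω ω' h1 h2 e
  have h3 := hP.bb ω ω' h1 h2 e
  obtain ⟨e1, e2⟩ := Prod.ext_iff.1 h3
  exact Prod.ext (Prod.ext_iff.1 e1).1 e2

end

/-- **The field `Z_b`.** -/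
theorem zb_fld {D : NDat2} {n i j J w X c k : ℕ} {yy : D.Ω → ℕ → ℝ} {ys : Fin k → ℕ}
    {gs : Fin c → ℕ} {B γ : ℝ} (hB : B + 1 ≤ 2 ^ (γ * X)) (h : ∀ ω u, |yy ω (gs u)| ≤ B)
    (ω : D.Ω) (u : Fin c) :
    |((visQ D n i j yy J w X ys gs).Z ω u : ℝ)| ≤ 2 ^ (γ * X) * 2 ^ X := by
  have p1 : (1 : ℝ) ≤ 2 ^ X := one_le_pow₀ (by norm_num)
  have h2 := fl_dif ((2 : ℝ) ^ X * yy ω (gs u)) 0
  rw [Int.floor_zero, Int.cast_zero, sub_zero, sub_zero, abs_mul,
    abs_of_pos (by positivity : (0 : ℝ) < 2 ^ X)] at h2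
  have h3 := mul_le_mul_of_nonneg_left (h ω u) (by positivity : (0 : ℝ) ≤ 2 ^ X)
  have h4 := mul_le_mul_of_nonneg_right hB (by positivity : (0 : ℝ) ≤ 2 ^ X)
  change |((⌊(2 : ℝ) ^ X * yy ω (gs u)⌋ : ℤ) : ℝ)| ≤ _
  linarith

end Pool.TT5
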