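import Pool.Agent.H5.TT.Vf
import Pool.Agent.H12.TT.Dir

/-!
# The visible side of a place is good

`visF_of`: `VisF` for the records of 12 and the digits modulo a vector.
-/

set_option autoImplicit false

namespace Pool.TT5

open Finset Real MvPolynomial
open Pool.Agent.H49.Ent Pool.Agent.H32.Dense Pool.STK Pool.STAT Pool.POT
open Pool.BFL (Pb)
open Pool.TC
open Pool.TC12 (YH hh yl Cy Shd dirV_y b1_p)
open Pool.P4 (t0 rt bb ze zt z0 cl1 dg dgp Ry cb LLC tq GoodS FrP err Ry_pos)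

/-- A power of two is at least an exponential. -/
theorem pw_ge {g a A : ℝ} (hg : 0 < g) (ha : 0 ≤ a) (hA : 1 ≤ A) : ∃ U₀ : ℕ, ∀ z U X : ℕ, 1 ≤ z →
    U₀ ≤ U → U * z ≤ X → A * Real.exp (a * z) ≤ 2 ^ (g * X) := by
  have hl0 : 0 < Real.log 2 := Real.log_pos (by norm_num)
  obtain ⟨U₀, hU₀⟩ := exists_nat_ge ((a + Real.log A) / (g * Real.log 2))
  refine ⟨U₀, fun z U X hz hU hX => ?_⟩
  have hzR : (1 : ℝ) ≤ z := by exact_mod_cast hz
  have hU' : (a + Real.log A) / (g * Real.log 2) ≤ U := hU₀.trans (by exact_mod_cast hU)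
  rw [div_le_iff₀ (by positivity)] at hU'
  have hX' : (U : ℝ) * z ≤ X := by exact_mod_cast hX
  have hlA : 0 ≤ Real.log A := Real.log_nonneg hA
  have e1 : (2 : ℝ) ^ (g * X) = Real.exp (Real.log 2 * (g * X)) := by
    rw [Real.rpow_def_of_pos (by norm_num)]
  have e2 : A * Real.exp (a * z) = Real.exp (Real.log A + a * z) := by
    rw [Real.exp_add, Real.exp_log (by linarith)]
  rw [e1, e2]
  refine Real.exp_le_exp.2 ?_
  have e3 : Real.log A + a * z ≤ (a + Real.log A) * z := by nlinarith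
  have e4 : (a + Real.log A) * z ≤ U * (g * Real.log 2) * z :=
    mul_le_mul_of_nonneg_right hU' (by linarith)
  have e5 : (U : ℝ) * (g * Real.log 2) * z = (U * z) * (g * Real.log 2) := by ring
  have e6 : (U : ℝ) * z * (g * Real.log 2) ≤ X * (g * Real.log 2) :=
    mul_le_mul_of_nonneg_right hX' (by positivity)
  linarith

/-- A power of two is large. -/
theorem pw_ge2 {g : ℝ} (hg : 0 < g) (A : ℝ) : ∃ X0 : ℕ, ∀ X : ℕ, X0 ≤ X →
    A ≤ (2 : ℝ) ^ (g * X) := by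
  obtain ⟨U₀, hU₀⟩ := pw_ge (g := g) (a := 0) (A := max 1 A) hg le_rfl (le_max_left _ _)
  refine ⟨U₀, fun X hX => ?_⟩
  have h := hU₀ 1 X X le_rfl hX (by omega)
  rw [zero_mul, Real.exp_zero, mul_one] at h
  exact (le_max_right _ _).trans h

/-- **The visible side of a place is good.** -/
theorem visF_of (n d K' B c k0 k1 t₀ : ℕ) (C₁ C h x ϖ γ io δ : ℝ) (hn : 1 ≤ n) (hB : 1 ≤ B)
    (hC₁ : 1 ≤ C₁) (hC : 1 ≤ C) (hh : 0 < h) (hx : 0 < x) (hϖ : 0 < ϖ) (hγ : 0 < γ)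
    (hio : 0 < io) (hδ : 0 < δ) : ∃ (κ₀ : ℝ) (U₀ z₀ : ℕ), 0 < κ₀ ∧ ∀ N₁ : ℝ, 0 ≤ N₁ → ∃ X0 : ℕ,
    ∀ (D : NDat2) (K Kn J a₀ w₀ z M w i₀ i j r r2 r' r'' y a U v t d' : ℕ) (th : ℝ)
      (lam gam : ℕ → ℝ) (κ ϖN : ℝ) (q : D.Ω → ℝ) (E : D.Ω → Prop)
      (P₀ P : D.Γ × D.Γ → ℕ → PN) (S : Slo D) (ys : Fin (k0 + k1) → ℕ) (gs : Fin c → ℕ)
      (Tl : ℕ → Prop), z₀ ≤ z → U₀ ≤ U → X0 ≤ B * U * z → 0 < κ → κ ≤ κ₀ → 0 < ϖN → 2 * ϖN ≤ ϖ →
      Hyp D n d K K' J a₀ w₀ z M w i j r r2 r' r'' y a (B * U * z) th lam gam κ C₁ C q E P S ys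
        gs →
      YH D n d' K J a₀ w₀ z M i₀ i j r lam gam κ C₁ C q E P₀ → Shd D n i₀ i j r q E P₀ P →
      D.NF n z M B gam h C₁ ϖN q → D.NFt Tl n J w₀ z M Kn C₁ κ q →
      (∀ l, 1 ≤ l → l < n → (th ≤ gam l ↔ Tl l)) → i + 2 * (B * U) ≤ M → j + 2 * (B * U) ≤ M →
      (U : ℝ) ≤ gam n * (M - j) → j < v → v ≤ M → 1 ≤ t → t + (v - j) ≤ t₀ → w ≤ w₀ + v * z →
      YyH D n Kn J w₀ z i j v t (B * U) (fun l => th ≤ gam l) (Cy C₁ C + 1) q E
        (yl D i₀ i j r P₀ q E) →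
      VisF (c := c) (k0 := k0) (k1 := k1) D J w z i j r d (B * U * z) n th gam C P S ys gs M q E
        (visQ D n i j (yl D i₀ i j r P₀ q E) J w (B * U * z) ys gs) id N₁ γ io (h / (2 * B)) x ϖ
        (2 ^ (δ * (B * U * z : ℕ))) := by
  have hl0 : 0 < Real.log 2 := Real.log_pos (by norm_num)
  have hBR : (1 : ℝ) ≤ B := by exact_mod_cast hB
  have hB0 : (0 : ℝ) < B := by linarith
  have hCy : 0 ≤ Cy C₁ C := by
    unfold Cy
    linarith
  obtain ⟨κ₀, U₁, z₀, hκ₀, H2⟩ := b2_fld n c (k0 + k1) t₀ x (Cy C₁ C + 1) C₁ ϖ hn hx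
    (by linarith) (by linarith) hϖ
  obtain ⟨A, hA, H1⟩ := b1_p n c B C₁ C hB
  obtain ⟨U₂, hU₂⟩ := pw_ge (g := γ) (a := Cy C₁ C) (A := 9) hγ hCy (by norm_num)
  obtain ⟨U₃, hU₃⟩ := pw_ge (g := δ / 2) (a := 2 * C) (A := 1) (by positivity) (by linarith)
    le_rfl
  obtain ⟨U₄, hU₄⟩ := exists_nat_ge (2 * A / (h * Real.log 2))
  obtain ⟨Lw, hLw⟩ : ∃ Lw : ℝ, Lw = Real.log (3 + 4 * (2 * (2 + d * (d + 1)) + 6 * (d + 1))) :=
    ⟨_, rfl⟩
  have hLw0 : 0 ≤ Lw := by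
    rw [hLw]
    refine Real.log_nonneg ?_
    have : (0 : ℝ) ≤ d := Nat.cast_nonneg d
    nlinarith
  obtain ⟨U₅, hU₅⟩ := exists_nat_ge (((k0 + k1 : ℕ) : ℝ) * (Lw + C) / (io / 2))
  refine ⟨κ₀, U₁ + U₂ + U₃ + U₄ + U₅, z₀ + 1, hκ₀, fun N₁ hN₁ => ?_⟩
  obtain ⟨X1, hX1⟩ := pw_ge2 hγ (2 * N₁ + (3 + 2 * (k0 + k1 : ℕ)))
  obtain ⟨X2, hX2⟩ := pw_ge2 (g := δ / 2) (by positivity)
    (5 + 4 * (3 + 4 * N₁ + 2 * ((k0 + k1 : ℕ) : ℝ)))
  refine ⟨X1 + X2, ?_⟩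
  intro D K Kn J a₀ w₀ z M w i₀ i j r r2 r' r'' y a U v t d' th lam gam κ ϖN q E P₀ P S ys gs Tl hz
    hU hX hκ hκκ hϖN hϖϖ H HY hSh hNF hNFt hTl hi hj hUg hjv hvM ht htv hw hY
  have hz1 : 1 ≤ z := by omega
  have hzR : (1 : ℝ) ≤ z := by exact_mod_cast hz1
  have hUX : U * z ≤ B * U * z := by
    calc U * z = 1 * (U * z) := (one_mul _).symm
      _ ≤ B * (U * z) := Nat.mul_le_mul_right _ hB
      _ = B * U * z := (mul_assoc _ _ _).symm
  have hyy : ∀ ω u, |yl D i₀ i j r P₀ q E ω (gs u)| ≤ 2 * exp (Cy C₁ C * z) := fun ω u =>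
    HY.yl_bd ω (H.gs_n u).1 (H.gs_n u).2
  have hγ1 := hU₂ z U (B * U * z) hz1 (by omega) hUX
  have hey : 1 ≤ exp (Cy C₁ C * z) := Real.one_le_exp (by positivity)
  have hwJ : w₀ + v * z ≤ J := by
    have h1 := H.ok.thin
    have h2 := H.ok.top
    have h5 : v * z ≤ (M + 1) * z := Nat.mul_le_mul_right _ (by omega)
    omega
  intro G hGE hG i' ρ hprm τ Bt Vt tt bt vt hgt hP
  have hp := hprm.law
  have hyz : ∀ ω ω', 0 < q ω → 0 < q ω' → E ω → E ω' → bb D i j r ω = bb D i j r ω' →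
      D.T ω = D.T ω' → ∀ l, 1 ≤ l → l ≤ n →
      yl D i₀ i j r P₀ q E ω l - yl D i₀ i j r P₀ q E ω' l =
        ze D i j r P ω l - ze D i j r P ω' l := fun ω ω' p1 p2 e1 e2 eb eT l l1 ln =>
    HY.y_ze hSh p1 p2 e1 e2 eb eT l1 ln
  have hpE : ∀ ω, 0 < Pool.Agent.H49.Ent.cond q G True ω → 0 < q ω ∧ E ω := hprm.hs
  refine ⟨?_, ?_⟩
  · refine
      { bR := bR_fld H hprm hyz hP
        Z_b := fun ω u => zb_fld (n := n) (J := J) (w := w) (ys := ys) ?_ hyy ω u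
        Q_b := fun ω e u => qb_fld (n := n) (ys := ys) ?_ hyy ω e u
        rel := fun ω ω' p1 p2 e1 e2 e3 _ u =>
          (rel_fld H hprm hyz hP p1 p2 e1 e2 e3 u).trans (hX1 _ (by omega))
        wd := ?_
        b1 := ?_
        b2 := ?_ }
    · linarith
    · linarith
    · -- wd
      have e1 := wd_fld H hprm hyz hP (e := io / 2 * (B * U * z : ℕ)) (by
        rw [← hLw]
        have f1 : ((k0 + k1 : ℕ) : ℝ) * (Lw + C * z) ≤ ((k0 + k1 : ℕ) : ℝ) * (Lw + C) * z := by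
          have : ((k0 + k1 : ℕ) : ℝ) * (Lw + C) * z - ((k0 + k1 : ℕ) : ℝ) * (Lw + C * z) =
              ((k0 + k1 : ℕ) : ℝ) * (Lw * (z - 1)) := by ring
          have h2 : 0 ≤ ((k0 + k1 : ℕ) : ℝ) * (Lw * (z - 1)) :=
            mul_nonneg (Nat.cast_nonneg _) (mul_nonneg hLw0 (by linarith))
          linarith
        have f2 : ((k0 + k1 : ℕ) : ℝ) * (Lw + C) / (io / 2) ≤ U :=
          hU₅.trans (by exact_mod_cast (by omega : U₅ ≤ U))
        rw [div_le_iff₀ (by positivity)] at f2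
        have f3 : ((U : ℕ) : ℝ) * z ≤ ((B * U * z : ℕ) : ℝ) := by exact_mod_cast hUX
        calc ((k0 + k1 : ℕ) : ℝ) * (Lw + C * z) ≤ ((k0 + k1 : ℕ) : ℝ) * (Lw + C) * z := f1
          _ ≤ U * (io / 2) * z := mul_le_mul_of_nonneg_right f2 (by linarith)
          _ = io / 2 * (U * z) := by ring
          _ ≤ io / 2 * ((B * U * z : ℕ) : ℝ) := mul_le_mul_of_nonneg_left f3 (by positivity))
      refine e1.trans (le_of_eq ?_)
      ring
    · -- b1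
      intro G' hG'
      have e1 := H1 D d' K J a₀ w₀ z M i₀ i j r U (k0 + k1) lam gam κ h ϖN q
        (Pool.Agent.H49.Ent.cond q G True) E G G' P₀ gs ys (D.Γ × ℕ)
        (fun ω => (D.c i j ω, D.T ω / 2 ^ (J - w))) HY hNF hn (by
          have : U ≤ B * U := Nat.le_mul_of_pos_left _ (by omega)
          omega) hUg H.gs_in.injective (fun u => H.gs_n u)
        (H.gs_on n ⟨hn, le_rfl, H.plc.stp.gn⟩) (fun l l1 ln => by
          rcases sl_or_gr H.plc.stp.gn l1 ln with h1 | h1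
          · exact Or.inl (H.ys_on h1)
          · exact Or.inr (H.gs_on l h1)) hGE rfl hG hϖN (hϖϖ.trans hG')
        (fun ω ω' _ _ e => (Prod.ext_iff.1 e).1)
      refine le_trans e1 ?_
      have f2 : 2 * A / (h * Real.log 2) ≤ U := hU₄.trans (by exact_mod_cast (by omega : U₄ ≤ U))
      rw [div_le_iff₀ (by positivity)] at f2
      have f3 : A * z ≤ h / (2 * B) * ((B * U * z : ℕ) : ℝ) * Real.log 2 := by
        have f4 : h / (2 * B) * ((B * U * z : ℕ) : ℝ) * Real.log 2 =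
            U * (h * Real.log 2) / 2 * z := by
          push_cast
          field_simp
        rw [f4]
        refine mul_le_mul_of_nonneg_right ?_ (by linarith)
        linarith
      have f5 : (c - h / B) * ((B * U * z : ℕ) : ℝ) * Real.log 2 +
          h / (2 * B) * ((B * U * z : ℕ) : ℝ) * Real.log 2 =
          (c - h / (2 * B)) * ((B * U * z : ℕ) : ℝ) * Real.log 2 := by
        field_simp
        ring
      linarith
    · -- b2
      intro f G' hG'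
      have hUB : U₁ ≤ B * U := by
        have : U ≤ B * U := Nat.le_mul_of_pos_left _ (by omega)
        omega
      exact H2 D K Kn J a₀ w₀ z M i j v t (B * U) w lam gam κ q E (yl D i₀ i j r P₀ q E) Tl
        (fun l => th ≤ gam l) gs ys (by omega) hUB hκ hκκ H.ok hNFt hTl (enA_hyp H) hi hj hjv hvM ht
        htv hw hwJ hY G hGE hG f G' hG'
  · have e1 := dirV_y H HY hSh hpE hP.tt hP.bb hP.near
    intro v' u₀ h1 h2 ω ω' p1 p2 g1 g2 g3 g4 u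
    refine (e1 v' u₀ h1 h2 ω ω' p1 p2 g1 g2 g3 g4 u).trans ?_
    have f1 := hU₃ z U (B * U * z) hz1 (by omega) hUX
    have f2 := hX2 (B * U * z) (by omega)
    rw [one_mul] at f1
    obtain ⟨kk, hkk⟩ : ∃ kk : ℝ, kk = ((k0 + k1 : ℕ) : ℝ) := ⟨_, rfl⟩
    have hkk0 : 0 ≤ kk := hkk ▸ Nat.cast_nonneg _
    rw [← hkk] at f2 ⊢
    have f3 : Rg z C = 2 * exp (2 * C * z) := rfl
    have f4 : 1 ≤ exp (2 * C * z) := Real.one_le_exp (by positivity)
    have f5 : (2 : ℝ) ^ (δ * ((B * U * z : ℕ) : ℝ)) =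
        2 ^ (δ / 2 * ((B * U * z : ℕ) : ℝ)) * 2 ^ (δ / 2 * ((B * U * z : ℕ) : ℝ)) := by
      rw [← Real.rpow_add (by norm_num)]
      congr 1
      ring
    rw [f5, f3]
    have f6 := mul_le_mul f1 f2 (by positivity) (by positivity)
    refine le_trans ?_ f6
    nlinarith

end Pool.TT5
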