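import Mathlib

/-!
# Functions on a grid with small differences

`wht2`: a function on `{0, …, N}` whose second differences `f t - 2 f (t + θ) + f (t + 2 θ)` are at
most `δ` is affine up to `δ`. `wht3`: if `3 f t - 8 f (t + θ) + 6 f (t + 2 θ) - f (t + 4 θ)` is at most
`δ` for steps of both signs (this is `4 D²_θ - D²_{2 θ}`), then `f` is quadratic up to `2 ^ 21 δ`
(`16 ≤ N`).
-/

set_option autoImplicit false

namespace Pool.TT5

open Finset

/-- The value at the maximum. -/
theorem max_le {N : ℕ} {h : ℕ → ℝ} {A : ℝ}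
    (H : ∀ t ≤ N, ∀ M : ℝ, (∀ s ≤ N, |h s| ≤ M) → |h t| = M → M ≤ A) : ∀ t ≤ N, |h t| ≤ A := by
  obtain ⟨t₀, ht₀, hmax⟩ := Finset.exists_max_image (Finset.range (N + 1)) (fun t => |h t|)
    ⟨0, Finset.mem_range.2 (Nat.succ_pos N)⟩
  have h1 : ∀ s ≤ N, |h s| ≤ |h t₀| := fun s hs => hmax s (Finset.mem_range.2 (Nat.lt_succ_of_le hs))
  have h2 := H t₀ (Nat.lt_succ_iff.1 (Finset.mem_range.1 ht₀)) (|h t₀|) h1 rfl
  exact fun t ht => (h1 t ht).trans h2

/-- **Small second differences**: affine. -/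
theorem wht2 {N : ℕ} {f : ℕ → ℝ} {δ : ℝ}
    (h : ∀ t θ, t + 2 * θ ≤ N → |f t - 2 * f (t + θ) + f (t + 2 * θ)| ≤ δ) :
    ∀ t ≤ N, |f t - (f 0 + (f N - f 0) / N * t)| ≤ δ := by
  have hδ : 0 ≤ δ := (abs_nonneg _).trans (h 0 0 (Nat.zero_le N))
  rcases Nat.eq_zero_or_pos N with hN | hN
  · intro t ht
    have : t = 0 := by omega
    subst hN
    subst this
    simpa using hδ
  have hN0 : (N : ℝ) ≠ 0 := by
    have : (0 : ℝ) < N := by exact_mod_cast hN
    exact this.ne'
  obtain ⟨b, hb⟩ : ∃ b : ℝ, b = (f N - f 0) / N := ⟨_, rfl⟩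
  rw [← hb]
  obtain ⟨e, he⟩ : ∃ e : ℕ → ℝ, e = fun t => f t - (f 0 + b * t) := ⟨_, rfl⟩
  have e0 : e 0 = 0 := by rw [he]; simp
  have eN : e N = 0 := by
    rw [he, hb]
    field_simp
    ring
  have hE : ∀ t θ, t + 2 * θ ≤ N → |e t - 2 * e (t + θ) + e (t + 2 * θ)| ≤ δ := by
    intro t θ ht
    have h1 := h t θ ht
    have h2 : e t - 2 * e (t + θ) + e (t + 2 * θ) = f t - 2 * f (t + θ) + f (t + 2 * θ) := by
      rw [he]
      push_cast
      ring
    rwa [h2]
  have key := max_le (N := N) (h := e) (A := δ) (by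
    intro t ht M hM hMt
    rcases Nat.lt_or_ge N (2 * t) with h2 | h2
    · -- the right half
      have h3 := hE (2 * t - N) (N - t) (by omega)
      have e1 : 2 * t - N + (N - t) = t := by omega
      have e2 : 2 * t - N + 2 * (N - t) = N := by omega
      rw [e1, e2, eN, add_zero] at h3
      have h4 := hM (2 * t - N) (by omega)
      have h5 : |2 * e t| ≤ δ + M := by
        have : 2 * e t = -(e (2 * t - N) - 2 * e t) + e (2 * t - N) := by ring
        rw [this]
        refine (abs_add_le _ _).trans ?_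
        rw [abs_neg]
        exact add_le_add h3 h4
      rw [abs_mul, abs_of_pos (by norm_num : (0 : ℝ) < 2), hMt] at h5
      linarith
    · have h3 := hE 0 t (by omega)
      rw [zero_add, zero_add, e0] at h3
      have h4 := hM (2 * t) (by omega)
      have h5 : |2 * e t| ≤ δ + M := by
        have : 2 * e t = -(0 - 2 * e t + e (2 * t)) + e (2 * t) := by ring
        rw [this]
        refine (abs_add_le _ _).trans ?_
        rw [abs_neg]
        exact add_le_add h3 h4
      rw [abs_mul, abs_of_pos (by norm_num : (0 : ℝ) < 2), hMt] at h5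
      linarith)
  intro t ht
  have := key t ht
  rw [he] at this
  exact this

/-- Four values. -/
theorem four_le {a b c d δ A M : ℝ} (h : |3 * a - 8 * b + 6 * c - d| ≤ δ) (ha : |a| ≤ A)
    (hc : |c| ≤ M) (hd : |d| ≤ M) : 8 * |b| ≤ δ + 3 * A + 7 * M := by
  have h1 : 8 * b = -(3 * a - 8 * b + 6 * c - d) + (3 * a + (6 * c - d)) := by ring
  have h2 : |8 * b| ≤ δ + (3 * A + (6 * M + M)) := by
    rw [h1]
    refine (abs_add_le _ _).trans ?_
    rw [abs_neg]
    refine add_le_add h ((abs_add_le _ _).trans (add_le_add ?_ ((abs_sub _ _).trans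
      (add_le_add ?_ hd))))
    · rw [abs_mul, abs_of_pos (by norm_num : (0 : ℝ) < 3)]
      linarith
    · rw [abs_mul, abs_of_pos (by norm_num : (0 : ℝ) < 6)]
      linarith
  rw [abs_mul, abs_of_pos (by norm_num : (0 : ℝ) < 8)] at h2
  linarith

/-- Third differences are combinations. -/
theorem third_le {a b δ : ℝ} (h1 : |3 * a + b| ≤ δ) (h2 : |3 * b + a| ≤ δ) : |a| ≤ δ := by
  obtain ⟨p1, p2⟩ := abs_le.1 h1
  obtain ⟨q1, q2⟩ := abs_le.1 h2
  rw [abs_le]
  constructor <;> linarith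

/-- Values with small third differences and three zeros. -/
theorem node_le {n : ℕ} {v : ℕ → ℝ} {δ : ℝ} (hδ : 0 ≤ δ) (h0 : v 0 = 0) (h1 : v 1 = 0) (h2 : v 2 = 0)
    (h : ∀ i, i + 3 ≤ n → |v i - 3 * v (i + 1) + 3 * v (i + 2) - v (i + 3)| ≤ δ) :
    ∀ i ≤ n, |v i| ≤ (i : ℝ) ^ 3 * δ := by
  have hd : ∀ i, i + 2 ≤ n → |v (i + 2) - 2 * v (i + 1) + v i| ≤ i * δ := by
    intro i
    induction i with
    | zero =>
      intro _
      rw [h0, h1, h2]
      simp
    | succ i ih =>
      intro hi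
      have h3 := ih (by omega)
      have h4 := h i (by omega)
      have h5 : v (i + 1 + 2) - 2 * v (i + 1 + 1) + v (i + 1) =
          (v (i + 2) - 2 * v (i + 1) + v i) -
            (v i - 3 * v (i + 1) + 3 * v (i + 2) - v (i + 3)) := by
        ring
      rw [h5]
      refine (abs_sub _ _).trans ?_
      push_cast
      linarith
  have he : ∀ i, i + 1 ≤ n → |v (i + 1) - v i| ≤ (i : ℝ) ^ 2 * δ := by
    intro i
    induction i with
    | zero =>
      intro _
      rw [h0, h1]
      simp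
    | succ i ih =>
      intro hi
      have h3 := ih (by omega)
      have h4 := hd i (by omega)
      have h5 : v (i + 1 + 1) - v (i + 1) =
          (v (i + 1) - v i) + (v (i + 2) - 2 * v (i + 1) + v i) := by ring
      rw [h5]
      refine (abs_add_le _ _).trans ?_
      push_cast
      have hi0 : (0 : ℝ) ≤ i := Nat.cast_nonneg i
      have h6 : ((i : ℝ) + 1) ^ 2 * δ = (i : ℝ) ^ 2 * δ + i * δ + (i + 1) * δ := by ring
      rw [h6]
      have h7 : 0 ≤ ((i : ℝ) + 1) * δ := by positivity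
      linarith
  intro i
  induction i with
  | zero =>
    intro _
    rw [h0]
    simp
  | succ i ih =>
    intro hi
    have h3 := ih (by omega)
    have h4 := he i hi
    have h5 : v (i + 1) = v i + (v (i + 1) - v i) := by ring
    rw [h5]
    refine (abs_add_le _ _).trans ?_
    push_cast
    have hi0 : (0 : ℝ) ≤ i := Nat.cast_nonneg i
    have h6 : ((i : ℝ) + 1) ^ 3 * δ = (i : ℝ) ^ 3 * δ + (i : ℝ) ^ 2 * δ +
        (2 * (i : ℝ) ^ 2 + 3 * i + 1) * δ := by ring
    rw [h6]
    have h7 : 0 ≤ (2 * (i : ℝ) ^ 2 + 3 * i + 1) * δ := by positivity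
    linarith

/-- **Small differences `4 D²_θ - D²_{2 θ}`**, steps of both signs: quadratic. -/
theorem wht3 {N : ℕ} {f : ℕ → ℝ} {δ : ℝ} (hN : 16 ≤ N)
    (hf : ∀ t θ, t + 4 * θ ≤ N →
      |3 * f t - 8 * f (t + θ) + 6 * f (t + 2 * θ) - f (t + 4 * θ)| ≤ δ)
    (hb : ∀ t θ, t + 4 * θ ≤ N →
      |3 * f (t + 4 * θ) - 8 * f (t + 3 * θ) + 6 * f (t + 2 * θ) - f t| ≤ δ) :
    ∃ a b c : ℝ, ∀ t ≤ N, |f t - (a + b * t + c * (t : ℝ) ^ 2)| ≤ 2 ^ 21 * δ := by
  have hδ : 0 ≤ δ := (abs_nonneg _).trans (hf 0 0 (by omega))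
  obtain ⟨s, hs⟩ : ∃ s : ℕ, s = N / 16 := ⟨_, rfl⟩
  have hs1 : 1 ≤ s := by omega
  have hsN : 16 * s ≤ N := by omega
  have hNs : N < 32 * s := by omega
  obtain ⟨n, hn⟩ : ∃ n : ℕ, n = N / s := ⟨_, rfl⟩
  have hn16 : 16 ≤ n := by
    rw [hn]
    exact (Nat.le_div_iff_mul_le hs1).2 hsN
  have hn31 : n ≤ 31 := by
    have : n < 32 := by
      rw [hn]
      exact (Nat.div_lt_iff_lt_mul hs1).2 hNs
    omega
  have hns : n * s ≤ N := by
    rw [hn]
    exact Nat.div_mul_le_self N s
  have hnN : N < n * s + s := by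
    have h1 := Nat.div_add_mod N s
    have h2 := Nat.mod_lt N hs1
    rw [← hn] at h1
    nlinarith
  -- interpolation at the first nodes
  have hs0 : (0 : ℝ) < s := by exact_mod_cast hs1
  obtain ⟨c, hc⟩ : ∃ c : ℝ, c = (f (2 * s) - 2 * f s + f 0) / (2 * (s : ℝ) ^ 2) := ⟨_, rfl⟩
  obtain ⟨b, hb'⟩ : ∃ b : ℝ, b = (f s - f 0) / s - c * s := ⟨_, rfl⟩
  refine ⟨f 0, b, c, ?_⟩
  obtain ⟨e, he⟩ : ∃ e : ℕ → ℝ, e = fun t => f t - (f 0 + b * t + c * (t : ℝ) ^ 2) := ⟨_, rfl⟩
  have e0 : e 0 = 0 := by rw [he]; simp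
  have e1 : e s = 0 := by
    rw [he, hb']
    field_simp
    ring
  have e2 : e (2 * s) = 0 := by
    rw [he, hb', hc]
    push_cast
    field_simp
    ring
  have hf' : ∀ t θ, t + 4 * θ ≤ N →
      |3 * e t - 8 * e (t + θ) + 6 * e (t + 2 * θ) - e (t + 4 * θ)| ≤ δ := by
    intro t θ ht
    have h1 := hf t θ ht
    have h2 : 3 * e t - 8 * e (t + θ) + 6 * e (t + 2 * θ) - e (t + 4 * θ) =
        3 * f t - 8 * f (t + θ) + 6 * f (t + 2 * θ) - f (t + 4 * θ) := by
      rw [he]
      push_cast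
      ring
    rwa [h2]
  have hb'' : ∀ t θ, t + 4 * θ ≤ N →
      |3 * e (t + 4 * θ) - 8 * e (t + 3 * θ) + 6 * e (t + 2 * θ) - e t| ≤ δ := by
    intro t θ ht
    have h1 := hb t θ ht
    have h2 : 3 * e (t + 4 * θ) - 8 * e (t + 3 * θ) + 6 * e (t + 2 * θ) - e t =
        3 * f (t + 4 * θ) - 8 * f (t + 3 * θ) + 6 * f (t + 2 * θ) - f t := by
      rw [he]
      push_cast
      ring
    rwa [h2]
  clear hf hb
  -- third differences
  have hD : ∀ t θ, t + 4 * θ ≤ N → |e t - 3 * e (t + θ) + 3 * e (t + 2 * θ) - e (t + 3 * θ)| ≤ δ ∧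
      |e (t + θ) - 3 * e (t + 2 * θ) + 3 * e (t + 3 * θ) - e (t + 4 * θ)| ≤ δ := by
    intro t θ ht
    have h1 := hf' t θ ht
    have h2 := hb'' t θ ht
    obtain ⟨A, hA⟩ : ∃ A, A = e t - 3 * e (t + θ) + 3 * e (t + 2 * θ) - e (t + 3 * θ) := ⟨_, rfl⟩
    obtain ⟨B, hB⟩ : ∃ B, B = e (t + θ) - 3 * e (t + 2 * θ) + 3 * e (t + 3 * θ) - e (t + 4 * θ) :=
      ⟨_, rfl⟩
    have k1 : 3 * A + B = 3 * e t - 8 * e (t + θ) + 6 * e (t + 2 * θ) - e (t + 4 * θ) := by
      rw [hA, hB]
      ring
    have k2 : 3 * B + A = -(3 * e (t + 4 * θ) - 8 * e (t + 3 * θ) + 6 * e (t + 2 * θ) - e t) := by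
      rw [hA, hB]
      ring
    rw [← k1] at h1
    have h3 : |3 * B + A| ≤ δ := by
      rw [k2, abs_neg]
      exact h2
    rw [← hA, ← hB]
    exact ⟨third_le h1 h3, third_le h3 h1⟩
  -- nodes
  have hnode : ∀ i ≤ n, |e (i * s)| ≤ 29791 * δ := by
    have h1 := node_le (n := n) (v := fun i => e (i * s)) hδ (by simp [e0]) (by simp [e1])
      (by exact e2) (by
      intro i hi
      rcases Nat.eq_zero_or_pos i with h2 | h2
      · have h3 := (hD 0 s (by omega)).1
        subst h2
        simpa using h3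
      · have h5 : (i + 3) * s ≤ n * s := Nat.mul_le_mul_right s hi
        have h3 := (hD ((i - 1) * s) s (by
          have : (i - 1) * s + 4 * s = (i + 3) * s := by
            rw [← add_mul]
            congr 1
            omega
          omega)).2
        have k1 : (i - 1) * s + s = i * s := by
          rw [← Nat.succ_mul]
          congr 1
          omega
        have k2 : (i - 1) * s + 2 * s = (i + 1) * s := by
          rw [← add_mul]
          congr 1
          omega
        have k3 : (i - 1) * s + 3 * s = (i + 2) * s := by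
          rw [← add_mul]
          congr 1
          omega
        have k4 : (i - 1) * s + 4 * s = (i + 3) * s := by
          rw [← add_mul]
          congr 1
          omega
        rw [k1, k2, k3, k4] at h3
        exact h3)
    intro i hi
    refine (h1 i hi).trans (mul_le_mul_of_nonneg_right ?_ hδ)
    have h2 : (i : ℝ) ≤ 31 := by
      have : i ≤ 31 := hi.trans hn31
      exact_mod_cast this
    calc (i : ℝ) ^ 3 ≤ 31 ^ 3 := pow_le_pow_left₀ (Nat.cast_nonneg i) h2 3
      _ = 29791 := by norm_num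
  -- inside
  have hin : ∀ t ≤ n * s, |e t| ≤ 89374 * δ := by
    refine max_le (N := n * s) (h := e) (A := 89374 * δ) ?_
    intro t ht M hM hMt
    obtain ⟨q, hq⟩ : ∃ q : ℕ, q = t / s := ⟨_, rfl⟩
    obtain ⟨r, hr⟩ : ∃ r : ℕ, r = t % s := ⟨_, rfl⟩
    have hqr : q * s + r = t := by
      rw [hq, hr, mul_comm]
      exact Nat.div_add_mod t s
    have hrs : r < s := by
      rw [hr]
      exact Nat.mod_lt t hs1
    have hqn : q ≤ n := by
      rw [hq]
      exact Nat.div_le_of_le_mul (by rw [mul_comm]; exact ht)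
    have hb7 : 8 * |e t| ≤ δ + 3 * (29791 * δ) + 7 * M := by
      rcases Nat.lt_or_ge (n * s) (t + 4 * s) with h4 | h4
      · -- backward, from the node q + 1
        rcases Nat.eq_zero_or_pos r with hr0 | hr0
        · have h5 := hnode q hqn
          have h6 : q * s = t := by omega
          rw [h6] at h5
          rw [← hMt]
          linarith
        · have hq1 : q + 1 ≤ n := by
            by_contra hcon
            have : q = n := by omega
            rw [this] at hqr
            omega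
          have h5 : (q + 1) * s ≤ n * s := Nat.mul_le_mul_right s hq1
          have h7 : (q + 1) * s = q * s + s := by ring
          have h16 : 16 * s ≤ n * s := Nat.mul_le_mul_right s hn16
          have h6 := hb'' ((q + 1) * s - 4 * (s - r)) (s - r) (by omega)
          have k1 : (q + 1) * s - 4 * (s - r) + 4 * (s - r) = (q + 1) * s := by omega
          have k2 : (q + 1) * s - 4 * (s - r) + 3 * (s - r) = t := by omega
          rw [k1, k2] at h6
          exact four_le h6 (hnode (q + 1) hq1) (hM _ (by omega)) (hM _ (by omega))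
      · have h6 := hf' (q * s) r (by omega)
        rw [hqr] at h6
        exact four_le h6 (hnode q hqn) (hM _ (by omega)) (hM _ (by omega))
    rw [hMt] at hb7
    linarith
  -- the end
  intro t ht
  have h2 : |e t| ≤ 2 ^ 21 * δ := by
    rcases Nat.lt_or_ge (n * s) t with h3 | h3
    · have h16 : 16 * s ≤ n * s := Nat.mul_le_mul_right s hn16
      have h4 := hf' (t - 4 * s) s (by omega)
      have k1 : t - 4 * s + s = t - 3 * s := by omega
      have k2 : t - 4 * s + 2 * s = t - 2 * s := by omega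
      have k3 : t - 4 * s + 4 * s = t := by omega
      rw [k1, k2, k3] at h4
      have a1 := abs_le.1 (hin (t - 4 * s) (by omega))
      have a2 := abs_le.1 (hin (t - 3 * s) (by omega))
      have a3 := abs_le.1 (hin (t - 2 * s) (by omega))
      obtain ⟨b1, b2⟩ := abs_le.1 h4
      rw [abs_le]
      constructor <;> linarith [a1.1, a1.2, a2.1, a2.2, a3.1, a3.2]
    · refine (hin t h3).trans (mul_le_mul_of_nonneg_right (by norm_num) hδ)
  rw [he] at h2
  exact h2

end Pool.TT5
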